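import Pool.Agent.Helper38_F5.Box

/-!
MP_f5cbfa_nt, duality count: packing rows, part 2 (annuli, annuli and strips).
-/

set_option autoImplicit false

open MeasureTheory

namespace Pool.Agent.Helper38_F5

open Pool.Agent.Helper68_F5

theorem card_fibR {α β : Type*} [DecidableEq β] (s : Finset α) (f : α → β) (t : Finset β)
    {N : ℝ} (hmap : ∀ x ∈ s, f x ∈ t)
    (hN : ∀ b ∈ t, ((s.filter (fun x => f x = b)).card : ℝ) ≤ N) :
    (s.card : ℝ) ≤ t.card * N := by
  have h := Finset.card_eq_sum_card_fiberwise (f := f) (s := s) (t := t) (fun x hx => hmap x hx)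
  have h2 : (s.card : ℝ) = ∑ b ∈ t, ((s.filter (fun x => f x = b)).card : ℝ) := by
    exact_mod_cast h
  rw [h2]
  refine le_trans (Finset.sum_le_sum hN) ?_
  rw [Finset.sum_const, nsmul_eq_mul]

/-- points of an annulus in the sector `|sp u x| ≤ |wd u x|` and the strip `|sp u x| ≤ D` -/
theorem annfib : ∀ c₀ : ℝ, 0 < c₀ → ∃ K : ℝ, 1 ≤ K ∧ ∀ g : ℤ × ℤ →+ ℂ, Sep c₀ g →
    ∀ u : ℂ, ‖u‖ = 1 → ∀ τ P D : ℝ, 1 ≤ P → 0 ≤ D → ∀ S : Finset (ℤ × ℤ),
      (∀ z ∈ S, |‖g z‖ - τ| ≤ P ∧ |sp u (g z)| ≤ |wd u (g z)| ∧ |sp u (g z)| ≤ D) →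
      (S.card : ℝ) ≤ K * P * (1 + D) := by
  intro c₀ hc
  obtain ⟨K, hK, hbox⟩ := box c₀ hc
  refine ⟨56 * K, by linarith, ?_⟩
  intro g hg u hu τ P D hP hD S hS
  obtain ⟨f, hf⟩ : ∃ f : ℤ × ℤ → ℤ × Bool,
      f = fun z => (⌊sp u (g z)⌋, decide (0 ≤ wd u (g z))) := ⟨_, rfl⟩
  obtain ⟨t, ht⟩ : ∃ t : Finset (ℤ × Bool), t = Finset.Icc ⌊-D⌋ ⌊D⌋ ×ˢ Finset.univ := ⟨_, rfl⟩
  have hmap : ∀ z ∈ S, f z ∈ t := by
    intro z hz
    rw [hf, ht]
    simp only [Finset.mem_product, Finset.mem_Icc, Finset.mem_univ, and_true]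
    have h1 := abs_le.1 (hS z hz).2.2
    exact ⟨Int.floor_le_floor h1.1, Int.floor_le_floor h1.2⟩
  have hN : ∀ b ∈ t, ((S.filter (fun z => f z = b)).card : ℝ) ≤ K * (1 + 1) * (1 + 5 * P) := by
    intro b _
    rcases (S.filter (fun z => f z = b)).eq_empty_or_nonempty with he | ⟨y, hy⟩
    · rw [he, Finset.card_empty, Nat.cast_zero]
      positivity
    · rw [Finset.mem_filter] at hy
      refine hbox g hg u hu 1 (5 * P) (sp u (g y)) (wd u (g y)) zero_le_one (by linarith) _ ?_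
      intro z hz
      rw [Finset.mem_filter] at hz
      have e : f z = f y := by rw [hz.2, hy.2]
      rw [hf] at e
      simp only [Prod.mk.injEq, decide_eq_decide] at e
      have e1 := Int.abs_sub_lt_one_of_floor_eq_floor e.1
      refine ⟨e1.le, ?_⟩
      have a := hS z hz.1
      have b := hS y hy.1
      obtain ⟨X, hX⟩ : ∃ X : ℝ, X = |wd u (g z)| := ⟨_, rfl⟩
      obtain ⟨Y, hY⟩ : ∃ Y : ℝ, Y = |wd u (g y)| := ⟨_, rfl⟩
      have hXY : |wd u (g z) - wd u (g y)| = |X - Y| := by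
        rcases le_or_gt 0 (wd u (g y)) with h | h
        · rw [hX, hY, abs_of_nonneg h, abs_of_nonneg (e.2.2 h)]
        · have h' : wd u (g z) < 0 := by
            by_contra h2
            exact absurd (e.2.1 (not_lt.1 h2)) (not_le.2 h)
          rw [hX, hY, abs_of_neg h, abs_of_neg h', abs_sub_comm, neg_sub_neg]
      rw [hXY]
      have n1 := sp_sq_add_wd_sq u (g z)
      have n2 := sp_sq_add_wd_sq u (g y)
      rw [hu, one_pow, one_mul] at n1 n2
      obtain ⟨p, hp⟩ : ∃ p : ℝ, p = |sp u (g z)| := ⟨_, rfl⟩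
      obtain ⟨q, hq⟩ : ∃ q : ℝ, q = |sp u (g y)| := ⟨_, rfl⟩
      have hpq : |p - q| ≤ 1 := by
        rw [hp, hq]
        exact le_trans (abs_abs_sub_abs_le_abs_sub _ _) e1.le
      rw [← sq_abs (sp u (g z)), ← sq_abs (wd u (g z)), ← hp, ← hX] at n1
      rw [← sq_abs (sp u (g y)), ← sq_abs (wd u (g y)), ← hq, ← hY] at n2
      have hp0 : 0 ≤ p := by rw [hp]; exact abs_nonneg _
      have hq0 : 0 ≤ q := by rw [hq]; exact abs_nonneg _
      have hX0 : 0 ≤ X := by rw [hX]; exact abs_nonneg _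
      have hY0 : 0 ≤ Y := by rw [hY]; exact abs_nonneg _
      have hpX : p ≤ X := by rw [hp, hX]; exact a.2.1
      have hqY : q ≤ Y := by rw [hq, hY]; exact b.2.1
      obtain ⟨m, hm⟩ : ∃ m : ℝ, m = ‖g z‖ := ⟨_, rfl⟩
      obtain ⟨n, hn⟩ : ∃ n : ℝ, n = ‖g y‖ := ⟨_, rfl⟩
      rw [← hm] at n1
      rw [← hn] at n2
      have hm0 : 0 ≤ m := by rw [hm]; exact norm_nonneg _
      have hn0 : 0 ≤ n := by rw [hn]; exact norm_nonneg _
      have a1 := abs_le.1 a.1
      have b1 := abs_le.1 b.1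
      rw [← hm] at a1
      rw [← hn] at b1
      have hmn : |m - n| ≤ 2 * P := by
        rw [abs_le]; constructor <;> linarith [a1.1, a1.2, b1.1, b1.2]
      -- m ≤ 3/2 X etc.
      have hmX : m ≤ 3 / 2 * X := by
        by_contra h
        rw [not_le] at h
        nlinarith
      have hnY : n ≤ 3 / 2 * Y := by
        by_contra h
        rw [not_le] at h
        nlinarith
      have hmn' := abs_le.1 hmn
      have hpq' := abs_le.1 hpq
      -- (X - Y)(X + Y) = (m - n)(m + n) - (p - q)(p + q)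
      have key : (X - Y) * (X + Y) = (m - n) * (m + n) - (p - q) * (p + q) := by nlinarith
      rcases eq_or_lt_of_le (add_nonneg hX0 hY0) with h0 | h0
      · have hx : X = 0 := by linarith
        have hy : Y = 0 := by linarith
        rw [hx, hy, sub_zero, abs_zero]
        linarith
      · have k1 : |(X - Y) * (X + Y)| ≤ (5 * P) * (X + Y) := by
          rw [key]
          have t1 : |(m - n) * (m + n)| ≤ 2 * P * (3 / 2 * (X + Y)) := by
            rw [abs_mul, abs_of_nonneg (add_nonneg hm0 hn0)]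
            exact mul_le_mul hmn (by linarith) (by positivity) (by linarith)
          have t2 : |(p - q) * (p + q)| ≤ 1 * (X + Y) := by
            rw [abs_mul, abs_of_nonneg (add_nonneg hp0 hq0)]
            exact mul_le_mul hpq (by linarith) (by positivity) zero_le_one
          refine le_trans (abs_sub _ _) ?_
          nlinarith
        rw [abs_mul, abs_of_pos h0] at k1
        exact le_of_mul_le_mul_right k1 h0
  have hcard := card_fibR S f t hmap hN
  have htc : (t.card : ℝ) ≤ (2 * D + 2) * 2 := by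
    rw [ht, Finset.card_product]
    push_cast
    have h1 := int_count (x := -D) (y := D) (by linarith)
    have h2 : ((Finset.univ : Finset Bool).card : ℝ) = 2 := by norm_num
    rw [h2]
    nlinarith
  refine le_trans hcard ?_
  have h3 : K * (1 + 1) * (1 + 5 * P) ≤ 12 * K * P := by nlinarith
  have h4 : 0 ≤ K * (1 + 1) * (1 + 5 * P) := by positivity
  calc (t.card : ℝ) * (K * (1 + 1) * (1 + 5 * P)) ≤
      ((2 * D + 2) * 2) * (12 * K * P) := mul_le_mul htc h3 h4 (by positivity)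
    _ = 48 * K * P * (1 + D) := by ring
    _ ≤ 56 * K * P * (1 + D) := by
        have : 0 ≤ K * P * (1 + D) := by positivity
        nlinarith

theorem ann : AnnStmt := by
  intro c₀ hc
  obtain ⟨K, hK, hfib⟩ := annfib c₀ hc
  refine ⟨4 * K, by linarith, ?_⟩
  intro g hg τ P hP hτ S hS
  classical
  have hu1 : ‖(1 : ℂ)‖ = 1 := norm_one
  have huI : ‖Complex.I‖ = 1 := Complex.norm_I
  have hle : ∀ z ∈ S, ‖g z‖ ≤ τ + P := by
    intro z hz
    have := (abs_le.1 (hS z hz)).2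
    linarith
  have h1 := hfib g hg 1 hu1 τ P (τ + P) hP (by linarith)
    (S.filter (fun z => |sp 1 (g z)| ≤ |wd 1 (g z)|)) (by
      intro z hz
      rw [Finset.mem_filter] at hz
      refine ⟨hS z hz.1, hz.2, ?_⟩
      refine le_trans (abs_sp_le _ _) ?_
      rw [hu1, one_mul]
      exact hle z hz.1)
  have h2 := hfib g hg Complex.I huI τ P (τ + P) hP (by linarith)
    (S.filter (fun z => ¬ |sp 1 (g z)| ≤ |wd 1 (g z)|)) (by
      intro z hz
      rw [Finset.mem_filter] at hz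
      have e1 : sp Complex.I (g z) = wd 1 (g z) := by simp [sp, wd]
      have e2 : wd Complex.I (g z) = -sp 1 (g z) := by simp [sp, wd]
      refine ⟨hS z hz.1, ?_, ?_⟩
      · rw [e1, e2, abs_neg]
        exact (not_le.1 hz.2).le
      · refine le_trans (abs_sp_le _ _) ?_
        rw [huI, one_mul]
        exact hle z hz.1)
  have h3 := Finset.card_filter_add_card_filter_not (s := S)
    (fun z => |sp 1 (g z)| ≤ |wd 1 (g z)|)
  have h4 : (S.card : ℝ) = ((S.filter (fun z => |sp 1 (g z)| ≤ |wd 1 (g z)|)).card : ℝ) +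
      ((S.filter (fun z => ¬ |sp 1 (g z)| ≤ |wd 1 (g z)|)).card : ℝ) := by
    rw [← h3]; push_cast; ring
  rw [h4]
  have h5 : 0 ≤ K * P := by positivity
  nlinarith

theorem annStrip : AnnStripStmt := by
  intro c₀ hc
  obtain ⟨K₁, hK₁, hfib⟩ := annfib c₀ hc
  obtain ⟨K₂, hK₂, hann⟩ := ann c₀ hc
  refine ⟨K₁ + 3 * K₂, by linarith, ?_⟩
  intro g hg b hb τ P d hP hPτ hd S hS
  have hn := norm_unit hb
  have h1 : 0 < ‖b‖ := norm_pos_iff.2 hb
  have hdb : 0 ≤ d / ‖b‖ := by positivity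
  obtain ⟨u, hu⟩ : ∃ u : ℂ, u = ((‖b‖⁻¹ : ℝ) : ℂ) * b := ⟨_, rfl⟩
  rw [← hu] at hn
  by_cases hall : ∀ z ∈ S, |sp u (g z)| ≤ |wd u (g z)|
  · have := hfib g hg u hn τ P (d / ‖b‖) hP hdb S (by
      intro z hz
      refine ⟨(hS z hz).1, hall z hz, ?_⟩
      rw [hu]
      exact abs_sp_unit hb (hS z hz).2)
    refine le_trans this ?_
    have : 0 ≤ 3 * K₂ * P * (1 + d / ‖b‖) := by positivity
    nlinarith
  · push Not at hall
    obtain ⟨z, hz, hz2⟩ := hall
    have h2 := hann g hg τ P hP (by linarith) S (fun z hz => (hS z hz).1)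
    have h3 : |sp u (g z)| ≤ d / ‖b‖ := by rw [hu]; exact abs_sp_unit hb (hS z hz).2
    have h4 := sp_sq_add_wd_sq u (g z)
    rw [hn, one_pow, one_mul, ← sq_abs (sp u (g z)), ← sq_abs (wd u (g z))] at h4
    have h5 : ‖g z‖ ≤ 3 / 2 * (d / ‖b‖) := by
      by_contra h
      rw [not_le] at h
      have := abs_nonneg (wd u (g z))
      have := abs_nonneg (sp u (g z))
      nlinarith
    have h6 := (abs_le.1 (hS z hz).1).1
    have h7 : τ + P ≤ 3 * (d / ‖b‖) := by linarith
    refine le_trans h2 ?_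
    have h8 : K₂ * P * (τ + P) ≤ K₂ * P * (3 * (d / ‖b‖)) :=
      mul_le_mul_of_nonneg_left h7 (by positivity)
    have h9 : 0 ≤ K₂ * P := by positivity
    have h10 : 0 ≤ K₁ * P * (1 + d / ‖b‖) := by positivity
    nlinarith

end Pool.Agent.Helper38_F5
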