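import Pool.Agent.Helper38_F5.Strip

/-!
MP_f5cbfa_nt, duality count: packing rows, part 4 (sums over short vectors).
-/

set_option autoImplicit false

open MeasureTheory

namespace Pool.Agent.Helper38_F5

open Pool.Agent.Helper68_F5

/-- dyadic shells -/
theorem dyadic_sum {c₀ : ℝ} (hc : 0 < c₀) {g : ℤ × ℤ →+ ℂ} (hg : Sep c₀ g) {G : ℝ} (hG : c₀ ≤ G)
    (f : ℤ × ℤ → ℝ) (B : ℕ → ℝ)
    (hB : ∀ j : ℕ, ∀ S : Finset (ℤ × ℤ), (∀ z ∈ S, 2 ^ j * c₀ ≤ ‖g z‖ ∧ ‖g z‖ ≤ 2 ^ (j + 1) * c₀) →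
      ∑ z ∈ S, f z ≤ B j) :
    ∃ J : ℕ, (2 : ℝ) ^ J * c₀ ≤ G ∧
      ∑ z ∈ (lt g G).filter (fun z => z ≠ 0), f z ≤ ∑ j ∈ Finset.range (J + 1), B j := by
  classical
  obtain ⟨J, hJ⟩ : ∃ J : ℕ, J = Nat.log 2 ⌊G / c₀⌋₊ := ⟨_, rfl⟩
  have hGc : 1 ≤ G / c₀ := by rw [le_div_iff₀ hc]; linarith
  have hfl : ⌊G / c₀⌋₊ ≠ 0 := by
    have : 1 ≤ ⌊G / c₀⌋₊ := (Nat.one_le_floor_iff _).2 hGc
    omega
  refine ⟨J, ?_, ?_⟩
  · have h1 : 2 ^ J ≤ ⌊G / c₀⌋₊ := by rw [hJ]; exact Nat.pow_log_le_self 2 hfl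
    have h2 : ((2 ^ J : ℕ) : ℝ) ≤ G / c₀ :=
      le_trans (by exact_mod_cast h1) (Nat.floor_le (by linarith))
    push_cast at h2
    rwa [le_div_iff₀ hc] at h2
  · obtain ⟨F, hF⟩ : ∃ F : Finset (ℤ × ℤ), F = (lt g G).filter (fun z => z ≠ 0) := ⟨_, rfl⟩
    rw [← hF]
    have hx : ∀ z ∈ F, 1 ≤ ‖g z‖ / c₀ ∧ ‖g z‖ ≤ G := by
      intro z hz
      rw [hF, Finset.mem_filter, mem_lt hc hg] at hz
      refine ⟨?_, hz.1⟩
      rw [le_div_iff₀ hc, one_mul]
      exact hg z hz.2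
    have hmaps : ∀ z ∈ F, Nat.log 2 ⌊‖g z‖ / c₀⌋₊ ∈ Finset.range (J + 1) := by
      intro z hz
      rw [Finset.mem_range, hJ, Nat.lt_succ_iff]
      refine Nat.log_mono_right ?_
      exact Nat.floor_le_floor (div_le_div_of_nonneg_right (hx z hz).2 hc.le)
    rw [← Finset.sum_fiberwise_of_maps_to hmaps]
    refine Finset.sum_le_sum ?_
    intro j _
    refine hB j _ ?_
    intro z hz
    rw [Finset.mem_filter] at hz
    have h1 := hx z hz.1
    have hfz : ⌊‖g z‖ / c₀⌋₊ ≠ 0 := by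
      have : 1 ≤ ⌊‖g z‖ / c₀⌋₊ := (Nat.one_le_floor_iff _).2 h1.1
      omega
    constructor
    · have h2 : 2 ^ j ≤ ⌊‖g z‖ / c₀⌋₊ := by rw [← hz.2]; exact Nat.pow_log_le_self 2 hfz
      have h3 : ((2 ^ j : ℕ) : ℝ) ≤ ‖g z‖ / c₀ :=
        le_trans (by exact_mod_cast h2) (Nat.floor_le (by linarith [h1.1]))
      push_cast at h3
      rwa [le_div_iff₀ hc] at h3
    · have h2 : ⌊‖g z‖ / c₀⌋₊ < 2 ^ (j + 1) := by
        rw [← hz.2]
        exact Nat.lt_pow_succ_log_self (by norm_num) _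
      have h3 : ‖g z‖ / c₀ < ((2 ^ (j + 1) : ℕ) : ℝ) := by
        have h4 := Nat.lt_floor_add_one (‖g z‖ / c₀)
        have h5 : ((⌊‖g z‖ / c₀⌋₊ + 1 : ℕ) : ℝ) ≤ ((2 ^ (j + 1) : ℕ) : ℝ) := by
          exact_mod_cast h2
        push_cast at h5 ⊢
        linarith
      push_cast at h3
      rw [div_lt_iff₀ hc] at h3
      exact h3.le

theorem disc_count {g : ℤ × ℤ →+ ℂ} {K : ℝ}
    (hbox : ∀ (u : ℂ), ‖u‖ = 1 → ∀ (A B α β : ℝ), 0 ≤ A → 0 ≤ B → ∀ S : Finset (ℤ × ℤ),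
      (∀ z ∈ S, |sp u (g z) - α| ≤ A ∧ |wd u (g z) - β| ≤ B) →
      (S.card : ℝ) ≤ K * (1 + A) * (1 + B)) {r : ℝ} (hr : 0 ≤ r) (S : Finset (ℤ × ℤ))
    (hS : ∀ z ∈ S, ‖g z‖ ≤ r) : (S.card : ℝ) ≤ K * (1 + r) * (1 + r) := by
  refine hbox 1 norm_one r r 0 0 hr hr S ?_
  intro z hz
  rw [sub_zero, sub_zero]
  constructor
  · refine le_trans (abs_sp_le _ _) ?_
    rw [norm_one, one_mul]
    exact hS z hz
  · refine le_trans (abs_wd_le _ _) ?_
    rw [norm_one, one_mul]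
    exact hS z hz

theorem short : ShortStmt := by
  intro c₀ hc
  obtain ⟨K, hK, hbox⟩ := box c₀ hc
  obtain ⟨M, hM⟩ : ∃ M : ℝ, M = K * (1 + 2 * c₀) ^ 2 / c₀ ^ 2 := ⟨_, rfl⟩
  have hM0 : 0 < M := by rw [hM]; positivity
  obtain ⟨q, hq⟩ : ∃ q : ℝ, q = |Real.log c₀| := ⟨_, rfl⟩
  have hq0 : 0 ≤ q := by rw [hq]; exact abs_nonneg _
  refine ⟨1 + (3 + 2 * q) * (1 + M), by nlinarith, ?_⟩
  intro g hg G hG
  have hlog : 0 ≤ Real.log G := Real.log_nonneg hG
  -- count in a shell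
  have hcount : ∀ j : ℕ, ∀ S : Finset (ℤ × ℤ),
      (∀ z ∈ S, 2 ^ j * c₀ ≤ ‖g z‖ ∧ ‖g z‖ ≤ 2 ^ (j + 1) * c₀) →
      (S.card : ℝ) ≤ M * (2 ^ j * c₀) ^ 2 := by
    intro j S hS
    have h2j : (1 : ℝ) ≤ 2 ^ j := one_le_pow₀ (by norm_num)
    have := disc_count (hbox g hg) (r := 2 ^ (j + 1) * c₀) (by positivity) S
      (fun z hz => (hS z hz).2)
    refine le_trans this ?_
    have h1 : 1 + 2 ^ (j + 1) * c₀ ≤ 2 ^ j * (1 + 2 * c₀) := by
      rw [pow_succ]; nlinarith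
    calc K * (1 + 2 ^ (j + 1) * c₀) * (1 + 2 ^ (j + 1) * c₀)
        ≤ K * (2 ^ j * (1 + 2 * c₀)) * (2 ^ j * (1 + 2 * c₀)) := by
          have : 0 ≤ 1 + 2 ^ (j + 1) * c₀ := by positivity
          exact mul_le_mul (mul_le_mul_of_nonneg_left h1 (by linarith)) h1 this (by positivity)
      _ = M * (2 ^ j * c₀) ^ 2 := by rw [hM]; field_simp
  rcases lt_or_ge G c₀ with hGc | hGc
  · have he : (lt g G).filter (fun z => z ≠ 0) = ∅ := by
      rw [Finset.filter_eq_empty_iff]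
      intro z hz
      rw [mem_lt hc hg] at hz
      rw [not_not]
      by_contra h
      have := hg z h
      linarith
    rw [he, Finset.sum_empty, Finset.sum_empty]
    have : 0 ≤ (3 + 2 * q) * (1 + M) := by positivity
    constructor
    · nlinarith
    · nlinarith
  · constructor
    · obtain ⟨J, hJ, hsum⟩ := dyadic_sum hc hg hGc (fun z => 1 / ‖g z‖)
        (fun j => M * c₀ * 2 ^ j) (by
          intro j S hS
          have hp : (0 : ℝ) < 2 ^ j * c₀ := by positivity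
          calc ∑ z ∈ S, 1 / ‖g z‖ ≤ ∑ _z ∈ S, 1 / (2 ^ j * c₀) := by
                refine Finset.sum_le_sum ?_
                intro z hz
                exact one_div_le_one_div_of_le hp (hS z hz).1
            _ = S.card * (1 / (2 ^ j * c₀)) := by rw [Finset.sum_const, nsmul_eq_mul]
            _ ≤ M * (2 ^ j * c₀) ^ 2 * (1 / (2 ^ j * c₀)) :=
                mul_le_mul_of_nonneg_right (hcount j S hS) (by positivity)
            _ = M * c₀ * 2 ^ j := by field_simp)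
      refine le_trans hsum ?_
      rw [← Finset.mul_sum]
      have h1 : ∑ j ∈ Finset.range (J + 1), (2 : ℝ) ^ j ≤ 2 * 2 ^ J := by
        have := geom_sum_eq (x := (2 : ℝ)) (by norm_num) (J + 1)
        rw [this, pow_succ]
        norm_num
        linarith
      have h2 : M * c₀ * ∑ j ∈ Finset.range (J + 1), (2 : ℝ) ^ j ≤ M * c₀ * (2 * 2 ^ J) :=
        mul_le_mul_of_nonneg_left h1 (by positivity)
      refine le_trans h2 ?_
      have h3 : M * c₀ * (2 * 2 ^ J) = 2 * M * (2 ^ J * c₀) := by ring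
      rw [h3]
      have h4 : 2 * M * (2 ^ J * c₀) ≤ 2 * M * G := mul_le_mul_of_nonneg_left hJ (by positivity)
      refine le_trans h4 ?_
      have h5 : 2 * M ≤ 1 + (3 + 2 * q) * (1 + M) := by nlinarith
      exact mul_le_mul_of_nonneg_right h5 (by linarith)
    · obtain ⟨J, hJ, hsum⟩ := dyadic_sum hc hg hGc (fun z => 1 / ‖g z‖ ^ 2)
        (fun _ => M) (by
          intro j S hS
          have hp : (0 : ℝ) < 2 ^ j * c₀ := by positivity
          calc ∑ z ∈ S, 1 / ‖g z‖ ^ 2 ≤ ∑ _z ∈ S, 1 / (2 ^ j * c₀) ^ 2 := by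
                refine Finset.sum_le_sum ?_
                intro z hz
                exact one_div_le_one_div_of_le (by positivity)
                  (pow_le_pow_left₀ hp.le (hS z hz).1 2)
            _ = S.card * (1 / (2 ^ j * c₀) ^ 2) := by rw [Finset.sum_const, nsmul_eq_mul]
            _ ≤ M * (2 ^ j * c₀) ^ 2 * (1 / (2 ^ j * c₀) ^ 2) :=
                mul_le_mul_of_nonneg_right (hcount j S hS) (by positivity)
            _ = M := by field_simp)
      refine le_trans hsum ?_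
      rw [Finset.sum_const, Finset.card_range, nsmul_eq_mul]
      -- J + 1 ≤ 2 log G + 2 q + 1
      have hJlog : (J : ℝ) * Real.log 2 ≤ Real.log G + q := by
        have h1 : (2 : ℝ) ^ J ≤ G / c₀ := by rw [le_div_iff₀ hc]; exact hJ
        have h2 := Real.log_le_log (by positivity) h1
        rw [Real.log_pow, Real.log_div (by linarith) hc.ne'] at h2
        have h3 : -Real.log c₀ ≤ q := by rw [hq]; exact neg_le_abs _
        linarith
      have hl2 : (1 : ℝ) / 2 < Real.log 2 := by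
        have := Real.log_two_gt_d9
        norm_num at this ⊢
        linarith
      have hJ2 : (J : ℝ) ≤ 2 * Real.log G + 2 * q := by
        have : 0 ≤ (J : ℝ) := Nat.cast_nonneg _
        nlinarith
      push_cast
      have h6 : ((J : ℝ) + 1) * M ≤ (2 * Real.log G + 2 * q + 1) * M :=
        mul_le_mul_of_nonneg_right (by linarith) hM0.le
      refine le_trans h6 ?_
      have h7 : 2 * Real.log G + 2 * q + 1 ≤ (3 + 2 * q) * (1 + Real.log G) := by nlinarith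
      have h8 : (2 * Real.log G + 2 * q + 1) * M ≤ (3 + 2 * q) * (1 + Real.log G) * M :=
        mul_le_mul_of_nonneg_right h7 hM0.le
      refine le_trans h8 ?_
      have h9 : 0 ≤ (3 + 2 * q) * (1 + Real.log G) := by positivity
      nlinarith

end Pool.Agent.Helper38_F5
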