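import Pool.Agent.Helper38_F5.Ann

/-!
MP_f5cbfa_nt, duality count: packing rows, part 3 (curved strips).
-/

set_option autoImplicit false

open MeasureTheory

namespace Pool.Agent.Helper38_F5

open Pool.Agent.Helper68_F5

/-- a disc contains finitely many points of a separated lattice -/
theorem finite_ball {c₀ : ℝ} (hc : 0 < c₀) {g : ℤ × ℤ →+ ℂ} (hg : Sep c₀ g) (G : ℝ) :
    {z | ‖g z‖ ≤ G}.Finite := by
  obtain ⟨K, hK, hbox⟩ := box c₀ hc
  by_contra hinf
  obtain ⟨n, hn⟩ := exists_nat_gt (K * (1 + |G|) * (1 + |G|))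
  obtain ⟨t, ht1, ht2⟩ := Set.Infinite.exists_subset_card_eq hinf n
  have := hbox g hg 1 norm_one |G| |G| 0 0 (abs_nonneg _) (abs_nonneg _) t (by
    intro z hz
    have h1 : ‖g z‖ ≤ G := ht1 hz
    have h2 : ‖g z‖ ≤ |G| := le_trans h1 (le_abs_self _)
    rw [sub_zero, sub_zero]
    constructor
    · refine le_trans (abs_sp_le _ _) ?_
      rw [norm_one, one_mul]
      exact h2
    · refine le_trans (abs_wd_le _ _) ?_
      rw [norm_one, one_mul]
      exact h2)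
  rw [ht2] at this
  linarith

theorem mem_lt {c₀ : ℝ} (hc : 0 < c₀) {g : ℤ × ℤ →+ ℂ} (hg : Sep c₀ g) (G : ℝ) (z : ℤ × ℤ) :
    z ∈ lt g G ↔ ‖g z‖ ≤ G := by
  unfold lt
  rw [dif_pos (finite_ball hc hg G)]
  simp

/-- `δ`-separated points of a curved strip -/
theorem strip_sep {ι : Type*} (S : Finset ι) (p : ι → ℂ) {δ : ℝ} (hδ : 0 < δ)
    (hsep : ∀ z ∈ S, ∀ z' ∈ S, z ≠ z' → δ ≤ ‖p z - p z'‖) (u : ℂ) (hu : ‖u‖ = 1)
    {V m : ℝ} (hV : 0 ≤ V) (hm : 0 ≤ m) (h1 : ∀ z ∈ S, ‖p z‖ ≤ V)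
    (h2 : ∀ z ∈ S, ∀ z' ∈ S, |sp u (p z - p z')| ≤ m + |wd u (p z - p z')|) :
    (S.card : ℝ) ≤ (2 * V / δ + 2) * ((4 * m / δ + 6) * 6) := by
  classical
  obtain ⟨t, ht⟩ : ∃ t : Finset ℤ, t = Finset.Icc ⌊-(V / δ)⌋ ⌊V / δ⌋ := ⟨_, rfl⟩
  have hVδ : 0 ≤ V / δ := by positivity
  have hmap : ∀ z ∈ S, ⌊wd u (p z) / δ⌋ ∈ t := by
    intro z hz
    have e : |wd u (p z)| ≤ V := by
      refine le_trans (abs_wd_le _ _) ?_
      rw [hu, one_mul]
      exact h1 z hz
    have e' := abs_le.1 e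
    rw [ht, Finset.mem_Icc]
    constructor
    · refine Int.floor_le_floor ?_
      rw [← neg_div]
      exact div_le_div_of_nonneg_right (by linarith) hδ.le
    · refine Int.floor_le_floor ?_
      exact div_le_div_of_nonneg_right (by linarith) hδ.le
  have hN : ∀ b ∈ t, ((S.filter (fun z => ⌊wd u (p z) / δ⌋ = b)).card : ℝ) ≤
      (4 * m / δ + 6) * 6 := by
    intro b _
    rcases (S.filter (fun z => ⌊wd u (p z) / δ⌋ = b)).eq_empty_or_nonempty with he | ⟨y, hy⟩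
    · rw [he, Finset.card_empty, Nat.cast_zero]
      positivity
    · rw [Finset.mem_filter] at hy
      have := pack_box (S.filter (fun z => ⌊wd u (p z) / δ⌋ = b)) p hδ (by
        intro z hz z' hz' hne
        rw [Finset.mem_filter] at hz hz'
        exact hsep z hz.1 z' hz'.1 hne) u hu (A := m + δ) (B := δ) (α := sp u (p y))
        (β := wd u (p y)) (by linarith) hδ.le (by
          intro z hz
          rw [Finset.mem_filter] at hz
          have e := Int.abs_sub_lt_one_of_floor_eq_floor (hz.2.trans hy.2.symm)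
          rw [← sub_div, abs_div, abs_of_pos hδ, div_lt_one hδ] at e
          have e2 := h2 z hz.1 y hy.1
          rw [sp_sub, wd_sub] at e2
          exact ⟨by linarith, e.le⟩)
      refine le_trans this (le_of_eq ?_)
      field_simp
      ring
  have := card_fibR S (fun z => ⌊wd u (p z) / δ⌋) t hmap hN
  refine le_trans this ?_
  have htc : (t.card : ℝ) ≤ 2 * V / δ + 2 := by
    rw [ht]
    refine le_trans (int_count (by linarith)) (le_of_eq ?_)
    ring
  exact mul_le_mul_of_nonneg_right htc (by positivity)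

/-- minimal distance -/
theorem exists_min_dist (S : Finset (ℤ × ℤ)) (g : ℤ × ℤ →+ ℂ) (h : ∃ z ∈ S, ∃ z' ∈ S, z ≠ z') :
    ∃ z ∈ S, ∃ z' ∈ S, z ≠ z' ∧ ∀ y ∈ S, ∀ y' ∈ S, y ≠ y' → ‖g z - g z'‖ ≤ ‖g y - g y'‖ := by
  classical
  obtain ⟨T, hT⟩ : ∃ T : Finset ((ℤ × ℤ) × (ℤ × ℤ)),
      T = (S ×ˢ S).filter (fun q => q.1 ≠ q.2) := ⟨_, rfl⟩
  have hne : T.Nonempty := by
    obtain ⟨z, hz, z', hz', hzz⟩ := h
    refine ⟨(z, z'), ?_⟩
    rw [hT, Finset.mem_filter, Finset.mem_product]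
    exact ⟨⟨hz, hz'⟩, hzz⟩
  obtain ⟨q, hq, hmin⟩ := Finset.exists_min_image T (fun q => ‖g q.1 - g q.2‖) hne
  rw [hT, Finset.mem_filter, Finset.mem_product] at hq
  refine ⟨q.1, hq.1.1, q.2, hq.1.2, hq.2, ?_⟩
  intro y hy y' hy' hyy
  exact hmin (y, y') (by
    rw [hT, Finset.mem_filter, Finset.mem_product]
    exact ⟨⟨hy, hy'⟩, hyy⟩)

theorem strip : StripStmt := by
  intro c₀ hc
  classical
  have hc1 : 0 < 1 / c₀ := by positivity
  refine ⟨200 * (1 + 1 / c₀) ^ 2, by nlinarith, ?_⟩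
  intro g hg S a V W L G w ψ hV hW hL hLa ha hG hSV hSW hψ
  obtain ⟨K, hKdef⟩ : ∃ K : ℝ, K = 200 * (1 + 1 / c₀) ^ 2 := ⟨_, rfl⟩
  rw [← hKdef]
  have hK1 : 200 ≤ K := by rw [hKdef]; nlinarith
  have hKc : 200 * (1 / c₀) ≤ K := by rw [hKdef]; nlinarith
  have hKcc : 200 * (1 / c₀) ^ 2 ≤ K := by rw [hKdef]; nlinarith
  obtain ⟨Sg, hSg⟩ : ∃ s : ℝ, s = ∑ z ∈ (lt g G).filter
    (fun z => z ≠ 0 ∧ |sp a (g z)| ≤ 2 * W + L * ‖g z‖), V / ‖g z‖ := ⟨_, rfl⟩
  rw [← hSg]
  have hSg0 : 0 ≤ Sg := by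
    rw [hSg]
    exact Finset.sum_nonneg (fun z _ => by positivity)
  have hVG : 0 ≤ V / G := by positivity
  have hVW : 0 ≤ V * W / ‖a‖ := by positivity
  by_cases htwo : ∃ z ∈ S, ∃ z' ∈ S, z ≠ z'
  · obtain ⟨z₁, hz₁, z₂, hz₂, hzz, hmin⟩ := exists_min_dist S g htwo
    obtain ⟨δ, hδdef⟩ : ∃ δ : ℝ, δ = ‖g z₁ - g z₂‖ := ⟨_, rfl⟩
    have hδc : c₀ ≤ δ := by rw [hδdef]; exact sep_of hg S z₁ hz₁ z₂ hz₂ hzz
    have hδ : 0 < δ := by linarith
    have hane : a ≠ 0 := norm_pos_iff.1 ha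
    have hun := norm_unit hane
    obtain ⟨u, hu⟩ : ∃ u : ℂ, u = ((‖a‖⁻¹ : ℝ) : ℂ) * a := ⟨_, rfl⟩
    rw [← hu] at hun
    have hdiff : ∀ z ∈ S, ∀ z' ∈ S, |sp a (g z - g z')| ≤ 2 * W + L * ‖g z - g z'‖ := by
      intro z hz z' hz'
      have e1 := hSW z hz
      have e2 := hSW z' hz'
      have e3 := hψ z hz z' hz'
      rw [sp_sub]
      have : sp a (g z) - sp a (g z') = (sp a (g z) + ψ z - w) - (sp a (g z') + ψ z' - w) -
          (ψ z - ψ z') := by ring
      rw [this]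
      refine le_trans (abs_sub _ _) ?_
      have := abs_sub (sp a (g z) + ψ z - w) (sp a (g z') + ψ z' - w)
      linarith
    have hdiff2 : ∀ z ∈ S, ∀ z' ∈ S,
        |sp u (g z - g z')| ≤ 4 * W / ‖a‖ + |wd u (g z - g z')| := by
      intro z hz z' hz'
      have e1 := hdiff z hz z' hz'
      obtain ⟨x, hx⟩ : ∃ x : ℂ, x = g z - g z' := ⟨_, rfl⟩
      rw [← hx] at e1 ⊢
      have e2 : |sp u x| = |sp a x| / ‖a‖ := by
        rw [hu, sp_real, abs_mul, abs_of_pos (inv_pos.2 ha), div_eq_inv_mul]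
      have e3 : |sp u x| ≤ 2 * W / ‖a‖ + ‖x‖ / 2 := by
        rw [e2, div_le_iff₀ ha]
        have : (2 * W / ‖a‖ + ‖x‖ / 2) * ‖a‖ = 2 * W + ‖x‖ * (‖a‖ / 2) := by
          field_simp
        rw [this]
        have hx0 := norm_nonneg x
        nlinarith
      have e4 : ‖x‖ ≤ |sp u x| + |wd u x| := by
        have n1 := sp_sq_add_wd_sq u x
        rw [hun, one_pow, one_mul, ← sq_abs (sp u x), ← sq_abs (wd u x)] at n1
        have h1 := abs_nonneg (sp u x)
        have h2 := abs_nonneg (wd u x)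
        have hx0 := norm_nonneg x
        by_contra h
        rw [not_le] at h
        nlinarith
      have e5 : 4 * W / ‖a‖ = 2 * (2 * W / ‖a‖) := by ring
      rw [e5]
      linarith
    have hm : 0 ≤ 4 * W / ‖a‖ := by positivity
    have hs := strip_sep S (fun z => g z) hδ (by
      intro z hz z' hz' hne
      rw [hδdef]
      exact hmin z hz z' hz' hne) u hun (by linarith) hm hSV hdiff2
    refine le_trans hs ?_
    -- V/δ
    have hVδ : V / δ ≤ V / G + Sg := by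
      rcases le_or_gt δ G with h | h
      · have : V / δ ≤ Sg := by
          rw [hSg]
          have hmem : z₁ - z₂ ∈ (lt g G).filter
              (fun z => z ≠ 0 ∧ |sp a (g z)| ≤ 2 * W + L * ‖g z‖) := by
            rw [Finset.mem_filter, mem_lt hc hg]
            refine ⟨?_, sub_ne_zero.2 hzz, ?_⟩
            · rw [map_sub, ← hδdef]; exact h
            · rw [map_sub]
              exact hdiff z₁ hz₁ z₂ hz₂
          have := Finset.single_le_sum (f := fun z => V / ‖g z‖)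
            (fun z _ => by positivity) hmem
          rw [map_sub, ← hδdef] at this
          exact this
        linarith
      · have : V / δ ≤ V / G := div_le_div_of_nonneg_left (by linarith) (by linarith) h.le
        linarith
    obtain ⟨x, hx⟩ : ∃ x : ℝ, x = V / δ := ⟨_, rfl⟩
    obtain ⟨q, hq⟩ : ∃ q : ℝ, q = W / ‖a‖ := ⟨_, rfl⟩
    have hq0 : 0 ≤ q := by rw [hq]; positivity
    have hx0 : 0 ≤ x := by rw [hx]; positivity
    have hinv : 1 / δ ≤ 1 / c₀ := one_div_le_one_div_of_le hc hδc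
    have hinv0 : 0 < 1 / δ := by positivity
    have f1 : 2 * V / δ = 2 * x := by rw [hx]; ring
    have f2 : 4 * (4 * W / ‖a‖) / δ = 16 * (q * (1 / δ)) := by rw [hq]; ring
    have f3 : V * W / ‖a‖ = V * q := by rw [hq]; ring
    have f4 : x = V * (1 / δ) := by rw [hx]; ring
    rw [f1, f2, f3]
    rw [← hx] at hVδ
    -- (2x+2)(16 q/δ + 6)*6
    have g1 : x * (q * (1 / δ)) ≤ (1 / c₀) ^ 2 * (V * q) := by
      rw [f4]
      have : V * (1 / δ) * (q * (1 / δ)) = (1 / δ) ^ 2 * (V * q) := by ring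
      rw [this]
      exact mul_le_mul_of_nonneg_right (pow_le_pow_left₀ hinv0.le hinv 2)
        (mul_nonneg (by linarith) hq0)
    have g2 : q * (1 / δ) ≤ (1 / c₀) * (V * q) := by
      have : q * (1 / δ) ≤ q * (1 / c₀) := mul_le_mul_of_nonneg_left hinv hq0
      have : q * (1 / c₀) ≤ (1 / c₀) * (V * q) := by
        have : 0 ≤ q * (1 / c₀) := by positivity
        nlinarith
      linarith
    have g3 : 0 ≤ V * q := mul_nonneg (by linarith) hq0
    have k1 : (1 / c₀) ^ 2 * (V * q) * 192 + (1 / c₀) * (V * q) * 192 ≤ 2 * K * (V * q) := by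
      nlinarith
    have k1' : (1 / c₀) ^ 2 * (V * q) * 192 + (1 / c₀) * (V * q) * 192 ≤ K * (V * q) := by
      have : (1 / c₀) ^ 2 * 192 + (1 / c₀) * 192 ≤ K := by rw [hKdef]; nlinarith
      nlinarith
    nlinarith
  · push Not at htwo
    have : S.card ≤ 1 := by
      rw [Finset.card_le_one]
      intro a ha b hb
      exact htwo a ha b hb
    have : (S.card : ℝ) ≤ 1 := by exact_mod_cast this
    nlinarith

end Pool.Agent.Helper38_F5
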