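import Pool.Agent.Helper38_F5.Skel2

/-!
MP_f5cbfa_nt, block N: `DU1` in the case `4 V 2 ≤ V 1` (indices `0` and `1` regular).
-/

set_option autoImplicit false

open MeasureTheory

namespace Pool.Agent.Helper38_F5

open Pool.Agent.BTL Pool.Agent.F5H Pool.Agent.F5H.BN Pool.Agent.Helper68_F5

/-- the sizes force `T` to be positive -/
theorem T_pos {Q T : ℝ} {V : Fin 3 → ℝ} {c : ℕ} (hQ : 2 ≤ Q) (hT : Q ^ c ≤ T ^ (1 / 100000 : ℝ))
    (f : FamV Q T V) : 1 ≤ T := by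
  have h1 : (1 : ℝ) ≤ Q ^ c := one_le_pow₀ (by linarith)
  rcases lt_trichotomy T 0 with h | h | h
  · exfalso
    have h2 : Lx T ≤ 0 := by
      unfold Lx
      rw [Real.rpow_def_of_neg h]
      refine mul_nonpos_of_nonneg_of_nonpos (Real.exp_pos _).le ?_
      have hpi := Real.pi_pos
      exact Real.cos_nonpos_of_pi_div_two_le_of_le (by linarith) (by linarith)
    have h3 := f.h0
    have h4 : Q * Lx T ≤ 0 := mul_nonpos_of_nonneg_of_nonpos (by linarith) h2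
    linarith [f.h2, f.h12, f.h01]
  · exfalso
    rw [h, Real.zero_rpow (by norm_num)] at hT
    linarith
  · by_contra hc
    rw [not_le] at hc
    have := Real.rpow_lt_one h.le hc (by norm_num : (0 : ℝ) < 1 / 100000)
    linarith

theorem bare_ge (T : ℝ) (V : Fin 3 → ℝ) : 1 ≤ bare T V := le_max_left _ _

/-- size of `bare` -/
theorem bare_le {Q T : ℝ} {V : Fin 3 → ℝ} (hQ : 2 ≤ Q) (hT : 1 ≤ T)
    (f : FamV Q T V) : bare T V ≤ Q ^ 6 * T ^ (231 / 500 : ℝ) := by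
  have hT0 : 0 < T := by linarith
  have hQ0 : 0 < Q := by linarith
  have h0 := f.h0
  have h1 := f.h1
  unfold Lx at h0
  have a2 := f.h2
  have a1 := f.h12
  have a0 := f.h01
  unfold bare
  refine max_le ?_ ?_
  · have e1 : (1 : ℝ) ≤ Q ^ 6 := one_le_pow₀ (by linarith)
    have e2 : (1 : ℝ) ≤ T ^ (231 / 500 : ℝ) := Real.one_le_rpow hT (by norm_num)
    nlinarith
  · have h2 : V 0 * V 1 * V 2 / T ≤ Q ^ 3 * T ^ (231 / 1000 : ℝ) := by
      rw [div_le_iff₀ hT0]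
      calc V 0 * V 1 * V 2 ≤ (Q * T ^ (277 / 500 : ℝ)) * (Q * T ^ (677 / 2000 : ℝ)) *
            (Q * T ^ (677 / 2000 : ℝ)) := by
            refine mul_le_mul (mul_le_mul h0 h1 (by linarith) (by positivity)) (by linarith)
              (by linarith) (by positivity)
        _ = Q ^ 3 * (T ^ (277 / 500 : ℝ) * T ^ (677 / 2000 : ℝ) * T ^ (677 / 2000 : ℝ)) := by ring
        _ = Q ^ 3 * T ^ (231 / 1000 + 1 : ℝ) := by
            rw [← Real.rpow_add hT0, ← Real.rpow_add hT0]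
            norm_num
        _ = Q ^ 3 * T ^ (231 / 1000 : ℝ) * T := by
            rw [Real.rpow_add hT0, Real.rpow_one]; ring
    have h3 : 0 ≤ V 0 * V 1 * V 2 / T := by
      have : 0 ≤ V 0 := by linarith
      have : 0 ≤ V 1 := by linarith
      have : 0 ≤ V 2 := by linarith
      positivity
    calc (V 0 * V 1 * V 2 / T) ^ 2 ≤ (Q ^ 3 * T ^ (231 / 1000 : ℝ)) ^ 2 :=
          pow_le_pow_left₀ h3 h2 2
      _ = Q ^ 6 * (T ^ (231 / 1000 : ℝ) * T ^ (231 / 1000 : ℝ)) := by ring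
      _ = Q ^ 6 * T ^ (231 / 500 : ℝ) := by
          rw [← Real.rpow_add hT0]
          norm_num

/-- the parameters in the situation of `DU1` -/
theorem par_of {Q T R₁ : ℝ} {V : Fin 3 → ℝ} {c : ℕ} (hQ : 2 ≤ Q) (hlog : Real.log T ≤ Q)
    (hc : 1000 ≤ c) (hT : Q ^ c ≤ T ^ (1 / 100000 : ℝ)) (f : FamV Q T V)
    (h1 : R₁ ≤ Q * bare T V) (h2 : bare T V ≤ Q * R₁) : Par Q T R₁ V := by
  have hT1 := T_pos hQ hT f
  have hT0 : 0 < T := by linarith
  have hQ0 : 0 < Q := by linarith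
  have hT' : Q ^ 1000 ≤ T ^ (1 / 100000 : ℝ) := le_trans (pow_le_pow_right₀ (by linarith) hc) hT
  have g0 := f.h0
  unfold Lx at g0
  refine ⟨hQ, hlog, hT', ?_, ?_, ?_, ?_⟩
  · intro l
    fin_cases l
    · exact g0
    · exact le_trans f.h01 g0
    · exact le_trans f.h12 (le_trans f.h01 g0)
  · intro l
    fin_cases l
    · exact le_trans f.h2 (le_trans f.h12 f.h01)
    · exact le_trans f.h2 f.h12
    · exact f.h2
  · have b := bare_le hQ hT1 f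
    have q7 : Q ^ 7 ≤ T ^ (1 / 100000 : ℝ) :=
      le_trans (pow_le_pow_right₀ (by linarith) (by norm_num)) hT'
    calc R₁ ≤ Q * bare T V := h1
      _ ≤ Q * (Q ^ 6 * T ^ (231 / 500 : ℝ)) := mul_le_mul_of_nonneg_left b hQ0.le
      _ = Q ^ 7 * T ^ (231 / 500 : ℝ) := by ring
      _ ≤ T ^ (1 / 100000 : ℝ) * T ^ (231 / 500 : ℝ) :=
          mul_le_mul_of_nonneg_right q7 (by positivity)
      _ = T ^ (1 / 100000 + 231 / 500 : ℝ) := by rw [Real.rpow_add hT0]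
      _ ≤ T ^ (49 / 100 : ℝ) := Real.rpow_le_rpow_of_exponent_le hT1 (by norm_num)
  · linarith [bare_ge T V]

/-- the volume of a pair in case A, small and large `v` -/
theorem vlm_A {Q T R₁ : ℝ} {V : Fin 3 → ℝ} {g : ℤ × ℤ →+ ℂ} {p : T3 × T3} (a : Par Q T R₁ V)
    (hT : 1 ≤ T) (h12 : V 2 ≤ V 1) (h01 : V 1 ≤ V 0) (h4 : 4 * V 2 ≤ V 1) (hf : FamC g V p.2) :
    vlm Q T R₁ g p ≤ ENNReal.ofReal (2 ^ 16 * Q ^ 5 / T ^ 2) ∧
    ∀ R : ℝ, 20000 * Q ^ 9 ≤ R → R ≤ ‖g p.1.1‖ →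
      vlm Q T R₁ g p ≤ ENNReal.ofReal (2 ^ 15 * Q ^ 6 / (T ^ 2 * R)) := by
  have hT0 : 0 < T := by linarith
  have hQ := a.hQ
  have hQ0 : 0 < Q := by linarith
  have v0 : 0 < V 0 := by linarith [a.hV1 0]
  have v1 : 0 < V 1 := by linarith [a.hV1 1]
  have v2 := a.hV1 2
  obtain ⟨s, hs⟩ : ∃ s : Fin 3 → ℝ, s = fun l => T ^ 2 - ‖g3 g p.2 l‖ ^ 2 / 4 := ⟨_, rfl⟩
  have key : ∀ m, NRC Q T R₁ g p.2 p.1 m → (|‖m.1‖ ^ 2 - s 0| ≤ Q ∧
      |sp m.1 (g p.2.1) - sp m.2.2 (g p.2.2.2)| ≤ Q * V 0 ∧ T * V 0 / 4 ≤ |wd m.1 (g p.2.1)|) ∧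
      (|‖m.2.1‖ ^ 2 - s 1| ≤ Q ∧
      |sp m.2.1 (g p.2.2.1) - sp m.2.2 (g p.2.2.2)| ≤ Q * V 1 ∧
      T * V 1 / 4 ≤ |wd m.2.1 (g p.2.2.1)|) ∧ |‖m.2.2‖ ^ 2 - s 2| ≤ Q := by
    intro m n
    have an : ∀ l, |‖c3 m l‖ ^ 2 - s l| ≤ Q := by
      intro l
      have := n.an l
      rw [hs]
      have e : ‖c3 m l‖ ^ 2 - (T ^ 2 - ‖g3 g p.2 l‖ ^ 2 / 4) =
        ‖c3 m l‖ ^ 2 + ‖g3 g p.2 l‖ ^ 2 / 4 - T ^ 2 := by ring
      rw [e]
      exact this
    have f0 := (hf 0).2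
    have f1 := (hf 1).2
    have f2 := (hf 2).2
    refine ⟨⟨an 0, ?_, wd_big a hT hf n (i := 0) (k := 2) (by linarith)⟩,
      ⟨an 1, ?_, wd_big a hT hf n h4⟩, an 2⟩
    · refine le_trans (n.tb 0 2) (mul_le_mul_of_nonneg_left ?_ hQ0.le)
      exact max_le f0 (by linarith)
    · refine le_trans (n.tb 1 2) (mul_le_mul_of_nonneg_left ?_ hQ0.le)
      exact max_le f1 (by linarith)
  constructor
  · obtain ⟨t1, t2, -, -⟩ := vol_third (s := s 2) (P := Q) (b := 1) (c := 1) (w := 1) hQ0.le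
      zero_le_one one_pos
    have hv := volA (H₀ := g p.2.1) (H₁ := g p.2.2.1) (H₂ := g p.2.2.2) (s₀ := s 0) (s₁ := s 1)
      (P := Q) (w₀ := Q * V 0) (w₁ := Q * V 1) (n₀ := T * V 0 / 4) (n₁ := T * V 1 / 4) t1 t2 hQ0.le
      (by positivity) (by positivity) (by positivity) (by positivity)
    refine le_trans (measure_mono fun m hm => ?_) (le_trans hv ?_)
    · obtain ⟨k1, k2, k3⟩ := key m hm
      exact ⟨k1, k2, k3⟩
    · rw [← ENNReal.ofReal_mul (by positivity), ← ENNReal.ofReal_mul (by positivity)]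
      refine ENNReal.ofReal_le_ofReal (le_of_eq ?_)
      field_simp
      ring
  · intro R hR hlo
    have hR0 : 0 < R := by
      have : 0 < Q ^ 9 := by positivity
      linarith
    obtain ⟨-, -, t1, t2⟩ := vol_third (s := s 2) (P := Q) (b := 2 * Q * T) (c := T * R / 2)
      (w := g p.1.2.2) hQ0.le (by positivity) (by positivity)
    have hv := volA (H₀ := g p.2.1) (H₁ := g p.2.2.1) (H₂ := g p.2.2.2) (s₀ := s 0) (s₁ := s 1)
      (P := Q) (w₀ := Q * V 0) (w₁ := Q * V 1) (n₀ := T * V 0 / 4) (n₁ := T * V 1 / 4) t1 t2 hQ0.le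
      (by positivity) (by positivity) (by positivity) (by positivity)
    refine le_trans (measure_mono fun m hm => ?_) (le_trans hv ?_)
    · obtain ⟨k1, k2, k3⟩ := key m hm
      obtain ⟨q1, q2⟩ := m_v a hT hf hm (le_trans hR hlo) 2
      refine ⟨k1, k2, k3, q1, le_trans ?_ q2⟩
      have := mul_le_mul_of_nonneg_left hlo hT0.le
      linarith
    · rw [← ENNReal.ofReal_mul (by positivity), ← ENNReal.ofReal_mul (by positivity)]
      refine ENNReal.ofReal_le_ofReal (le_of_eq ?_)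
      field_simp
      ring

/-- sum of volumes from the number of pairs -/
theorem sum_vlm {Q T R₁ : ℝ} {g : ℤ × ℤ →+ ℂ} {𝓟 : Finset (T3 × T3)} {A B : ℝ} (hA : 0 ≤ A)
    (h1 : (𝓟.card : ℝ) ≤ A) (h2 : ∀ p ∈ 𝓟, vlm Q T R₁ g p ≤ ENNReal.ofReal B) :
    ∑ p ∈ 𝓟, vlm Q T R₁ g p ≤ ENNReal.ofReal (A * B) := by
  refine le_trans (Finset.sum_le_sum h2) ?_
  rw [Finset.sum_const, nsmul_eq_mul, ENNReal.ofReal_mul hA]
  refine mul_le_mul_left ?_ _
  rw [← ENNReal.ofReal_natCast]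
  exact ENNReal.ofReal_le_ofReal h1

/-- **`DU1` in case A** -/
theorem duA : ∃ c : ℕ, ∀ T Q : ℝ, 2 ≤ Q → Real.log T ≤ Q →
    Q ^ c ≤ T ^ (1 / 100000 : ℝ) → ∀ (g : ℤ × ℤ →+ ℂ) (V : Fin 3 → ℝ) (R₁ : ℝ),
    Sep 1 g → H9.JG Q g → FamV Q T V → 4 * V 2 ≤ V 1 →
    R₁ ≤ Q * bare T V → bare T V ≤ Q * R₁ → SC Q T R₁ g V ≤ ENNReal.ofReal (Q ^ c * R₁) := by
  classical
  obtain ⟨K, hK, hcnt⟩ := H9.pairCJ 1 one_pos
  obtain ⟨K', hK', hcnt'⟩ := tri_count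
  obtain ⟨κ, hκ⟩ := pow_unbounded_of_one_lt (K + K' ^ 2) (by norm_num : (1 : ℝ) < 2)
  refine ⟨κ + 1000, ?_⟩
  intro T Q hQ hlog hTQ g V R₁ hg hJ f h4 hR1 hR2
  have a := par_of hQ hlog (by omega) hTQ f hR1 hR2
  have hT : 1 ≤ T := T_pos hQ hTQ f
  have hT0 : 0 < T := by linarith
  have hQ0 : 0 < Q := by linarith
  have hQ1 : 1 ≤ Q := by linarith
  have hb := bare_ge T V
  have hR₁0 : 0 ≤ R₁ := by
    by_contra hcon
    rw [not_le] at hcon
    have := mul_neg_of_pos_of_neg hQ0 hcon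
    linarith
  have a2 := f.h2
  have a1 := f.h12
  have a0 := f.h01
  have hR₁T : Q ^ 3 * R₁ ≤ T := by
    have q3 : Q ^ 3 ≤ T ^ (1 / 100000 : ℝ) := a.pow_le (by norm_num)
    calc Q ^ 3 * R₁ ≤ T ^ (1 / 100000 : ℝ) * T ^ (49 / 100 : ℝ) :=
          mul_le_mul q3 a.hR hR₁0 (by positivity)
      _ = T ^ (1 / 100000 + 49 / 100 : ℝ) := by rw [Real.rpow_add hT0]
      _ ≤ T ^ (1 : ℝ) := Real.rpow_le_rpow_of_exponent_le hT (by norm_num)
      _ = T := Real.rpow_one T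
  have hκQ : K + K' ^ 2 ≤ Q ^ κ :=
    le_trans hκ.le (pow_le_pow_left₀ (by norm_num) hQ κ)
  have hKQ : K ≤ Q ^ κ := by nlinarith
  have hK'Q : K' ^ 2 ≤ Q ^ κ := by linarith
  have hQ9 : (1 : ℝ) ≤ Q ^ 9 := one_le_pow₀ hQ1
  refine sc_fin fun 𝓟 h𝓟 => ?_
  -- pieces
  have hpiece : ∀ R : ℝ, 20000 * Q ^ 9 ≤ R → R ≤ T →
      ∑ p ∈ 𝓟.filter (fun p => R ≤ ‖g p.1.1‖ ∧ ‖g p.1.1‖ ≤ 2 * R), vlm Q T R₁ g p ≤
        ENNReal.ofReal (Q ^ (κ + 138) * R₁) := by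
    intro R hRm hRT
    have hR0 : 0 < R := by linarith
    obtain ⟨𝓠, h𝓠⟩ : ∃ 𝓠, 𝓠 = 𝓟.filter (fun p => R ≤ ‖g p.1.1‖ ∧ ‖g p.1.1‖ ≤ 2 * R) := ⟨_, rfl⟩
    rw [← h𝓠]
    have hmem : ∀ p ∈ 𝓠, p ∈ 𝓟 ∧ R ≤ ‖g p.1.1‖ ∧ ‖g p.1.1‖ ≤ 2 * R := by
      intro p hp; rw [h𝓠, Finset.mem_filter] at hp; exact hp
    rcases 𝓠.eq_empty_or_nonempty with he | ⟨p₀, hp₀⟩
    · rw [he, Finset.sum_empty]; exact bot_le
    have hRR : R ≤ Q ^ 4 * bare T V := by
      obtain ⟨h1, h2, -⟩ := hmem p₀ hp₀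
      obtain ⟨hf, m, hm⟩ := h𝓟 p₀ h1
      have h5 : ‖g p₀.1.1‖ ≤ Q ^ 3 * R₁ := v_len a hT hf hm 0
      calc R ≤ Q ^ 3 * R₁ := by linarith
        _ ≤ Q ^ 3 * (Q * bare T V) := mul_le_mul_of_nonneg_left hR1 (by positivity)
        _ = _ := by ring
    have hP1 : (1 : ℝ) ≤ Q ^ 3 := one_le_pow₀ hQ1
    have card := hcnt Q hQ1 g hg hJ (Q ^ 3) R (T ^ 2) (V 0) (V 1) (V 2) (Q * (1 + V 0 / R))
      (Q * (1 + V 1 / R)) (12 * (R * V 2)) hP1 (by
        have e : (Q ^ 3) ^ 3 = Q ^ 9 := by ring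
        rw [e]; exact hRm) (by positivity) (by linarith) a0 (by linarith) a1
      (by have : 0 ≤ V 0 / R := div_nonneg (by linarith) hR0.le
          positivity)
      (by have : 0 ≤ V 1 / R := div_nonneg (by linarith) hR0.le
          positivity)
      (by have : 0 ≤ V 2 := by linarith
          positivity) 𝓠 (by
        intro p hp
        obtain ⟨h1, h2, h3⟩ := hmem p hp
        obtain ⟨hf, m, hm⟩ := h𝓟 p h1
        exact pair_of a hT a1 a0 hf hm hRm h2 h3)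
    have hP3 : Q ^ 1 ≤ Q ^ 6 := pow_le_pow_right₀ hQ1 (by norm_num)
    have h64 : (12 : ℝ) ≤ Q ^ 6 := by
      have : (2 : ℝ) ^ 6 ≤ Q ^ 6 := pow_le_pow_left₀ (by norm_num) hQ 6
      linarith
    have arith := nc_le (T := T) (P := Q ^ 3) (Q := Q ^ 4) (R := R) (R₁ := bare T V) (V₁ := V 0)
      (V₂ := V 1) (V₃ := V 2) (ω₁ := Q * (1 + V 0 / R)) (ω₂ := Q * (1 + V 1 / R))
      (ω₃ := 12 * (R * V 2)) (lam := 0) (k := 2) hT hP1 (one_le_pow₀ hQ1) (by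
        have e : (Q ^ 4) ^ 2000 = (Q ^ 1000) ^ 8 := by rw [← pow_mul, ← pow_mul]
        rw [e]
        calc (Q ^ 1000) ^ 8 ≤ (T ^ (1 / 100000 : ℝ)) ^ 8 := pow_le_pow_left₀ (by positivity) a.hT 8
          _ = T ^ (8 / 100000 : ℝ) := by
              rw [← Real.rpow_natCast (T ^ (1 / 100000 : ℝ)) 8, ← Real.rpow_mul hT0.le]
              norm_num
          _ ≤ T ^ (1 : ℝ) := Real.rpow_le_rpow_of_exponent_le hT (by norm_num)
          _ = T := Real.rpow_one T) (by linarith) (by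
        have h1 := Real.log_le_log hR0 hRT
        have h2 : Q + 1 ≤ Q ^ 3 := by nlinarith [sq_nonneg Q]
        linarith) a2 a1 a0 (by
        have h1 := f.h0
        unfold Lx at h1
        refine le_trans h1 (mul_le_mul_of_nonneg_right ?_ (by positivity))
        calc Q = Q ^ 1 := (pow_one Q).symm
          _ ≤ Q ^ 4 := pow_le_pow_right₀ hQ1 (by norm_num)) (by
        refine le_trans f.h1 (mul_le_mul_of_nonneg_right ?_ (by positivity))
        calc Q = Q ^ 1 := (pow_one Q).symm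
          _ ≤ Q ^ 4 := pow_le_pow_right₀ hQ1 (by norm_num)) rfl hRR
      (by have : 0 ≤ V 0 / R := div_nonneg (by linarith) hR0.le
          positivity)
      (by have : 0 ≤ V 1 / R := div_nonneg (by linarith) hR0.le
          positivity)
      (by have : 0 ≤ V 2 := by linarith
          positivity)
      (by
        have : 0 ≤ V 0 / R := div_nonneg (by linarith) hR0.le
        refine mul_le_mul_of_nonneg_right ?_ (by positivity)
        calc Q = Q ^ 1 := (pow_one Q).symm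
          _ ≤ Q ^ 6 := hP3
          _ = (Q ^ 3) ^ 2 := by ring)
      (by
        have : 0 ≤ V 1 / R := div_nonneg (by linarith) hR0.le
        refine mul_le_mul_of_nonneg_right ?_ (by positivity)
        calc Q = Q ^ 1 := (pow_one Q).symm
          _ ≤ Q ^ 6 := hP3
          _ = (Q ^ 3) ^ 2 := by ring)
      (by
        have hv : 0 ≤ R * V 2 := mul_nonneg hR0.le (by linarith)
        have e : (Q ^ 3) ^ 2 = Q ^ 6 := by ring
        rw [e]
        nlinarith)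
      (Or.inl rfl)
    rw [Real.rpow_zero, one_mul] at arith
    obtain ⟨N, hN⟩ : ∃ N, N = H9.NC (Q ^ 3) R (T ^ 2) (V 0) (V 1) (V 2) (Q * (1 + V 0 / R))
      (Q * (1 + V 1 / R)) (12 * (R * V 2)) := ⟨_, rfl⟩
    rw [← hN] at card arith
    have hN0 : 0 ≤ N := by
      by_contra hcon
      rw [not_le] at hcon
      have h1 : 0 < K * Q * (Q ^ 3) ^ 8 := by positivity
      have h2 := mul_neg_of_pos_of_neg h1 hcon
      have h3 : (0 : ℝ) ≤ (𝓠.card : ℝ) := Nat.cast_nonneg _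
      linarith
    refine le_trans (sum_vlm (B := 2 ^ 15 * Q ^ 6 / (T ^ 2 * R)) (by positivity) card ?_) ?_
    · intro p hp
      obtain ⟨h1, h2, h3⟩ := hmem p hp
      exact (vlm_A a hT a1 a0 h4 (h𝓟 p h1).1).2 R hRm h2
    · apply ENNReal.ofReal_le_ofReal
      calc K * Q * (Q ^ 3) ^ 8 * N * (2 ^ 15 * Q ^ 6 / (T ^ 2 * R))
          = K * (2 ^ 15 * Q ^ 31) * (N / (T ^ 2 * R)) := by ring
        _ ≤ Q ^ κ * (2 ^ 15 * Q ^ 31) * (16 * 1539 ^ 3 * (Q ^ 3) ^ (3 * 2 + 8) * (Q ^ 4) ^ 3 *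
            bare T V) := by
            refine mul_le_mul (mul_le_mul_of_nonneg_right hKQ (by positivity)) arith
              (by positivity) (by positivity)
        _ = (2 ^ 19 * 1539 ^ 3) * (Q ^ κ * Q ^ 85) * bare T V := by ring
        _ ≤ Q ^ 52 * (Q ^ κ * Q ^ 85) * (Q * R₁) := by
            refine mul_le_mul (mul_le_mul_of_nonneg_right ?_ (by positivity)) hR2
              (by linarith) (by positivity)
            have h1 : (2 : ℝ) ^ 52 ≤ Q ^ 52 := pow_le_pow_left₀ (by norm_num) hQ 52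
            have h2 : (2 : ℝ) ^ 19 * 1539 ^ 3 ≤ 2 ^ 52 := by norm_num
            linarith
        _ = Q ^ (κ + 138) * R₁ := by ring
  -- small vectors
  have hsmall : ∑ p ∈ 𝓟.filter (fun p => ‖g p.1.1‖ < 20000 * Q ^ 9), vlm Q T R₁ g p ≤
      ENNReal.ofReal (Q ^ (κ + 168) * R₁) := by
    obtain ⟨𝓠, h𝓠⟩ : ∃ 𝓠, 𝓠 = 𝓟.filter (fun p => ‖g p.1.1‖ < 20000 * Q ^ 9) := ⟨_, rfl⟩
    rw [← h𝓠]
    have hmem : ∀ p ∈ 𝓠, p ∈ 𝓟 ∧ ‖g p.1.1‖ < 20000 * Q ^ 9 := by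
      intro p hp; rw [h𝓠, Finset.mem_filter] at hp; exact hp
    have c1 := hcnt' g hg (fun _ => 40000 * Q ^ 9) (fun _ => by linarith)
      (𝓠.image (fun p => p.1)) (by
        intro v hv l
        rw [Finset.mem_image] at hv
        obtain ⟨p, hp, rfl⟩ := hv
        obtain ⟨h1, h2⟩ := hmem p hp
        obtain ⟨hf, m, hm⟩ := h𝓟 p h1
        have h3 := (abs_le.1 (v_eq a hT hf hm l 0)).2
        have h5 : g3 g p.1 0 = g p.1.1 := rfl
        rw [h5] at h3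
        have h6 : Q ^ 3 ≤ Q ^ 9 := pow_le_pow_right₀ hQ1 (by norm_num)
        linarith)
    have c2 := hcnt' g hg V a.hV1 (𝓠.image (fun p => p.2)) (by
        intro h hh l
        rw [Finset.mem_image] at hh
        obtain ⟨p, hp, rfl⟩ := hh
        exact ((h𝓟 p (hmem p hp).1).1 l).2)
    have card := card_pairs 𝓠 (by positivity) c1 c2
    refine le_trans (sum_vlm (B := 2 ^ 16 * Q ^ 5 / T ^ 2) (by positivity) card ?_) ?_
    · intro p hp
      exact (vlm_A a hT a1 a0 h4 (h𝓟 p (hmem p hp).1).1).1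
    · apply ENNReal.ofReal_le_ofReal
      have hbare : (V 0 * V 1 * V 2 / T) ^ 2 ≤ bare T V := le_max_right _ _
      calc K' * (40000 * Q ^ 9 * (40000 * Q ^ 9) * (40000 * Q ^ 9)) ^ 2 *
            (K' * (V 0 * V 1 * V 2) ^ 2) * (2 ^ 16 * Q ^ 5 / T ^ 2)
          = K' ^ 2 * ((40000 ^ 6 * 2 ^ 16) * Q ^ 59) * (V 0 * V 1 * V 2 / T) ^ 2 := by ring
        _ ≤ Q ^ κ * (Q ^ 108 * Q ^ 59) * (Q * R₁) := by
            refine mul_le_mul (mul_le_mul hK'Q (mul_le_mul_of_nonneg_right ?_ (by positivity))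
              (by positivity) (by positivity)) (le_trans hbare hR2) (by positivity) (by positivity)
            have h1 : (2 : ℝ) ^ 108 ≤ Q ^ 108 := pow_le_pow_left₀ (by norm_num) hQ 108
            have h2 : (40000 : ℝ) ^ 6 * 2 ^ 16 ≤ 2 ^ 108 := by norm_num
            linarith
        _ = Q ^ (κ + 168) * R₁ := by ring
  have main := dyad (Rm := 20000 * Q ^ 9) hQ hT hlog (by linarith) (vlm Q T R₁ g) 𝓟 (by
    intro p hp
    obtain ⟨hf, m, hm⟩ := h𝓟 p hp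
    have h5 : ‖g p.1.1‖ ≤ Q ^ 3 * R₁ := v_len a hT hf hm 0
    linarith) hsmall hpiece
  refine le_trans main ?_
  rw [← ENNReal.ofReal_mul (by positivity), ← ENNReal.ofReal_add (by positivity) (by positivity)]
  apply ENNReal.ofReal_le_ofReal
  have e1 : 3 * Q ≤ Q ^ 3 := by nlinarith [sq_nonneg Q]
  calc Q ^ (κ + 168) * R₁ + 3 * Q * (Q ^ (κ + 138) * R₁)
      ≤ Q ^ (κ + 168) * R₁ + Q ^ 3 * (Q ^ (κ + 138) * R₁) := by
        have := mul_le_mul_of_nonneg_right e1 (by positivity : 0 ≤ Q ^ (κ + 138) * R₁)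
        linarith
    _ = Q ^ (κ + 168) * R₁ + Q ^ (κ + 141) * R₁ := by ring
    _ ≤ Q ^ (κ + 168) * R₁ + Q ^ (κ + 168) * R₁ := by
        have : Q ^ (κ + 141) ≤ Q ^ (κ + 168) := pow_le_pow_right₀ hQ1 (by omega)
        have := mul_le_mul_of_nonneg_right this hR₁0
        linarith
    _ ≤ Q ^ (κ + 169) * R₁ := by
        have : 2 * Q ^ (κ + 168) ≤ Q ^ (κ + 169) := by
          rw [pow_succ Q (κ + 168)]
          have : 0 ≤ Q ^ (κ + 168) := by positivity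
          nlinarith
        have := mul_le_mul_of_nonneg_right this hR₁0
        linarith
    _ ≤ Q ^ (κ + 1000) * R₁ :=
        mul_le_mul_of_nonneg_right (pow_le_pow_right₀ hQ1 (by omega)) hR₁0

end Pool.Agent.Helper38_F5
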