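import Pool.Agent.Helper68_F5.Circ

/-!
MP_f5cbfa_nt, measure step for a regular index: the angles at which the component of `H` along
`ee θ` is in a short interval while the transversal component is at least `ν`.
-/

set_option autoImplicit false

open MeasureTheory

namespace Pool.Agent.Helper38_F5

open Pool.Agent.Helper68_F5

theorem sin_mid {x y s : ℝ} (hx : 0 ≤ x) (hx' : x ≤ Real.pi) (hy : 0 ≤ y) (hy' : y ≤ Real.pi)
    (h1 : s ≤ Real.sin x) (h2 : s ≤ Real.sin y) : s ≤ Real.sin ((x + y) / 2) := by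
  have hmx : x ∈ Set.Icc 0 Real.pi := ⟨hx, hx'⟩
  have hmy : y ∈ Set.Icc 0 Real.pi := ⟨hy, hy'⟩
  have hc := (strictConcaveOn_sin_Icc.concaveOn).2 hmx hmy
    (show (0 : ℝ) ≤ 1 / 2 by norm_num) (show (0 : ℝ) ≤ 1 / 2 by norm_num)
    (show (1 : ℝ) / 2 + 1 / 2 = 1 by norm_num)
  simp only [smul_eq_mul] at hc
  have e : (1 : ℝ) / 2 * x + 1 / 2 * y = (x + y) / 2 := by ring
  rw [e] at hc
  linarith

/-- two angles of the same half period -/
theorem half_dist {x y s d : ℝ} (hs : 0 < s) (hx : 0 ≤ x) (hx' : x ≤ Real.pi) (hy : 0 ≤ y)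
    (hy' : y ≤ Real.pi) (h1 : s ≤ Real.sin x) (h2 : s ≤ Real.sin y)
    (hd : |Real.cos x - Real.cos y| ≤ d) : |x - y| ≤ 2 * d / s := by
  have hpi := Real.pi_pos
  have hm := sin_mid hx hx' hy hy' h1 h2
  have hsub := Real.cos_sub_cos x y
  have h3 : 2 / Real.pi * |(x - y) / 2| ≤ |Real.sin ((x - y) / 2)| := by
    apply abs_le_sin
    rw [abs_le]
    constructor <;> linarith
  rw [hsub, abs_mul, abs_mul, abs_neg, abs_two] at hd
  have h4 : s ≤ |Real.sin ((x + y) / 2)| := le_trans hm (le_abs_self _)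
  have h5 : |(x - y) / 2| = |x - y| / 2 := by rw [abs_div, abs_two]
  rw [h5] at h3
  have hpi4 := Real.pi_lt_four
  have h6 : |x - y| / 4 ≤ |Real.sin ((x - y) / 2)| := by
    refine le_trans ?_ h3
    have h7 : 2 / Real.pi * (|x - y| / 2) = |x - y| / Real.pi := by field_simp
    rw [h7]
    exact div_le_div_of_nonneg_left (abs_nonneg _) hpi hpi4.le
  have h8 : 2 * s * (|x - y| / 4) ≤ d := by
    refine le_trans ?_ hd
    have : 2 * s ≤ 2 * |Real.sin ((x + y) / 2)| := by linarith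
    exact mul_le_mul this h6 (by positivity) (by positivity)
  rw [le_div_iff₀ hs]
  linarith

/-- a set of small diameter has small measure -/
theorem vol_diam {E : Set ℝ} {D : ℝ} (hE : ∀ x ∈ E, ∀ y ∈ E, |x - y| ≤ D) :
    volume E ≤ ENNReal.ofReal (2 * D) := by
  rcases E.eq_empty_or_nonempty with h | ⟨y, hy⟩
  · rw [h, measure_empty]; exact bot_le
  · have hsub : E ⊆ Set.Icc (y - D) (y + D) := by
      intro x hx
      have := abs_le.1 (hE x hx y hy)
      constructor <;> linarith [this.1, this.2]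
    refine le_trans (measure_mono hsub) ?_
    rw [Real.volume_Icc]
    apply ENNReal.ofReal_le_ofReal
    linarith

theorem wd_ee {w : ℂ} {φ : ℝ} (h : ∀ θ : ℝ, sp (ee θ) w = ‖w‖ * Real.cos (θ - φ)) (θ : ℝ) :
    |wd (ee θ) w| = ‖w‖ * |Real.sin (θ - φ)| := by
  have h1 := sp_sq_add_wd_sq (ee θ) w
  rw [norm_ee, one_pow, one_mul, h θ] at h1
  have h2 := Real.sin_sq_add_cos_sq (θ - φ)
  have h3 : wd (ee θ) w ^ 2 = (‖w‖ * Real.sin (θ - φ)) ^ 2 := by nlinarith
  have h4 := (sq_eq_sq_iff_abs_eq_abs _ _).1 h3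
  rw [h4, abs_mul, abs_of_nonneg (norm_nonneg w)]

theorem abs_sin_shift (X : ℝ) (k : ℤ) : |Real.sin (X + k * Real.pi)| = |Real.sin X| := by
  rw [Real.sin_add_int_mul_pi, abs_mul, abs_zpow, abs_neg, abs_one, one_zpow, one_mul]

theorem abs_cos_shift (X Y : ℝ) (k : ℤ) :
    |Real.cos (X + k * Real.pi) - Real.cos (Y + k * Real.pi)| = |Real.cos X - Real.cos Y| := by
  rw [Real.cos_add_int_mul_pi, Real.cos_add_int_mul_pi, ← mul_sub, abs_mul, abs_zpow, abs_neg,
    abs_one, one_zpow, one_mul]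

/-- regular index -/
theorem arc {w : ℂ} {α : ℝ} (a : ℝ) {δ ν : ℝ} (hδ : 0 ≤ δ) (hν : 0 < ν) :
    volume {θ : ℝ | θ ∈ Set.Icc α (α + 2 * Real.pi) ∧ |sp (ee θ) w - a| ≤ δ ∧
      ν ≤ |wd (ee θ) w|} ≤ ENNReal.ofReal (40 * (δ / ν)) := by
  have hpi := Real.pi_pos
  have hx0 : 0 ≤ δ / ν := by positivity
  obtain ⟨φ, hφ1, hφ2, hφ⟩ := sp_ee w
  rcases eq_or_ne w 0 with hw | hw
  · have he : {θ : ℝ | θ ∈ Set.Icc α (α + 2 * Real.pi) ∧ |sp (ee θ) w - a| ≤ δ ∧
        ν ≤ |wd (ee θ) w|} = ∅ := by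
      ext θ
      simp only [Set.mem_ofPred_eq, Set.mem_empty_iff_false, iff_false, not_and, not_le]
      intro _ _
      rw [hw]
      simpa [wd] using hν
    rw [he, measure_empty]
    exact bot_le
  have hn : 0 < ‖w‖ := norm_pos_iff.2 hw
  obtain ⟨m, hm⟩ : ∃ m : ℤ, m = ⌊(α - φ) / Real.pi⌋ := ⟨_, rfl⟩
  have hm1 : (m : ℝ) * Real.pi ≤ α - φ := by
    have := Int.floor_le ((α - φ) / Real.pi)
    rw [← hm, le_div_iff₀ hpi] at this
    exact this
  have hm2 : α - φ < ((m : ℝ) + 1) * Real.pi := by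
    have := Int.lt_floor_add_one ((α - φ) / Real.pi)
    rw [← hm, div_lt_iff₀ hpi] at this
    exact this
  obtain ⟨E, hE⟩ : ∃ E : ℤ → Set ℝ, E = fun k : ℤ => {θ : ℝ | (k : ℝ) * Real.pi ≤ θ - φ ∧
    θ - φ ≤ (k + 1) * Real.pi ∧ |sp (ee θ) w - a| ≤ δ ∧ ν ≤ |wd (ee θ) w|} := ⟨_, rfl⟩
  have hsub : {θ : ℝ | θ ∈ Set.Icc α (α + 2 * Real.pi) ∧ |sp (ee θ) w - a| ≤ δ ∧
      ν ≤ |wd (ee θ) w|} ⊆ ⋃ k ∈ Finset.Icc m (m + 3), E k := by
    rintro θ ⟨⟨h1, h2⟩, h3, h4⟩
    rw [Set.mem_iUnion₂]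
    obtain ⟨k, hk⟩ : ∃ k : ℤ, k = ⌊(θ - φ) / Real.pi⌋ := ⟨_, rfl⟩
    have hk1 : (k : ℝ) * Real.pi ≤ θ - φ := by
      have := Int.floor_le ((θ - φ) / Real.pi)
      rw [← hk, le_div_iff₀ hpi] at this
      exact this
    have hk2 : θ - φ < ((k : ℝ) + 1) * Real.pi := by
      have := Int.lt_floor_add_one ((θ - φ) / Real.pi)
      rw [← hk, div_lt_iff₀ hpi] at this
      exact this
    refine ⟨k, ?_, ?_⟩
    · rw [Finset.mem_Icc]
      constructor
      · rw [hm, hk]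
        exact Int.floor_le_floor (div_le_div_of_nonneg_right (by linarith) hpi.le)
      · have h5 : (k : ℝ) * Real.pi < (((m + 3 : ℤ) : ℝ) + 1) * Real.pi := by
          push_cast
          nlinarith
        have h6 : (k : ℝ) < ((m + 3 : ℤ) : ℝ) + 1 := lt_of_mul_lt_mul_right h5 hpi.le
        have h7 : k < m + 3 + 1 := by exact_mod_cast h6
        omega
    · rw [hE]
      exact ⟨hk1, hk2.le, h3, h4⟩
  refine le_trans (measure_mono hsub) (le_trans (measure_biUnion_finset_le _ _) ?_)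
  have hv : ∀ k ∈ Finset.Icc m (m + 3), volume (E k) ≤ ENNReal.ofReal (8 * (δ / ν)) := by
    intro k _
    refine le_trans (vol_diam (D := 4 * (δ / ν)) ?_) (by
      apply ENNReal.ofReal_le_ofReal; linarith)
    intro x hx y hy
    rw [hE] at hx hy
    obtain ⟨hx1, hx2, hx3, hx4⟩ := hx
    obtain ⟨hy1, hy2, hy3, hy4⟩ := hy
    rw [wd_ee hφ] at hx4 hy4
    rw [hφ] at hx3 hy3
    obtain ⟨X, hX⟩ : ∃ X : ℝ, X = x - φ - k * Real.pi := ⟨_, rfl⟩
    obtain ⟨Y, hY⟩ : ∃ Y : ℝ, Y = y - φ - k * Real.pi := ⟨_, rfl⟩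
    have ex : x - φ = X + k * Real.pi := by rw [hX]; ring
    have ey : y - φ = Y + k * Real.pi := by rw [hY]; ring
    have eXY : X - Y = x - y := by rw [hX, hY]; ring
    rw [ex] at hx1 hx2 hx3 hx4
    rw [ey] at hy1 hy2 hy3 hy4
    have hX0 : 0 ≤ X := by linarith
    have hX1 : X ≤ Real.pi := by linarith
    have hY0 : 0 ≤ Y := by linarith
    have hY1 : Y ≤ Real.pi := by linarith
    have hsx : ν / ‖w‖ ≤ Real.sin X := by
      rw [div_le_iff₀ hn]
      rw [abs_sin_shift, abs_of_nonneg (Real.sin_nonneg_of_nonneg_of_le_pi hX0 hX1)] at hx4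
      linarith
    have hsy : ν / ‖w‖ ≤ Real.sin Y := by
      rw [div_le_iff₀ hn]
      rw [abs_sin_shift, abs_of_nonneg (Real.sin_nonneg_of_nonneg_of_le_pi hY0 hY1)] at hy4
      linarith
    have hcos : |Real.cos X - Real.cos Y| ≤ 2 * δ / ‖w‖ := by
      rw [← abs_cos_shift X Y k, le_div_iff₀ hn]
      have h2 : |‖w‖ * Real.cos (X + k * Real.pi) - ‖w‖ * Real.cos (Y + k * Real.pi)| ≤
          2 * δ := by
        have : ‖w‖ * Real.cos (X + k * Real.pi) - ‖w‖ * Real.cos (Y + k * Real.pi) =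
            (‖w‖ * Real.cos (X + k * Real.pi) - a) -
            (‖w‖ * Real.cos (Y + k * Real.pi) - a) := by ring
        rw [this]
        refine le_trans (abs_sub _ _) (by linarith)
      rw [← mul_sub, abs_mul, abs_of_pos hn] at h2
      linarith
    have hfin := half_dist (s := ν / ‖w‖) (by positivity) hX0 hX1 hY0 hY1 hsx hsy hcos
    rw [eXY] at hfin
    refine le_trans hfin (le_of_eq ?_)
    field_simp
    ring
  refine le_trans (Finset.sum_le_sum hv) ?_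
  rw [Finset.sum_const, nsmul_eq_mul]
  have hcard : (Finset.Icc m (m + 3)).card = 4 := by
    rw [Int.card_Icc]
    have : m + 3 + 1 - m = 4 := by ring
    rw [this]; rfl
  rw [hcard, show ((4 : ℕ) : ENNReal) = ENNReal.ofReal 4 by simp,
    ← ENNReal.ofReal_mul (by norm_num)]
  apply ENNReal.ofReal_le_ofReal
  linarith

end Pool.Agent.Helper38_F5
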