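import Pool.Agent.Helper38_F5.Vol3

/-!
MP_f5cbfa_nt, block N: areas in the plane for one index.
-/

set_option autoImplicit false

open MeasureTheory

namespace Pool.Agent.Helper38_F5

open Pool.Agent.Helper68_F5

/-- the real numbers `x`, `|x| ≥ c`, with `x²` in an interval of length `2P` -/
theorem vol_sq {q P c : ℝ} (hP : 0 ≤ P) (hc : 0 < c) :
    volume {x : ℝ | |x ^ 2 - q| ≤ P ∧ c ≤ |x|} ≤ ENNReal.ofReal (4 * P / c) := by
  have hsub : {x : ℝ | |x ^ 2 - q| ≤ P ∧ c ≤ |x|} ⊆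
      {x : ℝ | |x ^ 2 - q| ≤ P ∧ c ≤ x} ∪ {x : ℝ | |x ^ 2 - q| ≤ P ∧ c ≤ -x} := by
    rintro x ⟨h1, h2⟩
    rcases le_total 0 x with h | h
    · left; exact ⟨h1, by rwa [abs_of_nonneg h] at h2⟩
    · right; exact ⟨h1, by rwa [abs_of_nonpos h] at h2⟩
  have a1 : volume {x : ℝ | |x ^ 2 - q| ≤ P ∧ c ≤ x} ≤ ENNReal.ofReal (2 * (P / c)) := by
    refine vol_diam ?_
    rintro x ⟨h1, h2⟩ y ⟨h3, h4⟩
    have h5 : |x ^ 2 - y ^ 2| ≤ 2 * P := by
      have : x ^ 2 - y ^ 2 = (x ^ 2 - q) - (y ^ 2 - q) := by ring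
      rw [this]
      refine le_trans (abs_sub _ _) (by linarith)
    have h6 : x ^ 2 - y ^ 2 = (x - y) * (x + y) := by ring
    rw [h6, abs_mul, abs_of_pos (by linarith : 0 < x + y)] at h5
    rw [le_div_iff₀ hc]
    have := abs_nonneg (x - y)
    nlinarith
  have a2 : volume {x : ℝ | |x ^ 2 - q| ≤ P ∧ c ≤ -x} ≤ ENNReal.ofReal (2 * (P / c)) := by
    refine vol_diam ?_
    rintro x ⟨h1, h2⟩ y ⟨h3, h4⟩
    have h5 : |x ^ 2 - y ^ 2| ≤ 2 * P := by
      have : x ^ 2 - y ^ 2 = (x ^ 2 - q) - (y ^ 2 - q) := by ring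
      rw [this]
      refine le_trans (abs_sub _ _) (by linarith)
    have h6 : x ^ 2 - y ^ 2 = (x - y) * -(-x + -y) := by ring
    rw [h6, abs_mul, abs_neg, abs_of_pos (by linarith : 0 < -x + -y)] at h5
    rw [le_div_iff₀ hc]
    have := abs_nonneg (x - y)
    nlinarith
  refine le_trans (measure_mono hsub) (le_trans (measure_union_le _ _) ?_)
  refine le_trans (add_le_add a1 a2) ?_
  rw [← ENNReal.ofReal_add (by positivity) (by positivity)]
  apply ENNReal.ofReal_le_ofReal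
  apply le_of_eq
  ring

theorem meas_real (s a P b c : ℝ) : MeasurableSet
    {z : ℝ × ℝ | |z.1 ^ 2 + z.2 ^ 2 - s| ≤ P ∧ |z.2 - a| ≤ b ∧ c ≤ |z.1|} := by
  have c1 : Continuous (fun z : ℝ × ℝ => |z.1 ^ 2 + z.2 ^ 2 - s|) := by fun_prop
  have c2 : Continuous (fun z : ℝ × ℝ => |z.2 - a|) := by fun_prop
  have c3 : Continuous (fun z : ℝ × ℝ => |z.1|) := by fun_prop
  exact (IsClosed.inter (isClosed_le c1 continuous_const)
      (IsClosed.inter (isClosed_le c2 continuous_const)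
        (isClosed_le continuous_const c3))).measurableSet

theorem area_real {s a P b c : ℝ} (hP : 0 ≤ P) (_hb : 0 ≤ b) (hc : 0 < c) :
    volume {z : ℝ × ℝ | |z.1 ^ 2 + z.2 ^ 2 - s| ≤ P ∧ |z.2 - a| ≤ b ∧ c ≤ |z.1|} ≤
      ENNReal.ofReal (8 * P * b / c) := by
  have h := vol2 (G := {z : ℝ × ℝ | |z.1 ^ 2 + z.2 ^ 2 - s| ≤ P ∧ |z.2 - a| ≤ b ∧ c ≤ |z.1|})
    (B := {y : ℝ | |y - a| ≤ b}) (m := ENNReal.ofReal (4 * P / c))
    (m' := ENNReal.ofReal (2 * b)) ?_ ?_ ?_ ?_ ?_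
  · refine le_trans h ?_
    rw [← ENNReal.ofReal_mul (by positivity)]
    apply ENNReal.ofReal_le_ofReal
    apply le_of_eq
    ring
  · exact meas_real s a P b c
  · have c1 : Continuous (fun y : ℝ => |y - a|) := by fun_prop
    exact (isClosed_le c1 continuous_const).measurableSet
  · intro y
    refine le_trans (measure_mono ?_) (vol_sq (q := s - y ^ 2) hP hc)
    rintro x ⟨h1, _, h3⟩
    refine ⟨?_, h3⟩
    have : x ^ 2 - (s - y ^ 2) = x ^ 2 + y ^ 2 - s := by ring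
    rw [this]
    exact h1
  · rintro x y ⟨_, h2, _⟩
    exact h2
  · have : {y : ℝ | |y - a| ≤ b} = Set.Icc (a - b) (a + b) := by
      ext y
      simp only [Set.mem_ofPred_eq, Set.mem_Icc, abs_le]
      constructor
      · rintro ⟨h1, h2⟩; constructor <;> linarith
      · rintro ⟨h1, h2⟩; constructor <;> linarith
    rw [this, Real.volume_Icc]
    apply ENNReal.ofReal_le_ofReal
    apply le_of_eq
    ring

/-- multiplication by a unit complex number preserves the area -/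
theorem mp_mul {u : ℂ} (hu : ‖u‖ = 1) : MeasurePreserving (fun z : ℂ => u * z) := by
  have hu' : u ∈ Submonoid.unitSphere ℂ := mem_sphere_zero_iff_norm.2 hu
  exact (rotation (⟨u, hu'⟩ : Circle)).measurePreserving

/-- the area of one index: `‖m‖²` in an interval of length `2P`, component along the unit vector
`u` in an interval of length `2b`, transversal component at least `c` -/
theorem area_box {u : ℂ} (hu : ‖u‖ = 1) {s a P b c : ℝ} (hP : 0 ≤ P) (hb : 0 ≤ b) (hc : 0 < c) :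
    volume {m : ℂ | |‖m‖ ^ 2 - s| ≤ P ∧ |sp m u - a| ≤ b ∧ c ≤ |wd m u|} ≤
      ENNReal.ofReal (8 * P * b / c) := by
  -- `z = I * conj u * m`: re = wd.., im = sp
  obtain ⟨w, hw⟩ : ∃ w : ℂ, w = Complex.I * (starRingEnd ℂ) u := ⟨_, rfl⟩
  have hwn : ‖w‖ = 1 := by rw [hw, norm_mul, Complex.norm_I, Complex.norm_conj, hu, one_mul]
  have e1 : ∀ m : ℂ, (w * m).re = wd m u := by
    intro m
    rw [hw]
    simp [wd, Complex.mul_re, Complex.mul_im]
    ring
  have e2 : ∀ m : ℂ, (w * m).im = sp m u := by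
    intro m
    rw [hw]
    simp [sp, Complex.mul_re, Complex.mul_im]
    ring
  have e3 : ∀ m : ℂ, ‖m‖ ^ 2 = (w * m).re ^ 2 + (w * m).im ^ 2 := by
    intro m
    have : ‖w * m‖ = ‖m‖ := by rw [norm_mul, hwn, one_mul]
    rw [← this, Complex.sq_norm, Complex.normSq_apply]
    ring
  have hset : {m : ℂ | |‖m‖ ^ 2 - s| ≤ P ∧ |sp m u - a| ≤ b ∧ c ≤ |wd m u|} =
      (fun z : ℂ => w * z) ⁻¹' (Complex.measurableEquivRealProd ⁻¹'
        {z : ℝ × ℝ | |z.1 ^ 2 + z.2 ^ 2 - s| ≤ P ∧ |z.2 - a| ≤ b ∧ c ≤ |z.1|}) := by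
    ext m
    simp only [Set.mem_ofPred_eq, Set.mem_preimage, Complex.measurableEquivRealProd_apply]
    rw [e1, e2, e3 m, e1, e2]
  have hmeas := meas_real s a P b c
  rw [hset, (mp_mul hwn).measure_preimage
    (Complex.measurableEquivRealProd.measurable hmeas).nullMeasurableSet,
    Complex.volume_preserving_equiv_real_prod.measure_preimage hmeas.nullMeasurableSet]
  exact area_real hP hb hc

/-- unit vector of `b` -/
theorem norm_unit' {b : ℂ} (hb : b ≠ 0) : ‖((‖b‖⁻¹ : ℝ) : ℂ) * b‖ = 1 := by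
  have h1 : 0 < ‖b‖ := norm_pos_iff.2 hb
  rw [norm_mul, Complex.norm_real, Real.norm_eq_abs, abs_of_pos (inv_pos.2 h1)]
  exact inv_mul_cancel₀ h1.ne'

/-- regular index: `m` near the circle of radius `√s`, product with `H` in an interval -/
theorem area_reg {H : ℂ} {s t P w n : ℝ} (hP : 0 ≤ P) (hw : 0 ≤ w) (hn : 0 < n) :
    volume {m : ℂ | |‖m‖ ^ 2 - s| ≤ P ∧ |sp m H - t| ≤ w ∧ n ≤ |wd m H|} ≤
      ENNReal.ofReal (8 * P * w / n) := by
  rcases eq_or_ne H 0 with h | hH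
  · have : {m : ℂ | |‖m‖ ^ 2 - s| ≤ P ∧ |sp m H - t| ≤ w ∧ n ≤ |wd m H|} = ∅ := by
      ext m
      simp only [Set.mem_ofPred_eq, Set.mem_empty_iff_false, iff_false, not_and, not_le]
      intro _ _
      rw [h]
      simpa [wd] using hn
    rw [this, measure_empty]
    exact bot_le
  have hHn : 0 < ‖H‖ := norm_pos_iff.2 hH
  have hu := norm_unit' hH
  refine le_trans (measure_mono ?_) (le_trans (area_box (u := ((‖H‖⁻¹ : ℝ) : ℂ) * H)
    (s := s) (a := t / ‖H‖) (P := P) (b := w / ‖H‖) (c := n / ‖H‖) hu hP (by positivity)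
    (by positivity)) ?_)
  · rintro m ⟨h1, h2, h3⟩
    refine ⟨h1, ?_, ?_⟩
    · rw [sp_real', inv_mul_eq_div, ← sub_div, abs_div, abs_of_pos hHn]
      exact div_le_div_of_nonneg_right h2 hHn.le
    · rw [wd_real', inv_mul_eq_div, abs_div, abs_of_pos hHn]
      exact div_le_div_of_nonneg_right h3 hHn.le
  · apply ENNReal.ofReal_le_ofReal
    apply le_of_eq
    field_simp

/-- arc: `m` near the circle of radius `√s` and nearly parallel to `v` -/
theorem area_arc {v : ℂ} {s P b c : ℝ} (hP : 0 ≤ P) (hb : 0 ≤ b) (hc : 0 < c) :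
    volume {m : ℂ | |‖m‖ ^ 2 - s| ≤ P ∧ |wd m v| ≤ b ∧ c ≤ |sp m v|} ≤
      ENNReal.ofReal (8 * P * b / c) := by
  obtain ⟨u, hu⟩ : ∃ u : ℂ, u = ⟨-v.im, v.re⟩ := ⟨_, rfl⟩
  have e1 : ∀ m : ℂ, sp m u = wd v m := by
    intro m; rw [hu, wd, sp]; ring
  have e2 : ∀ m : ℂ, wd m u = sp m v := by
    intro m; rw [hu, wd, sp]; ring
  refine le_trans (measure_mono ?_) (area_reg (H := u) (s := s) (t := 0) hP hb hc)
  rintro m ⟨h1, h2, h3⟩
  refine ⟨h1, ?_, by rw [e2]; exact h3⟩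
  rw [sub_zero, e1, wd_comm, abs_neg]
  exact h2

end Pool.Agent.Helper38_F5
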