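import Pool.Agent.Helper9_F5H.Cnt2

/-!
MP_f5cbfa_nt, block N: the exponents of the conic pair count (cases A and B1).
-/

set_option autoImplicit false

open MeasureTheory

namespace Pool.Agent.Helper38_F5

open Pool.Agent.Helper68_F5 Pool.Agent.F5H.H9

/-- the sixteen products, in logarithms; `lam` is the loss -/
theorem core {t a b c r m q lam f g : ℝ} (ht : 0 ≤ t) (hc : 0 ≤ c) (hcb : c ≤ b) (hba : b ≤ a)
    (ha : a ≤ 277 / 500 * t + q) (hb : b ≤ 677 / 2000 * t + q) (hq : 0 ≤ q) (hqt : 2000 * q ≤ t)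
    (hr : 0 ≤ r) (hrm : r ≤ m + q)
    (hm : (m = 0 ∧ a + b + c ≤ t) ∨ (m = 2 * (a + b + c - t) ∧ t ≤ a + b + c))
    (hlam : lam = 0 ∨ (lam = 3 / 80 ∧ 1 / 25 * t ≤ r))
    (hf : f = 0 ∨ f = a - 2 / 3 * r ∨ f = 2 * a - 2 * r ∨ f = 4 * a - 2 * t)
    (hg : g = 0 ∨ g = b - 1 / 2 * r ∨ g = 2 * b - 2 * r ∨ g = 2 * a + 2 * b - 2 * t) :
    lam * t + 3 * r + f + g + 2 * c - 2 * t ≤ m + 3 * q := by
  rcases hm with ⟨hm, hs⟩ | ⟨hm, hs⟩
  · subst hm
    rcases hlam with hl | ⟨hl, hl2⟩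
    · subst hl
      rcases hf with h | h | h | h <;> rcases hg with h' | h' | h' | h' <;> subst h <;> subst h' <;>
        linarith
    · have : t = 0 ∧ q = 0 := by constructor <;> linarith
      obtain ⟨h1, h2⟩ := this
      subst h1
      subst h2
      rcases hf with h | h | h | h <;> rcases hg with h' | h' | h' | h' <;> subst h <;> subst h' <;>
        linarith
  · subst hm
    rcases hlam with hl | ⟨hl, hl2⟩
    · subst hl
      rcases hf with h | h | h | h <;> rcases hg with h' | h' | h' | h' <;> subst h <;> subst h' <;>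
        linarith
    · subst hl
      rcases hf with h | h | h | h <;> rcases hg with h' | h' | h' | h' <;> subst h <;> subst h' <;>
        linarith

/-- the first factor -/
theorem fc_le {T P R V ω : ℝ} {k : ℕ} (hT : 0 < T) (hP : 1 ≤ P) (hR : 1 ≤ R) (hV : 0 ≤ V)
    (hlog : 1 + Real.log R ≤ P) (hω0 : 0 ≤ ω) (hω : ω ≤ P ^ k * (1 + V / R)) :
    FC R V (WW P R (T ^ 2) V V ω) ≤
      1537 * P ^ (k + 3) * (1 + V / R ^ (2 / 3 : ℝ) + V ^ 2 / R ^ 2 + V ^ 4 / T ^ 2) := by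
  have hR0 : 0 < R := by linarith
  have hP0 : 0 < P := by linarith
  have hl0 : 0 ≤ 1 + Real.log R := by linarith [Real.log_nonneg hR]
  have e1 : V * WW P R (T ^ 2) V V ω / R = V * ω / R + 1536 * P ^ 2 * (V ^ 4 / T ^ 2) := by
    unfold WW
    field_simp
    try ring
  have e2 : V * ω / R ≤ P ^ k * (V / R + V ^ 2 / R ^ 2) := by
    calc V * ω / R ≤ V * (P ^ k * (1 + V / R)) / R :=
          div_le_div_of_nonneg_right (mul_le_mul_of_nonneg_left hω hV) hR0.le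
      _ = _ := by field_simp
  have e3 : V / R ≤ V / R ^ (2 / 3 : ℝ) := by
    refine div_le_div_of_nonneg_left hV (by positivity) ?_
    calc R ^ (2 / 3 : ℝ) ≤ R ^ (1 : ℝ) := Real.rpow_le_rpow_of_exponent_le hR (by norm_num)
      _ = R := Real.rpow_one R
  obtain ⟨A, hA⟩ : ∃ A, A = V / R ^ (2 / 3 : ℝ) := ⟨_, rfl⟩
  obtain ⟨B, hB⟩ : ∃ B, B = V ^ 2 / R ^ 2 := ⟨_, rfl⟩
  obtain ⟨D, hD⟩ : ∃ D, D = V ^ 4 / T ^ 2 := ⟨_, rfl⟩
  have hA0 : 0 ≤ A := by rw [hA]; positivity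
  have hB0 : 0 ≤ B := by rw [hB]; positivity
  have hD0 : 0 ≤ D := by rw [hD]; positivity
  unfold FC
  rw [e1, ← hA, ← hB, ← hD]
  rw [← hB] at e2
  rw [← hA] at e3
  have p0 : 1 ≤ P ^ k := one_le_pow₀ hP
  have p1 : 1 ≤ P ^ (k + 3) := one_le_pow₀ hP
  have p2 : P ^ k * P ≤ P ^ (k + 3) := by
    rw [← pow_succ]
    exact pow_le_pow_right₀ hP (by omega)
  have p3 : P ^ 2 * P ≤ P ^ (k + 3) := by
    rw [← pow_succ]
    exact pow_le_pow_right₀ hP (by omega)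
  calc 1 + A + (V * ω / R + 1536 * P ^ 2 * D) * (1 + Real.log R)
      ≤ 1 + A + (P ^ k * (A + B) + 1536 * P ^ 2 * D) * P := by
        have h1 : V * ω / R + 1536 * P ^ 2 * D ≤ P ^ k * (A + B) + 1536 * P ^ 2 * D := by
          have : P ^ k * (V / R + B) ≤ P ^ k * (A + B) :=
            mul_le_mul_of_nonneg_left (by linarith) (by linarith)
          linarith
        have h2 : 0 ≤ V * ω / R + 1536 * P ^ 2 * D := by positivity
        have h3 := mul_le_mul h1 hlog hl0 (by positivity)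
        linarith
    _ = 1 + A + (P ^ k * P) * (A + B) + 1536 * (P ^ 2 * P) * D := by ring
    _ ≤ P ^ (k + 3) * 1 + P ^ (k + 3) * A + P ^ (k + 3) * (A + B) + 1536 * P ^ (k + 3) * D := by
        have h1 := mul_le_mul_of_nonneg_right p2 (by linarith : 0 ≤ A + B)
        have h2 := mul_le_mul_of_nonneg_right p3 hD0
        have h3 := mul_le_mul_of_nonneg_right p1 hA0
        linarith
    _ ≤ _ := by
        have hp : 0 ≤ P ^ (k + 3) := by linarith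
        have h1 := mul_nonneg hp hA0
        have h2 := mul_nonneg hp hB0
        have h3 := mul_nonneg hp hD0
        linarith

/-- the second factor -/
theorem ff_le {T P R V₁ V ω : ℝ} {k : ℕ} (hT : 0 < T) (hP : 1 ≤ P) (hR : 1 ≤ R) (hV : 0 ≤ V)
    (hV₁ : 0 ≤ V₁)
    (hlog : 1 + Real.log R ≤ P) (hω0 : 0 ≤ ω) (hω : ω ≤ P ^ k * (1 + V / R)) :
    FF R V (WW P R (T ^ 2) V₁ V ω) ≤
      1537 * P ^ (k + 3) * (1 + V / Real.sqrt R + V ^ 2 / R ^ 2 + V₁ ^ 2 * V ^ 2 / T ^ 2) := by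
  have hR0 : 0 < R := by linarith
  have hP0 : 0 < P := by linarith
  have hl0 : 0 ≤ 1 + Real.log R := by linarith [Real.log_nonneg hR]
  have hs : 0 < Real.sqrt R := Real.sqrt_pos.2 hR0
  have e1 : V * WW P R (T ^ 2) V₁ V ω / R = V * ω / R + 1536 * P ^ 2 * (V₁ ^ 2 * V ^ 2 / T ^ 2) := by
    unfold WW
    field_simp
    try ring
  have e2 : V * ω / R ≤ P ^ k * (V / R + V ^ 2 / R ^ 2) := by
    calc V * ω / R ≤ V * (P ^ k * (1 + V / R)) / R :=
          div_le_div_of_nonneg_right (mul_le_mul_of_nonneg_left hω hV) hR0.le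
      _ = _ := by field_simp
  have e3 : V / R ≤ V / Real.sqrt R := by
    refine div_le_div_of_nonneg_left hV hs ?_
    rw [Real.sqrt_le_left hR0.le]
    nlinarith
  obtain ⟨A, hA⟩ : ∃ A, A = V / Real.sqrt R := ⟨_, rfl⟩
  obtain ⟨B, hB⟩ : ∃ B, B = V ^ 2 / R ^ 2 := ⟨_, rfl⟩
  obtain ⟨D, hD⟩ : ∃ D, D = V₁ ^ 2 * V ^ 2 / T ^ 2 := ⟨_, rfl⟩
  have hA0 : 0 ≤ A := by rw [hA]; positivity
  have hB0 : 0 ≤ B := by rw [hB]; positivity
  have hD0 : 0 ≤ D := by rw [hD]; positivity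
  unfold FF
  rw [e1, ← hA, ← hB, ← hD]
  rw [← hB] at e2
  rw [← hA] at e3
  have p0 : 1 ≤ P ^ k := one_le_pow₀ hP
  have p1 : 1 ≤ P ^ (k + 3) := one_le_pow₀ hP
  have p2 : P ^ k * P ≤ P ^ (k + 3) := by
    rw [← pow_succ]
    exact pow_le_pow_right₀ hP (by omega)
  have p3 : P ^ 2 * P ≤ P ^ (k + 3) := by
    rw [← pow_succ]
    exact pow_le_pow_right₀ hP (by omega)
  calc 1 + A + (V * ω / R + 1536 * P ^ 2 * D) * (1 + Real.log R)
      ≤ 1 + A + (P ^ k * (A + B) + 1536 * P ^ 2 * D) * P := by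
        have h1 : V * ω / R + 1536 * P ^ 2 * D ≤ P ^ k * (A + B) + 1536 * P ^ 2 * D := by
          have : P ^ k * (V / R + B) ≤ P ^ k * (A + B) :=
            mul_le_mul_of_nonneg_left (by linarith) (by linarith)
          linarith
        have h2 : 0 ≤ V * ω / R + 1536 * P ^ 2 * D := by positivity
        have h3 := mul_le_mul h1 hlog hl0 (by positivity)
        linarith
    _ = 1 + A + (P ^ k * P) * (A + B) + 1536 * (P ^ 2 * P) * D := by ring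
    _ ≤ P ^ (k + 3) * 1 + P ^ (k + 3) * A + P ^ (k + 3) * (A + B) + 1536 * P ^ (k + 3) * D := by
        have h1 := mul_le_mul_of_nonneg_right p2 (by linarith : 0 ≤ A + B)
        have h2 := mul_le_mul_of_nonneg_right p3 hD0
        have h3 := mul_le_mul_of_nonneg_right p1 hA0
        linarith
    _ ≤ _ := by
        have hp : 0 ≤ P ^ (k + 3) := by linarith
        have h1 := mul_nonneg hp hA0
        have h2 := mul_nonneg hp hB0
        have h3 := mul_nonneg hp hD0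
        linarith

/-- the third factor -/
theorem ft_le {T P R V₁ V ω : ℝ} {k : ℕ} (hT : 0 < T) (hP : 1 ≤ P) (hR : 1 ≤ R) (hV : 1 ≤ V)
    (hV₁ : 0 ≤ V₁) (hVT : V₁ ≤ T) (hω0 : 0 ≤ ω) (hω : ω ≤ P ^ k * (1 + R * V)) :
    max 1 V * (1 + WW P R (T ^ 2) V₁ V ω / R) ≤ 1539 * P ^ (k + 2) * V ^ 2 := by
  have hR0 : 0 < R := by linarith
  have hP0 : 0 < P := by linarith
  have e1 : WW P R (T ^ 2) V₁ V ω / R = ω / R + 1536 * P ^ 2 * (V₁ ^ 2 / T ^ 2 * V) := by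
    unfold WW
    field_simp
  have e2 : ω / R ≤ P ^ k * (2 * V) := by
    calc ω / R ≤ P ^ k * (1 + R * V) / R := div_le_div_of_nonneg_right hω hR0.le
      _ ≤ P ^ k * (R * V + R * V) / R := by
        refine div_le_div_of_nonneg_right (mul_le_mul_of_nonneg_left ?_ (by positivity)) hR0.le
        nlinarith
      _ = _ := by field_simp; try ring
  have e3 : V₁ ^ 2 / T ^ 2 ≤ 1 := by
    rw [div_le_one (by positivity)]
    exact pow_le_pow_left₀ hV₁ hVT 2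
  have p0 : 1 ≤ P ^ (k + 2) := one_le_pow₀ hP
  have p1 : P ^ k ≤ P ^ (k + 2) := pow_le_pow_right₀ hP (by omega)
  have p2 : P ^ 2 ≤ P ^ (k + 2) := pow_le_pow_right₀ hP (by omega)
  rw [e1, max_eq_right hV]
  have h1 : 1536 * P ^ 2 * (V₁ ^ 2 / T ^ 2 * V) ≤ 1536 * P ^ (k + 2) * V := by
    calc 1536 * P ^ 2 * (V₁ ^ 2 / T ^ 2 * V) ≤ 1536 * P ^ 2 * (1 * V) := by
          refine mul_le_mul_of_nonneg_left (mul_le_mul_of_nonneg_right e3 (by linarith)) (by positivity)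
      _ ≤ 1536 * P ^ (k + 2) * V := by
          have := mul_le_mul_of_nonneg_right p2 (by linarith : 0 ≤ V)
          linarith
  have h2 : P ^ k * (2 * V) ≤ P ^ (k + 2) * (2 * V) := mul_le_mul_of_nonneg_right p1 (by linarith)
  have h3 : (1 : ℝ) ≤ P ^ (k + 2) * V := by nlinarith
  have h4 : 1 + (ω / R + 1536 * P ^ 2 * (V₁ ^ 2 / T ^ 2 * V)) ≤ 1539 * P ^ (k + 2) * V := by
    linarith
  calc V * (1 + (ω / R + 1536 * P ^ 2 * (V₁ ^ 2 / T ^ 2 * V)))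
      ≤ V * (1539 * P ^ (k + 2) * V) := mul_le_mul_of_nonneg_left h4 (by linarith)
    _ = _ := by ring

theorem exp_div' (x y : ℝ) : Real.exp x / Real.exp y = Real.exp (x - y) := (Real.exp_sub x y).symm

/-- the arithmetic of the conic count: `T ^ lam * NC / (T² R) ≤ K P^.. Q³ R₁` -/
theorem nc_le {T P Q R R₁ V₁ V₂ V₃ ω₁ ω₂ ω₃ lam : ℝ} {k : ℕ} (hT : 1 ≤ T) (hP : 1 ≤ P)
    (hQ : 1 ≤ Q) (hQT : Q ^ 2000 ≤ T) (hR : 1 ≤ R) (hlog : 1 + Real.log R ≤ P)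
    (h3 : 1 ≤ V₃) (h32 : V₃ ≤ V₂) (h21 : V₂ ≤ V₁) (hV1 : V₁ ≤ Q * T ^ (277 / 500 : ℝ))
    (hV2 : V₂ ≤ Q * T ^ (677 / 2000 : ℝ)) (hR₁ : R₁ = max 1 ((V₁ * V₂ * V₃ / T) ^ 2))
    (hRR : R ≤ Q * R₁) (hω₁0 : 0 ≤ ω₁) (hω₂0 : 0 ≤ ω₂) (hω₃0 : 0 ≤ ω₃)
    (hω₁ : ω₁ ≤ P ^ k * (1 + V₁ / R)) (hω₂ : ω₂ ≤ P ^ k * (1 + V₂ / R))
    (hω₃ : ω₃ ≤ P ^ k * (1 + R * V₃))
    (hlam : lam = 0 ∨ (lam = 3 / 80 ∧ T ^ (1 / 25 : ℝ) ≤ R)) :
    T ^ lam * (NC P R (T ^ 2) V₁ V₂ V₃ ω₁ ω₂ ω₃ / (T ^ 2 * R)) ≤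
      16 * 1539 ^ 3 * P ^ (3 * k + 8) * Q ^ 3 * R₁ := by
  have hT0 : 0 < T := by linarith
  have hP0 : 0 < P := by linarith
  have hQ0 : 0 < Q := by linarith
  have hR0 : 0 < R := by linarith
  have h30 : 0 < V₃ := by linarith
  have h20 : 0 < V₂ := by linarith
  have h10 : 0 < V₁ := by linarith
  have hR₁1 : 1 ≤ R₁ := by rw [hR₁]; exact le_max_left _ _
  have hR₁0 : 0 < R₁ := by linarith
  obtain ⟨t, ht⟩ : ∃ t, t = Real.log T := ⟨_, rfl⟩
  obtain ⟨a, ha⟩ : ∃ a, a = Real.log V₁ := ⟨_, rfl⟩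
  obtain ⟨b, hb⟩ : ∃ b, b = Real.log V₂ := ⟨_, rfl⟩
  obtain ⟨c, hc⟩ : ∃ c, c = Real.log V₃ := ⟨_, rfl⟩
  obtain ⟨r, hr⟩ : ∃ r, r = Real.log R := ⟨_, rfl⟩
  obtain ⟨q, hq⟩ : ∃ q, q = Real.log Q := ⟨_, rfl⟩
  obtain ⟨m, hm⟩ : ∃ m, m = Real.log R₁ := ⟨_, rfl⟩
  have eT : T = Real.exp t := by rw [ht, Real.exp_log hT0]
  have eV1 : V₁ = Real.exp a := by rw [ha, Real.exp_log h10]
  have eV2 : V₂ = Real.exp b := by rw [hb, Real.exp_log h20]
  have eV3 : V₃ = Real.exp c := by rw [hc, Real.exp_log h30]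
  have eR : R = Real.exp r := by rw [hr, Real.exp_log hR0]
  have eQ : Q = Real.exp q := by rw [hq, Real.exp_log hQ0]
  have eR1 : R₁ = Real.exp m := by rw [hm, Real.exp_log hR₁0]
  have ht0 : 0 ≤ t := by rw [ht]; exact Real.log_nonneg hT
  have hc0 : 0 ≤ c := by rw [hc]; exact Real.log_nonneg h3
  have hcb : c ≤ b := by rw [hc, hb]; exact Real.log_le_log h30 h32
  have hba : b ≤ a := by rw [ha, hb]; exact Real.log_le_log h20 h21
  have hq0 : 0 ≤ q := by rw [hq]; exact Real.log_nonneg hQ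
  have hr0 : 0 ≤ r := by rw [hr]; exact Real.log_nonneg hR
  have ha' : a ≤ 277 / 500 * t + q := by
    have := Real.log_le_log h10 hV1
    rw [Real.log_mul (by positivity) (by positivity), Real.log_rpow hT0, ← ha, ← hq, ← ht] at this
    linarith
  have hb' : b ≤ 677 / 2000 * t + q := by
    have := Real.log_le_log h20 hV2
    rw [Real.log_mul (by positivity) (by positivity), Real.log_rpow hT0, ← hb, ← hq, ← ht] at this
    linarith
  have hqt : 2000 * q ≤ t := by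
    have := Real.log_le_log (by positivity) hQT
    rw [Real.log_pow, ← hq, ← ht] at this
    norm_num at this
    exact this
  have hrm : r ≤ m + q := by
    have := Real.log_le_log hR0 hRR
    rw [Real.log_mul (by positivity) (by positivity), ← hr, ← hq, ← hm] at this
    linarith
  have e0 : (V₁ * V₂ * V₃ / T) ^ 2 = Real.exp (2 * (a + b + c - t)) := by
    rw [eV1, eV2, eV3, eT, ← Real.exp_add, ← Real.exp_add, exp_div', ← Real.exp_nat_mul]
    norm_num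
  have hm' : (m = 0 ∧ a + b + c ≤ t) ∨ (m = 2 * (a + b + c - t) ∧ t ≤ a + b + c) := by
    rcases le_total (a + b + c) t with h | h
    · left
      refine ⟨?_, h⟩
      rw [hm, hR₁, e0, max_eq_left, Real.log_one]
      rw [← Real.exp_zero]
      exact Real.exp_le_exp.2 (by linarith)
    · right
      refine ⟨?_, h⟩
      rw [hm, hR₁, e0, max_eq_right, Real.log_exp]
      rw [← Real.exp_zero]
      exact Real.exp_le_exp.2 (by linarith)
  have hlam' : lam = 0 ∨ (lam = 3 / 80 ∧ 1 / 25 * t ≤ r) := by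
    rcases hlam with h | ⟨h, h'⟩
    · exact Or.inl h
    · refine Or.inr ⟨h, ?_⟩
      have := Real.log_le_log (by positivity) h'
      rw [Real.log_rpow hT0, ← hr, ← ht] at this
      exact this
  -- the factors
  have f1 := fc_le (T := T) hT0 hP hR h10.le hlog hω₁0 hω₁
  have f2 := ff_le (T := T) (V₁ := V₁) hT0 hP hR h20.le h10.le hlog hω₂0 hω₂
  have hV1T : V₁ ≤ T := by
    rw [eV1, eT]
    refine Real.exp_le_exp.2 ?_
    linarith
  have f3 := ft_le (T := T) (V₁ := V₁) hT0 hP hR h3 h10.le hV1T hω₃0 hω₃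
  have g1 : 1 + V₁ / R ^ (2 / 3 : ℝ) + V₁ ^ 2 / R ^ 2 + V₁ ^ 4 / T ^ 2 =
      Real.exp 0 + Real.exp (a - 2 / 3 * r) + Real.exp (2 * a - 2 * r) + Real.exp (4 * a - 2 * t) := by
    rw [eV1, eT, eR, ← Real.exp_mul, ← Real.exp_nat_mul, ← Real.exp_nat_mul, ← Real.exp_nat_mul,
      ← Real.exp_nat_mul, exp_div', exp_div', exp_div', Real.exp_zero]
    norm_num
    ring_nf
  have hsq : Real.sqrt R = Real.exp (1 / 2 * r) := by
    rw [eR, Real.sqrt_eq_rpow, ← Real.exp_mul]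
    ring_nf
  have g2 : 1 + V₂ / Real.sqrt R + V₂ ^ 2 / R ^ 2 + V₁ ^ 2 * V₂ ^ 2 / T ^ 2 =
      Real.exp 0 + Real.exp (b - 1 / 2 * r) + Real.exp (2 * b - 2 * r) +
        Real.exp (2 * a + 2 * b - 2 * t) := by
    rw [hsq, eV1, eV2, eT, eR, ← Real.exp_nat_mul, ← Real.exp_nat_mul, ← Real.exp_nat_mul,
      ← Real.exp_nat_mul, ← Real.exp_add, exp_div', exp_div', exp_div', Real.exp_zero]
    norm_num
  have g3 : T ^ lam * (R ^ 4 * V₃ ^ 2 / (T ^ 2 * R)) = Real.exp (lam * t + 3 * r + 2 * c - 2 * t) := by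
    have : R ^ 4 * V₃ ^ 2 / (T ^ 2 * R) = R ^ 3 * V₃ ^ 2 / T ^ 2 := by field_simp
    rw [this, eT, eV3, eR, ← Real.exp_mul, ← Real.exp_nat_mul, ← Real.exp_nat_mul,
      ← Real.exp_nat_mul, ← Real.exp_add, exp_div', ← Real.exp_add]
    norm_num
    ring_nf
  obtain ⟨X₁, hX₁⟩ : ∃ X, X = FC R V₁ (WW P R (T ^ 2) V₁ V₁ ω₁) := ⟨_, rfl⟩
  obtain ⟨X₂, hX₂⟩ : ∃ X, X = FF R V₂ (WW P R (T ^ 2) V₁ V₂ ω₂) := ⟨_, rfl⟩
  obtain ⟨X₃, hX₃⟩ : ∃ X, X = max 1 V₃ * (1 + WW P R (T ^ 2) V₁ V₃ ω₃ / R) := ⟨_, rfl⟩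
  have hX20 : 0 ≤ X₂ := by
    rw [hX₂]
    have := FF_ge (R := R) (V := V₂) (W := WW P R (T ^ 2) V₁ V₂ ω₂) hR h20.le
      (WW_nonneg hR0.le (by positivity) h20.le hω₂0)
    linarith
  have hX30 : 0 ≤ X₃ := by
    rw [hX₃]
    have h5 := WW_nonneg (P := P) (R := R) (S := T ^ 2) (V₁ := V₁) (V := V₃) (ω := ω₃) hR0.le
      (by positivity) h30.le hω₃0
    have : (0 : ℝ) ≤ max 1 V₃ := le_trans zero_le_one (le_max_left _ _)
    positivity
  rw [← hX₁, g1] at f1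
  rw [← hX₂, g2] at f2
  rw [← hX₃] at f3
  have eN : NC P R (T ^ 2) V₁ V₂ V₃ ω₁ ω₂ ω₃ = R ^ 4 * X₁ * X₂ * X₃ := by
    unfold NC
    rw [hX₁, hX₂, hX₃]
  rw [eN]
  obtain ⟨F, hF⟩ : ∃ F, F = Real.exp 0 + Real.exp (a - 2 / 3 * r) + Real.exp (2 * a - 2 * r) +
    Real.exp (4 * a - 2 * t) := ⟨_, rfl⟩
  obtain ⟨G, hG⟩ : ∃ G, G = Real.exp 0 + Real.exp (b - 1 / 2 * r) + Real.exp (2 * b - 2 * r) +
        Real.exp (2 * a + 2 * b - 2 * t) := ⟨_, rfl⟩
  have hF0 : 0 ≤ F := by rw [hF]; positivity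
  have hG0 : 0 ≤ G := by rw [hG]; positivity
  rw [← hF] at f1
  rw [← hG] at f2
  have s1 : X₁ * X₂ * X₃ ≤ (1537 * P ^ (k + 3) * F) * (1537 * P ^ (k + 3) * G) *
      (1539 * P ^ (k + 2) * V₃ ^ 2) := by
    refine mul_le_mul (mul_le_mul f1 f2 hX20 (by positivity)) f3 hX30 (by positivity)
  have s2 : T ^ lam * (R ^ 4 * X₁ * X₂ * X₃ / (T ^ 2 * R)) ≤
      1539 ^ 3 * P ^ (3 * k + 8) * (T ^ lam * (R ^ 4 * V₃ ^ 2 / (T ^ 2 * R)) * (F * G)) := by
    calc T ^ lam * (R ^ 4 * X₁ * X₂ * X₃ / (T ^ 2 * R))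
        = T ^ lam * (R ^ 4 / (T ^ 2 * R)) * (X₁ * X₂ * X₃) := by ring
      _ ≤ T ^ lam * (R ^ 4 / (T ^ 2 * R)) * ((1537 * P ^ (k + 3) * F) * (1537 * P ^ (k + 3) * G) *
          (1539 * P ^ (k + 2) * V₃ ^ 2)) := mul_le_mul_of_nonneg_left s1 (by positivity)
      _ = (1537 * 1537 * 1539) * P ^ (3 * k + 8) *
          (T ^ lam * (R ^ 4 * V₃ ^ 2 / (T ^ 2 * R)) * (F * G)) := by
          have : P ^ (3 * k + 8) = P ^ (k + 3) * P ^ (k + 3) * P ^ (k + 2) := by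
            rw [← pow_add, ← pow_add]
            congr 1
            ring
          rw [this]
          ring
      _ ≤ _ := by
          refine mul_le_mul_of_nonneg_right ?_ (by positivity)
          refine mul_le_mul_of_nonneg_right ?_ (by positivity)
          norm_num
  have s3 : T ^ lam * (R ^ 4 * V₃ ^ 2 / (T ^ 2 * R)) * (F * G) ≤ 16 * (Q ^ 3 * R₁) := by
    rw [g3]
    have key : ∀ f g : ℝ, (f = 0 ∨ f = a - 2 / 3 * r ∨ f = 2 * a - 2 * r ∨ f = 4 * a - 2 * t) →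
        (g = 0 ∨ g = b - 1 / 2 * r ∨ g = 2 * b - 2 * r ∨ g = 2 * a + 2 * b - 2 * t) →
        Real.exp (lam * t + 3 * r + 2 * c - 2 * t) * (Real.exp f * Real.exp g) ≤ Q ^ 3 * R₁ := by
      intro f g hf hg
      have h5 := core ht0 hc0 hcb hba ha' hb' hq0 hqt hr0 hrm hm' hlam' hf hg
      rw [eQ, eR1, ← Real.exp_nat_mul, ← Real.exp_add, ← Real.exp_add, ← Real.exp_add]
      refine Real.exp_le_exp.2 ?_
      push_cast
      linarith
    have k11 := key 0 0 (by simp) (by simp)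
    have k12 := key 0 (b - 1 / 2 * r) (by simp) (by simp)
    have k13 := key 0 (2 * b - 2 * r) (by simp) (by simp)
    have k14 := key 0 (2 * a + 2 * b - 2 * t) (by simp) (by simp)
    have k21 := key (a - 2 / 3 * r) 0 (by simp) (by simp)
    have k22 := key (a - 2 / 3 * r) (b - 1 / 2 * r) (by simp) (by simp)
    have k23 := key (a - 2 / 3 * r) (2 * b - 2 * r) (by simp) (by simp)
    have k24 := key (a - 2 / 3 * r) (2 * a + 2 * b - 2 * t) (by simp) (by simp)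
    have k31 := key (2 * a - 2 * r) 0 (by simp) (by simp)
    have k32 := key (2 * a - 2 * r) (b - 1 / 2 * r) (by simp) (by simp)
    have k33 := key (2 * a - 2 * r) (2 * b - 2 * r) (by simp) (by simp)
    have k34 := key (2 * a - 2 * r) (2 * a + 2 * b - 2 * t) (by simp) (by simp)
    have k41 := key (4 * a - 2 * t) 0 (by simp) (by simp)
    have k42 := key (4 * a - 2 * t) (b - 1 / 2 * r) (by simp) (by simp)
    have k43 := key (4 * a - 2 * t) (2 * b - 2 * r) (by simp) (by simp)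
    have k44 := key (4 * a - 2 * t) (2 * a + 2 * b - 2 * t) (by simp) (by simp)
    rw [hF, hG]
    linarith
  calc T ^ lam * (R ^ 4 * X₁ * X₂ * X₃ / (T ^ 2 * R))
      ≤ 1539 ^ 3 * P ^ (3 * k + 8) * (T ^ lam * (R ^ 4 * V₃ ^ 2 / (T ^ 2 * R)) * (F * G)) := s2
    _ ≤ 1539 ^ 3 * P ^ (3 * k + 8) * (16 * (Q ^ 3 * R₁)) :=
        mul_le_mul_of_nonneg_left s3 (by positivity)
    _ = _ := by ring

end Pool.Agent.Helper38_F5
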