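import Pool.Agent.Helper68_F5.Stmts

/-!
MP_f5cbfa_nt, duality count: packing rows, part 1 (boxes, discs and strips, annuli).
-/

set_option autoImplicit false

open MeasureTheory

namespace Pool.Agent.Helper38_F5

open Pool.Agent.Helper68_F5

/-- number of integers between two floors -/
theorem int_count {x y : ℝ} (hxy : x ≤ y) : ((Finset.Icc ⌊x⌋ ⌊y⌋).card : ℝ) ≤ y - x + 2 := by
  have h1 : ⌊x⌋ ≤ ⌊y⌋ := Int.floor_le_floor hxy
  rw [Int.card_Icc]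
  have h2 : ((⌊y⌋ + 1 - ⌊x⌋).toNat : ℝ) = ((⌊y⌋ + 1 - ⌊x⌋ : ℤ) : ℝ) := by
    have : ((⌊y⌋ + 1 - ⌊x⌋).toNat : ℤ) = ⌊y⌋ + 1 - ⌊x⌋ := Int.toNat_of_nonneg (by linarith)
    exact_mod_cast this
  rw [h2]
  push_cast
  have := Int.floor_le y
  have := Int.lt_floor_add_one x
  linarith

/-- separated points in a box -/
theorem pack_box {ι : Type*} (S : Finset ι) (p : ι → ℂ) {ρ : ℝ} (hρ : 0 < ρ)
    (hsep : ∀ z ∈ S, ∀ z' ∈ S, z ≠ z' → ρ ≤ ‖p z - p z'‖) (u : ℂ) (hu : ‖u‖ = 1)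
    {A B α β : ℝ} (hA : 0 ≤ A) (hB : 0 ≤ B)
    (h : ∀ z ∈ S, |sp u (p z) - α| ≤ A ∧ |wd u (p z) - β| ≤ B) :
    (S.card : ℝ) ≤ (4 * A / ρ + 2) * (4 * B / ρ + 2) := by
  obtain ⟨s, hs⟩ : ∃ s : ℝ, s = ρ / 2 := ⟨_, rfl⟩
  have hs0 : 0 < s := by rw [hs]; linarith
  have hinj : Set.InjOn (fun z => (⌊sp u (p z) / s⌋, ⌊wd u (p z) / s⌋)) (S : Set ι) := by
    intro z hz z' hz' hzz
    by_contra hne
    have h1 := hsep z hz z' hz' hne
    simp only [Prod.mk.injEq] at hzz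
    have h2 := Int.abs_sub_lt_one_of_floor_eq_floor hzz.1
    have h3 := Int.abs_sub_lt_one_of_floor_eq_floor hzz.2
    have e2 : |sp u (p z - p z')| < s := by
      rw [sp_sub]
      rw [← sub_div, abs_div, abs_of_pos hs0, div_lt_one hs0] at h2
      exact h2
    have e3 : |wd u (p z - p z')| < s := by
      rw [wd_sub]
      rw [← sub_div, abs_div, abs_of_pos hs0, div_lt_one hs0] at h3
      exact h3
    have h4 := sp_sq_add_wd_sq u (p z - p z')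
    rw [hu, one_pow, one_mul] at h4
    have h5 : sp u (p z - p z') ^ 2 < s ^ 2 := by
      rw [← sq_abs (sp u (p z - p z'))]
      exact pow_lt_pow_left₀ e2 (abs_nonneg _) two_ne_zero
    have h6 : wd u (p z - p z') ^ 2 < s ^ 2 := by
      rw [← sq_abs (wd u (p z - p z'))]
      exact pow_lt_pow_left₀ e3 (abs_nonneg _) two_ne_zero
    have h7 : ρ ^ 2 ≤ ‖p z - p z'‖ ^ 2 := pow_le_pow_left₀ hρ.le h1 2
    have h8 : s ^ 2 = ρ ^ 2 / 4 := by rw [hs]; ring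
    nlinarith
  have hmaps : Set.MapsTo (fun z => (⌊sp u (p z) / s⌋, ⌊wd u (p z) / s⌋)) (S : Set ι)
      ((Finset.Icc ⌊(α - A) / s⌋ ⌊(α + A) / s⌋ ×ˢ Finset.Icc ⌊(β - B) / s⌋ ⌊(β + B) / s⌋ :
        Finset (ℤ × ℤ)) : Set (ℤ × ℤ)) := by
    intro z hz
    have h1 := h z hz
    have h2 := abs_le.1 h1.1
    have h3 := abs_le.1 h1.2
    simp only [Finset.coe_product, Set.mem_prod, Finset.coe_Icc, Set.mem_Icc]
    refine ⟨⟨Int.floor_le_floor ?_, Int.floor_le_floor ?_⟩,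
      ⟨Int.floor_le_floor ?_, Int.floor_le_floor ?_⟩⟩
    · exact div_le_div_of_nonneg_right (by linarith) hs0.le
    · exact div_le_div_of_nonneg_right (by linarith) hs0.le
    · exact div_le_div_of_nonneg_right (by linarith) hs0.le
    · exact div_le_div_of_nonneg_right (by linarith) hs0.le
  have hcard := Finset.card_le_card_of_injOn _ hmaps hinj
  rw [Finset.card_product] at hcard
  have hcardR : (S.card : ℝ) ≤ ((Finset.Icc ⌊(α - A) / s⌋ ⌊(α + A) / s⌋).card : ℝ) *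
      ((Finset.Icc ⌊(β - B) / s⌋ ⌊(β + B) / s⌋).card : ℝ) := by exact_mod_cast hcard
  have i1 : ((Finset.Icc ⌊(α - A) / s⌋ ⌊(α + A) / s⌋).card : ℝ) ≤ 4 * A / ρ + 2 := by
    refine le_trans (int_count (div_le_div_of_nonneg_right (by linarith) hs0.le)) (le_of_eq ?_)
    rw [hs]; field_simp; ring
  have i2 : ((Finset.Icc ⌊(β - B) / s⌋ ⌊(β + B) / s⌋).card : ℝ) ≤ 4 * B / ρ + 2 := by
    refine le_trans (int_count (div_le_div_of_nonneg_right (by linarith) hs0.le)) (le_of_eq ?_)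
    rw [hs]; field_simp; ring
  refine le_trans hcardR (mul_le_mul i1 i2 (by positivity) (by positivity))

theorem sep_of {c₀ : ℝ} {g : ℤ × ℤ →+ ℂ} (hg : Sep c₀ g) (S : Finset (ℤ × ℤ)) :
    ∀ z ∈ S, ∀ z' ∈ S, z ≠ z' → c₀ ≤ ‖g z - g z'‖ := by
  intro z _ z' _ h
  rw [← map_sub]
  exact hg _ (sub_ne_zero.2 h)

theorem arith_box {c A : ℝ} (hc : 0 < c) (hA : 0 ≤ A) :
    4 * A / c + 2 ≤ (4 / c + 2) * (1 + A) := by
  have h1 : 0 ≤ 4 / c := by positivity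
  have h2 : 4 * A / c = 4 / c * A := by ring
  rw [h2]
  nlinarith

theorem box : BoxStmt := by
  intro c₀ hc
  have h0 : 0 ≤ 4 / c₀ := by positivity
  refine ⟨(4 / c₀ + 2) * (4 / c₀ + 2), by nlinarith, ?_⟩
  intro g hg u hu A B α β hA hB S hS
  refine le_trans (pack_box S (fun z => g z) hc (sep_of hg S) u hu hA hB hS) ?_
  calc (4 * A / c₀ + 2) * (4 * B / c₀ + 2) ≤
      ((4 / c₀ + 2) * (1 + A)) * ((4 / c₀ + 2) * (1 + B)) :=
        mul_le_mul (arith_box hc hA) (arith_box hc hB) (by positivity) (by positivity)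
    _ = (4 / c₀ + 2) * (4 / c₀ + 2) * (1 + A) * (1 + B) := by ring

/-- unit vector of `b` -/
theorem norm_unit {b : ℂ} (hb : b ≠ 0) : ‖((‖b‖⁻¹ : ℝ) : ℂ) * b‖ = 1 := by
  have h1 : 0 < ‖b‖ := norm_pos_iff.2 hb
  rw [norm_mul, Complex.norm_real, Real.norm_eq_abs, abs_of_pos (inv_pos.2 h1)]
  exact inv_mul_cancel₀ h1.ne'

theorem abs_sp_unit {b x : ℂ} (hb : b ≠ 0) {d : ℝ} (h : |sp x b| ≤ d) :
    |sp (((‖b‖⁻¹ : ℝ) : ℂ) * b) x| ≤ d / ‖b‖ := by
  have h1 : 0 < ‖b‖ := norm_pos_iff.2 hb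
  rw [sp_real, abs_mul, abs_of_pos (inv_pos.2 h1), sp_comm, div_eq_inv_mul]
  exact mul_le_mul_of_nonneg_left h (inv_pos.2 h1).le

theorem discStrip : DiscStripStmt := by
  intro c₀ hc
  obtain ⟨K, hK, hbox⟩ := box c₀ hc
  refine ⟨2 * K, by linarith, ?_⟩
  intro g hg b hb R d hR hd S hS
  have hn := norm_unit hb
  have h1 : 0 < ‖b‖ := norm_pos_iff.2 hb
  have hdb : 0 ≤ d / ‖b‖ := by positivity
  have := hbox g hg _ hn (d / ‖b‖) R 0 0 hdb (by linarith) S (by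
    intro z hz
    have h2 := hS z hz
    refine ⟨by rw [sub_zero]; exact abs_sp_unit hb h2.2, ?_⟩
    rw [sub_zero]
    refine le_trans (abs_wd_le _ _) ?_
    rw [hn, one_mul]
    exact h2.1)
  refine le_trans this ?_
  have h3 : 0 ≤ K * (1 + d / ‖b‖) := by positivity
  nlinarith

end Pool.Agent.Helper38_F5
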