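import Pool.Agent.F5H.StmtsM
import Pool.Agent.Helper96_DZ.VOL

/-!
MP_f5cbfa_nt, row MAS: `MStmt` from `LIPStmt`, `DKNStmt`, `CNTStmt` and `VOLMStmt`.
-/

set_option autoImplicit false

open MeasureTheory Set
open scoped ENNReal

namespace Pool.Agent.Helper38_F5.M

open Pool.Agent.BTL Pool.Agent.F5S Pool.Agent.F5H Pool.Agent.Helper48_F5 Pool.Agent.Helper96_GN
  Pool.Agent.Helper96_DZ

theorem measurable_t3 (l : Fin 3) : Measurable (fun m : R6 => t3 m l) := by
  fin_cases l
  · exact measurable_fst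
  · exact measurable_fst.comp measurable_snd
  · exact measurable_snd.comp measurable_snd

theorem measurable_cr {f g : R6 → ℝ × ℝ × ℝ} (hf : Measurable f) (hg : Measurable g) :
    Measurable (fun m => cr (f m) (g m)) := by
  unfold cr
  fun_prop

theorem measurable_dot {f g : R6 → ℝ × ℝ × ℝ} (hf : Measurable f) (hg : Measurable g) :
    Measurable (fun m => dot (f m) (g m)) := by
  unfold dot
  fun_prop

theorem measurable_bl {f : R6 → ℝ × ℝ × ℝ} {g : R6 → ℝ × ℝ} (hf : Measurable f)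
    (hg : Measurable g) (w : ℝ × ℝ) : Measurable (fun m => Helper48_F5.bl (f m) (g m) w) := by
  unfold Helper48_F5.bl
  fun_prop

theorem measurable_Zf (T : ℝ) (h : R6) : Measurable (fun m : R6 => Zf T (t3 m) (t3 h)) := by
  have h1 : ∀ l, Measurable (fun m : R6 => wv (t3 m) (t3 h) l) := by
    intro l
    have h2 := measurable_t3 l
    unfold wv vq
    fun_prop
  have hcr : ∀ i j, Measurable (fun m : R6 => cr (wv (t3 m) (t3 h) i) (wv (t3 m) (t3 h) j)) := by
    intro i j
    exact measurable_cr (h1 i) (h1 j)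
  have hn : Measurable (fun m : R6 => Helper48_F5.nn (t3 m) (t3 h)) :=
    measurable_dot (h1 0) (hcr 1 2)
  unfold Zf sol
  exact hn.inv.smul (((hcr 1 2).const_smul (T ^ 2)).add (((hcr 2 0).const_smul (T ^ 2)).add
    ((hcr 0 1).const_smul (T ^ 2))))

theorem measurable_Ff (T : ℝ) (h : R6) (l : Fin 3) :
    Measurable (fun m : R6 => Ff T (t3 m) (t3 h) l) := by
  exact measurable_bl (measurable_Zf T h) (measurable_t3 l) _

theorem ms_forall {ι : Type*} [Finite ι] {p : ι → R6 → Prop}
    (h : ∀ i, MeasurableSet {m | p i m}) : MeasurableSet {m | ∀ i, p i m} := by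
  have e : {m | ∀ i, p i m} = ⋂ i, {m | p i m} := by
    ext m
    rw [mem_iInter]
    rfl
  rw [e]
  have := Finite.to_countable (α := ι)
  exact MeasurableSet.iInter h

theorem measurableSet_Lev (a T : ℝ) (h : R6) : MeasurableSet {m : R6 | Lev a T h m} := by
  have hF := measurable_Ff T h
  have hZ := measurable_Zf T h
  have ht := measurable_t3
  have e : {m : R6 | Lev a T h m} = {m | (∀ l, ‖t3 m l‖ ≤ a * T) ∧
      (∀ i j, i ≠ j → T ^ 2 / (a * Px T) ≤ |dr (t3 m i) (t3 m j)|) ∧ ‖h‖ ≤ a * Lx T ∧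
      (∀ i j, |Ff T (t3 m) (t3 h) i - Ff T (t3 m) (t3 h) j| ≤ a * Px T) ∧
      (∀ i, |Ff T (t3 m) (t3 h) i| ≤ a * Px T * Rx T) ∧ Zf T (t3 m) (t3 h) ∈ KM (a * Px T)} := by
    ext m
    constructor
    · intro hm; exact ⟨hm.hm, hm.hd, hm.hh, hm.hF, hm.hR, hm.hZ⟩
    · rintro ⟨h1, h2, h3, h4, h5, h6⟩; exact ⟨h1, h2, h3, h4, h5, h6⟩
  rw [e]
  have hd : ∀ i j, Measurable (fun m : R6 => |dr (t3 m i) (t3 m j)|) := by
    intro i j
    have := ht i
    have := ht j
    unfold dr
    fun_prop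
  have m1 : MeasurableSet {m : R6 | ∀ l, ‖t3 m l‖ ≤ a * T} :=
    ms_forall fun l => measurableSet_le (ht l).norm measurable_const
  have m2 : MeasurableSet {m : R6 | ∀ i j, i ≠ j →
      T ^ 2 / (a * Px T) ≤ |dr (t3 m i) (t3 m j)|} := by
    refine ms_forall fun i => ms_forall fun j => ?_
    by_cases hij : i = j
    · have : {m : R6 | i ≠ j → T ^ 2 / (a * Px T) ≤ |dr (t3 m i) (t3 m j)|} = univ := by
        ext m
        simp only [mem_univ, iff_true]
        exact fun h' => absurd hij h'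
      rw [this]
      exact MeasurableSet.univ
    · have : {m : R6 | i ≠ j → T ^ 2 / (a * Px T) ≤ |dr (t3 m i) (t3 m j)|} =
          {m : R6 | T ^ 2 / (a * Px T) ≤ |dr (t3 m i) (t3 m j)|} := by
        ext m
        exact ⟨fun h' => h' hij, fun h' _ => h'⟩
      rw [this]
      exact measurableSet_le measurable_const (hd i j)
  have m3 : MeasurableSet {m : R6 | ∀ i j, |Ff T (t3 m) (t3 h) i - Ff T (t3 m) (t3 h) j| ≤
      a * Px T} := by
    refine ms_forall fun i => ms_forall fun j => measurableSet_le ?_ measurable_const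
    have := hF i
    have := hF j
    fun_prop
  have m4 : MeasurableSet {m : R6 | ∀ i, |Ff T (t3 m) (t3 h) i| ≤ a * Px T * Rx T} := by
    refine ms_forall fun i => measurableSet_le ?_ measurable_const
    have := hF i
    fun_prop
  have m5 : MeasurableSet {m : R6 | Zf T (t3 m) (t3 h) ∈ KM (a * Px T)} :=
    hZ (measurableSet_KM _)
  exact m1.inter (m2.inter ((MeasurableSet.const _).inter (m3.inter (m4.inter m5))))

/-- the integral of the number of dual points -/
theorem int_DK {T : ℝ} {h : R6} {L : Set R6} (hL : MeasurableSet L) {E : Z6 → Set R6}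
    (hE : ∀ m ∈ L, ∀ k ∈ DK T h m, m ∈ E k) :
    ∫⁻ m in L, ((DK T h m).ncard : ℝ≥0∞) ≤ ∑' k : Z6, if k = 0 then 0 else volume (E k) := by
  classical
  obtain ⟨G, hG⟩ : ∃ G : Z6 → Set R6, G = fun k => if k = 0 then ∅ else toMeasurable volume (E k) :=
    ⟨_, rfl⟩
  have hGm : ∀ k, MeasurableSet (G k) := by
    intro k
    rw [hG]
    simp only
    split_ifs
    · exact MeasurableSet.empty
    · exact measurableSet_toMeasurable _ _
  have h1 : ∀ m ∈ L, ((DK T h m).ncard : ℝ≥0∞) ≤ ∑' k : Z6, (G k).indicator (fun _ => (1 : ℝ≥0∞)) m := by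
    intro m hm
    rcases (DK T h m).finite_or_infinite with hf | hf
    · obtain ⟨S, hS⟩ : ∃ S, S = hf.toFinset := ⟨_, rfl⟩
      have h2 : (DK T h m).ncard = S.card := by
        rw [hS, Set.ncard_eq_toFinset_card _ hf]
      rw [h2]
      have h3 : (S.card : ℝ≥0∞) = ∑ k ∈ S, (G k).indicator (fun _ => (1 : ℝ≥0∞)) m := by
        rw [Finset.card_eq_sum_ones, Nat.cast_sum]
        refine Finset.sum_congr rfl fun k hk => ?_
        rw [hS, Set.Finite.mem_toFinset] at hk
        have hk0 : k ≠ 0 := hk.1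
        have : m ∈ G k := by
          rw [hG]
          simp only [if_neg hk0]
          exact subset_toMeasurable _ _ (hE m hm k hk)
        rw [indicator_of_mem this, Nat.cast_one]
      rw [h3]
      exact ENNReal.sum_le_tsum _
    · rw [hf.ncard, Nat.cast_zero]
      exact bot_le
  calc ∫⁻ m in L, ((DK T h m).ncard : ℝ≥0∞)
      ≤ ∫⁻ m in L, ∑' k : Z6, (G k).indicator (fun _ => (1 : ℝ≥0∞)) m :=
        setLIntegral_mono' hL h1
    _ ≤ ∫⁻ m, ∑' k : Z6, (G k).indicator (fun _ => (1 : ℝ≥0∞)) m := setLIntegral_le_lintegral _ _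
    _ = ∑' k : Z6, ∫⁻ m, (G k).indicator (fun _ => (1 : ℝ≥0∞)) m :=
        lintegral_tsum fun k => (measurable_const.indicator (hGm k)).aemeasurable
    _ = ∑' k : Z6, if k = 0 then 0 else volume (E k) := by
        refine tsum_congr fun k => ?_
        rw [lintegral_indicator (hGm k), setLIntegral_const, one_mul, hG]
        simp only
        split_ifs
        · exact measure_empty
        · exact measure_toMeasurable _

theorem Px_pow {T : ℝ} (hT : 1 ≤ T) {c : ℕ} (hc : c ≤ 10000) : Px T ^ c ≤ T ^ rho0 := by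
  have hT0 : 0 < T := by linarith
  have h0 := rho0_pos
  unfold Px
  rw [← Real.rpow_natCast, ← Real.rpow_mul hT0.le]
  refine Real.rpow_le_rpow_of_exponent_le hT ?_
  have h1 : (c : ℝ) ≤ 10000 := by exact_mod_cast hc
  calc rho0 / 10000 * (c : ℝ) ≤ rho0 / 10000 * 10000 :=
        mul_le_mul_of_nonneg_left h1 (by positivity)
    _ = rho0 := by ring

/-- **MAS** -/
theorem mas (lip : LIPStmt) (dkn : DKNStmt) (cnt : BC.CNTStmt) (vol : VOLMStmt) : MStmt := by
  classical
  obtain ⟨del1, hdel, hlip⟩ := lip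
  obtain ⟨ep, hep, C₁, T₁, hC₁, hT₁, hcnt⟩ := cnt
  obtain ⟨C₂, T₂, hC₂, hT₂, hvol⟩ := vol
  obtain ⟨T₃, hT₃, hdkn⟩ := dkn ep hep
  refine ⟨del1, hdel, ?_⟩
  intro M hM e he p
  obtain ⟨T₄, hT₄, hl⟩ := hlip M hM e he p
  have h0 := rho0_pos
  have h0' := rho0_le
  have hep0 : 0 < ep := by linarith
  -- `6 ≤ T ^ ep` for large `T`
  obtain ⟨T₅, hT₅⟩ := Filter.eventually_atTop.1
    ((tendsto_rpow_atTop hep0).eventually_ge_atTop (6 : ℝ))
  refine ⟨C₁ + C₂, max (max T₁ T₂) (max (max T₃ T₄) T₅), by linarith,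
    le_trans hT₁ (le_trans (le_max_left _ _) (le_max_left _ _)), ?_⟩
  intro T hT W hW H hH
  have hT1 : T₁ ≤ T := le_trans (le_trans (le_max_left _ _) (le_max_left _ _)) hT
  have hT2 : T₂ ≤ T := le_trans (le_trans (le_max_right _ _) (le_max_left _ _)) hT
  have hT3 : T₃ ≤ T := le_trans (le_trans (le_trans (le_max_left _ _) (le_max_left _ _))
    (le_max_right _ _)) hT
  have hT4 : T₄ ≤ T := le_trans (le_trans (le_trans (le_max_right _ _) (le_max_left _ _))
    (le_max_right _ _)) hT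
  have hT5 : 6 ≤ T ^ ep := hT₅ T (le_trans (le_trans (le_max_right _ _) (le_max_right _ _)) hT)
  have hT' : 1 ≤ T := le_trans hT₁ hT1
  have hT0 : 0 < T := by linarith
  have hne : ∀ h ∈ H, h ≠ 0 := by
    intro h hh h0
    exact (hH h hh).1.1 (by rw [h0]; rfl)
  -- the two parts
  obtain ⟨c, hc⟩ : ∃ c, c = Px T ^ 500 * (T ^ 4)⁻¹ := ⟨_, rfl⟩
  have hPx : 0 < Px T := by unfold Px; positivity
  have hc0 : 0 ≤ c := by rw [hc]; positivity
  have hLx : 0 < Lx T := by unfold Lx; positivity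
  obtain ⟨D, hD⟩ : ∃ D : Z6 → ℝ≥0∞, D = fun h => ∑' k : Z6, (if k = 0 then 0 else
      volume {m : R6 | BC.Reg (T ^ ep) T (r3 h) m ∧ BC.NB (T ^ ep) T (r3 h) m (r3 k)}) := ⟨_, rfl⟩
  have one : ∀ h ∈ H, ENNReal.ofReal |∑' x : Z6, fx M T e p W h (r3 x) - ∫ x, fx M T e p W h x| ≤
      ENNReal.ofReal c * (ENNReal.ofReal (T ^ (-(2 * rho0))) * volume {m : R6 | Lev 6 T (r3 h) m} +
        (if ‖r3 h‖ ≤ T ^ ep * Lx T then D h else 0)) := by
    intro h hh
    refine le_trans (hl T hT4 W hW h (hne h hh)) ?_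
    rw [← hc]
    refine mul_le_mul_right ?_ _
    have hL := measurableSet_Lev 6 T (r3 h)
    rw [lintegral_add_left measurable_const, setLIntegral_const]
    refine add_le_add le_rfl ?_
    split_ifs with hcase
    · rw [hD]
      refine int_DK hL fun m hm k hk => ?_
      obtain ⟨h1, h2⟩ := hdkn T hT3 h (hne h hh) m hm
      exact ⟨h1, h2 k hk⟩
    · have : {m : R6 | Lev 6 T (r3 h) m} = ∅ := by
        ext m
        simp only [mem_empty_iff_false, iff_false]
        intro hm
        apply hcase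
        refine le_trans hm.hh ?_
        exact mul_le_mul_of_nonneg_right hT5 hLx.le
      rw [this, setLIntegral_empty]
  -- the sum of the volumes
  have s1 : ∑ h ∈ H, volume {m : R6 | Lev 6 T (r3 h) m} ≤
      ENNReal.ofReal (C₂ * (Px T ^ 12 * T ^ (6 + 2 * rho0))) := hvol T hT2 H hH
  have s2 : ∑ h ∈ H, (if ‖r3 h‖ ≤ T ^ ep * Lx T then D h else 0) ≤
      ENNReal.ofReal (C₁ * T ^ (59999 / 10000 : ℝ)) := by
    rw [← Finset.sum_filter]
    have := hcnt T hT1 (H.filter (fun h => ‖r3 h‖ ≤ T ^ ep * Lx T)) (by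
      intro h hh
      rw [Finset.mem_filter] at hh
      exact ⟨(hH h hh.1).1, (hH h hh.1).2, hh.2⟩)
    rw [hD]
    exact this
  have tot : ENNReal.ofReal (∑ h ∈ H, |∑' x : Z6, fx M T e p W h (r3 x) - ∫ x, fx M T e p W h x|) ≤
      ENNReal.ofReal ((C₁ + C₂) * Bx T) := by
    rw [ENNReal.ofReal_sum_of_nonneg fun h _ => abs_nonneg _]
    calc ∑ h ∈ H, ENNReal.ofReal |∑' x : Z6, fx M T e p W h (r3 x) - ∫ x, fx M T e p W h x|
        ≤ ∑ h ∈ H, ENNReal.ofReal c * (ENNReal.ofReal (T ^ (-(2 * rho0))) *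
            volume {m : R6 | Lev 6 T (r3 h) m} +
            (if ‖r3 h‖ ≤ T ^ ep * Lx T then D h else 0)) := Finset.sum_le_sum one
      _ = ENNReal.ofReal c * (ENNReal.ofReal (T ^ (-(2 * rho0))) *
            ∑ h ∈ H, volume {m : R6 | Lev 6 T (r3 h) m} +
            ∑ h ∈ H, (if ‖r3 h‖ ≤ T ^ ep * Lx T then D h else 0)) := by
          rw [← Finset.mul_sum, Finset.sum_add_distrib, ← Finset.mul_sum]
      _ ≤ ENNReal.ofReal c * (ENNReal.ofReal (T ^ (-(2 * rho0))) *
            ENNReal.ofReal (C₂ * (Px T ^ 12 * T ^ (6 + 2 * rho0))) +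
            ENNReal.ofReal (C₁ * T ^ (59999 / 10000 : ℝ))) := by
          refine mul_le_mul_right (add_le_add (mul_le_mul_right s1 _) s2) _
      _ = ENNReal.ofReal (c * (T ^ (-(2 * rho0)) * (C₂ * (Px T ^ 12 * T ^ (6 + 2 * rho0))) +
            C₁ * T ^ (59999 / 10000 : ℝ))) := by
          rw [← ENNReal.ofReal_mul (by positivity), ← ENNReal.ofReal_add (by positivity)
            (by positivity), ← ENNReal.ofReal_mul hc0]
      _ ≤ _ := by
          apply ENNReal.ofReal_le_ofReal
          have p1 : Px T ^ 512 ≤ T ^ rho0 := Px_pow hT' (by norm_num)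
          have p2 : Px T ^ 500 ≤ T ^ (1 / 10000 : ℝ) := by
            unfold Px
            rw [← Real.rpow_natCast, ← Real.rpow_mul hT0.le]
            refine Real.rpow_le_rpow_of_exponent_le hT' ?_
            push_cast
            linarith
          have e4 : (T ^ 4)⁻¹ = T ^ (-4 : ℝ) := by
            rw [Real.rpow_neg hT0.le]
            norm_num
          have q1 : c * (T ^ (-(2 * rho0)) * (C₂ * (Px T ^ 12 * T ^ (6 + 2 * rho0)))) ≤
              C₂ * Bx T := by
            calc c * (T ^ (-(2 * rho0)) * (C₂ * (Px T ^ 12 * T ^ (6 + 2 * rho0))))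
                = C₂ * (Px T ^ 512 * ((T ^ 4)⁻¹ * T ^ (-(2 * rho0)) * T ^ (6 + 2 * rho0))) := by
                  rw [hc]; ring
              _ ≤ C₂ * (T ^ rho0 * ((T ^ 4)⁻¹ * T ^ (-(2 * rho0)) * T ^ (6 + 2 * rho0))) := by
                  refine mul_le_mul_of_nonneg_left ?_ (by linarith)
                  exact mul_le_mul_of_nonneg_right p1 (by positivity)
              _ = C₂ * Bx T := by
                  unfold Bx
                  rw [e4, ← Real.rpow_add hT0, ← Real.rpow_add hT0, ← Real.rpow_add hT0]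
                  congr 2
                  ring
          have q2 : c * (C₁ * T ^ (59999 / 10000 : ℝ)) ≤ C₁ * Bx T := by
            calc c * (C₁ * T ^ (59999 / 10000 : ℝ))
                = C₁ * (Px T ^ 500 * ((T ^ 4)⁻¹ * T ^ (59999 / 10000 : ℝ))) := by
                  rw [hc]; ring
              _ ≤ C₁ * (T ^ (1 / 10000 : ℝ) * ((T ^ 4)⁻¹ * T ^ (59999 / 10000 : ℝ))) := by
                  refine mul_le_mul_of_nonneg_left ?_ (by linarith)
                  exact mul_le_mul_of_nonneg_right p2 (by positivity)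
              _ = C₁ * T ^ (2 : ℝ) := by
                  rw [e4, ← Real.rpow_add hT0, ← Real.rpow_add hT0]
                  norm_num
              _ ≤ C₁ * Bx T := by
                  unfold Bx
                  refine mul_le_mul_of_nonneg_left ?_ (by linarith)
                  exact Real.rpow_le_rpow_of_exponent_le hT' (by linarith)
          rw [mul_add]
          linarith
  have hB : 0 ≤ (C₁ + C₂) * Bx T := by
    have : 0 < Bx T := by unfold Bx; positivity
    positivity
  exact (ENNReal.ofReal_le_ofReal_iff hB).1 tot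

end Pool.Agent.Helper38_F5.M
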