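import Pool.Agent.Helper38_F5.Area

/-!
MP_f5cbfa_nt, block N: Fubini for three points of the plane.
-/

set_option autoImplicit false

open MeasureTheory

namespace Pool.Agent.Helper38_F5

open Pool.Agent.Helper68_F5

theorem volP {β α : Type*} [MeasureSpace β] [MeasureSpace α] [SFinite (volume : Measure α)]
    [SFinite (volume : Measure β)] {G : Set (β × α)} (hG : MeasurableSet G) {B : Set α}
    (hB : MeasurableSet B) {m m' : ENNReal}
    (h : ∀ y, volume {x | (x, y) ∈ G} ≤ m) (hGB : ∀ x y, (x, y) ∈ G → y ∈ B)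
    (h' : volume B ≤ m') : volume G ≤ m * m' := by
  have e : volume G = ∫⁻ y, volume ((fun x => (x, y)) ⁻¹' G) := by
    rw [Measure.volume_eq_prod, Measure.prod_apply_symm hG]
  rw [e]
  calc ∫⁻ y, volume ((fun x => (x, y)) ⁻¹' G) ≤ ∫⁻ y, B.indicator (fun _ => m) y := by
        refine lintegral_mono fun y => ?_
        by_cases hy : y ∈ B
        · rw [Set.indicator_of_mem hy]; exact h y
        · have : (fun x : β => (x, y)) ⁻¹' G = ∅ := by
            ext x
            simp only [Set.mem_preimage, Set.mem_empty_iff_false, iff_false]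
            exact fun hx => hy (hGB x y hx)
          rw [this, measure_empty]
          exact bot_le
    _ = m * volume B := by rw [lintegral_indicator hB, lintegral_const, Measure.restrict_apply_univ]
    _ ≤ m * m' := mul_le_mul_right h' m

/-- Fubini for upper bounds, three factors, any set -/
theorem volT {E F : Set (ℂ × ℂ × ℂ)} (hEF : E ⊆ F) (hF : MeasurableSet F) {G : Set (ℂ × ℂ)}
    (hG : MeasurableSet G) {B : Set ℂ} (hB : MeasurableSet B) {m₁ m₂ m₃ : ENNReal}
    (h₁ : ∀ q, volume {x | (x, q) ∈ F} ≤ m₁) (hFG : ∀ x q, (x, q) ∈ F → q ∈ G)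
    (h₂ : ∀ y, volume {x | (x, y) ∈ G} ≤ m₂) (hGB : ∀ x y, (x, y) ∈ G → y ∈ B)
    (h₃ : volume B ≤ m₃) : volume E ≤ m₁ * (m₂ * m₃) :=
  le_trans (measure_mono hEF) (volP hF hG h₁ hFG (volP hG hB h₂ hGB h₃))

/-- annulus -/
theorem area_ann {s P : ℝ} (hP : 0 ≤ P) :
    volume {m : ℂ | |‖m‖ ^ 2 - s| ≤ P} ≤ ENNReal.ofReal (64 * P) := by
  rcases lt_or_ge s (2 * P) with hs | hs
  · -- the disc of radius √(3P)
    have hsub : {m : ℂ | |‖m‖ ^ 2 - s| ≤ P} ⊆ Metric.closedBall 0 (Real.sqrt (3 * P)) := by
      intro m hm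
      rw [Metric.mem_closedBall, dist_zero_right]
      apply Real.le_sqrt_of_sq_le
      rw [Set.mem_ofPred_eq] at hm
      have := (abs_le.1 hm).2
      linarith
    refine le_trans (measure_mono hsub) ?_
    rw [Complex.volume_closedBall]
    have h1 : ENNReal.ofReal (Real.sqrt (3 * P)) ^ 2 * (NNReal.pi : ENNReal) =
        ENNReal.ofReal (3 * P * Real.pi) := by
      have h2 : (NNReal.pi : ENNReal) = ENNReal.ofReal Real.pi := by
        rw [← NNReal.coe_real_pi, ENNReal.ofReal_coe_nnreal]
      rw [h2, ← ENNReal.ofReal_pow (Real.sqrt_nonneg _), Real.sq_sqrt (by positivity),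
        ← ENNReal.ofReal_mul (by positivity)]
    rw [h1]
    apply ENNReal.ofReal_le_ofReal
    have := Real.pi_lt_four
    nlinarith
  · -- two sectors
    have hs0 : 0 ≤ s := by linarith
    rcases eq_or_lt_of_le hs0 with h0 | h0
    · have hP0 : P = 0 := by linarith
      have : {m : ℂ | |‖m‖ ^ 2 - s| ≤ P} ⊆ {0} := by
        intro m hm
        rw [Set.mem_ofPred_eq, ← h0, hP0, sub_zero] at hm
        have h2 : ‖m‖ ^ 2 = 0 := by
          have := abs_nonneg (‖m‖ ^ 2)
          have := abs_eq_zero.1 (le_antisymm hm this)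
          exact this
        have h3 : ‖m‖ = 0 := by
          exact pow_eq_zero_iff (two_ne_zero) |>.1 h2
        rw [Set.mem_singleton_iff]
        exact norm_eq_zero.1 h3
      refine le_trans (measure_mono this) ?_
      rw [measure_singleton]
      exact bot_le
    · obtain ⟨r, hr⟩ : ∃ r : ℝ, r = Real.sqrt s := ⟨_, rfl⟩
      have hr0 : 0 < r := by rw [hr]; exact Real.sqrt_pos.2 h0
      have hr2 : r ^ 2 = s := by rw [hr]; exact Real.sq_sqrt hs0
      have hcov : {m : ℂ | |‖m‖ ^ 2 - s| ≤ P} ⊆
          {m : ℂ | |‖m‖ ^ 2 - s| ≤ P ∧ |sp m 1 - 0| ≤ 2 * r ∧ r / 2 ≤ |wd m 1|} ∪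
          {m : ℂ | |‖m‖ ^ 2 - s| ≤ P ∧ |sp m Complex.I - 0| ≤ 2 * r ∧
            r / 2 ≤ |wd m Complex.I|} := by
        intro m hm
        rw [Set.mem_ofPred_eq] at hm
        have hm1 := abs_le.1 hm
        have hu : ‖m‖ ≤ 2 * r := by
          by_contra h
          rw [not_le] at h
          nlinarith [norm_nonneg m]
        have hsplit := sp_sq_add_wd_sq m 1
        rw [norm_one, one_pow, mul_one] at hsplit
        have e1 : sp m Complex.I = wd 1 m := by simp [sp, wd]
        have e2 : wd m Complex.I = sp m 1 := by simp [sp, wd]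
        have e3 : |sp m 1| ≤ 2 * r := by
          have := abs_sp_le m 1
          rw [norm_one, mul_one] at this
          linarith
        have e4 : |wd m 1| ≤ 2 * r := by
          have := abs_wd_le m 1
          rw [norm_one, mul_one] at this
          linarith
        rcases le_or_gt (r / 2) |wd m 1| with h | h
        · left
          exact ⟨hm, by rw [sub_zero]; exact e3, h⟩
        · right
          refine ⟨hm, ?_, ?_⟩
          · rw [sub_zero, e1, wd_comm, abs_neg]; exact e4
          · rw [e2]
            by_contra h'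
            rw [not_le] at h'
            rw [← sq_abs (sp m 1), ← sq_abs (wd m 1)] at hsplit
            have := abs_nonneg (sp m 1)
            have := abs_nonneg (wd m 1)
            nlinarith
      refine le_trans (measure_mono hcov) (le_trans (measure_union_le _ _) ?_)
      have a1 := area_box (u := (1 : ℂ)) norm_one (s := s) (a := 0) (P := P) (b := 2 * r)
        (c := r / 2) hP (by positivity) (by positivity)
      have a2 := area_box (u := Complex.I) Complex.norm_I (s := s) (a := 0) (P := P) (b := 2 * r)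
        (c := r / 2) hP (by positivity) (by positivity)
      refine le_trans (add_le_add a1 a2) ?_
      rw [← ENNReal.ofReal_add (by positivity) (by positivity)]
      apply ENNReal.ofReal_le_ofReal
      apply le_of_eq
      field_simp
      ring

end Pool.Agent.Helper38_F5
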