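import Pool.Agent.F5H.StmtsN
import Pool.Agent.Helper38_F5.Vol6
import Pool.Agent.Helper38_F5.Arith

/-!
MP_f5cbfa_nt, block N: skeleton of the sum `SC` (reduction to finite sets of pairs, the data of a
pair, dyadic pieces, volume of a pair).
-/

set_option autoImplicit false

open MeasureTheory

namespace Pool.Agent.Helper38_F5

open Pool.Agent.BTL Pool.Agent.F5H Pool.Agent.F5H.BN Pool.Agent.Helper68_F5

/-- family condition -/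
def FamC (g : ℤ × ℤ →+ ℂ) (V : Fin 3 → ℝ) (h : T3) : Prop :=
  ∀ l, V l / 2 < ‖g3 g h l‖ ∧ ‖g3 g h l‖ ≤ V l

/-- the volume of a pair `p = (v, h)` -/
noncomputable def vlm (P T R₁ : ℝ) (g : ℤ × ℤ →+ ℂ) (p : T3 × T3) : ENNReal :=
  volume {m : ℂ × ℂ × ℂ | NRC P T R₁ g p.2 p.1 m}

/-- (S1) -/
theorem sc_fin {P T R₁ : ℝ} {g : ℤ × ℤ →+ ℂ} {V : Fin 3 → ℝ} {B : ENNReal}
    (H : ∀ 𝓟 : Finset (T3 × T3), (∀ p ∈ 𝓟, FamC g V p.2 ∧ ∃ m, NRC P T R₁ g p.2 p.1 m) →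
      ∑ p ∈ 𝓟, vlm P T R₁ g p ≤ B) : SC P T R₁ g V ≤ B := by
  classical
  unfold SC
  rw [← ENNReal.tsum_prod (f := fun h v : T3 => if (∀ l, V l / 2 < ‖g3 g h l‖ ∧ ‖g3 g h l‖ ≤ V l)
    then volume {m : ℂ × ℂ × ℂ | NRC P T R₁ g h v m} else 0), ENNReal.tsum_eq_iSup_sum]
  refine iSup_le fun s => ?_
  obtain ⟨s', hs'⟩ : ∃ s', s' = s.filter (fun q => FamC g V q.1 ∧ ∃ m, NRC P T R₁ g q.1 q.2 m) :=
    ⟨_, rfl⟩
  have e1 : ∑ q ∈ s, (if (∀ l, V l / 2 < ‖g3 g q.1 l‖ ∧ ‖g3 g q.1 l‖ ≤ V l)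
      then volume {m : ℂ × ℂ × ℂ | NRC P T R₁ g q.1 q.2 m} else 0) =
      ∑ q ∈ s', volume {m : ℂ × ℂ × ℂ | NRC P T R₁ g q.1 q.2 m} := by
    rw [hs', Finset.sum_filter]
    refine Finset.sum_congr rfl fun q _ => ?_
    by_cases h1 : FamC g V q.1
    · have h1' : ∀ l, V l / 2 < ‖g3 g q.1 l‖ ∧ ‖g3 g q.1 l‖ ≤ V l := h1
      rw [if_pos h1']
      by_cases h2 : ∃ m, NRC P T R₁ g q.1 q.2 m
      · rw [if_pos ⟨h1, h2⟩]
      · rw [if_neg (fun h => h2 h.2)]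
        have : {m : ℂ × ℂ × ℂ | NRC P T R₁ g q.1 q.2 m} = ∅ := by
          ext m
          simp only [Set.mem_ofPred_eq, Set.mem_empty_iff_false, iff_false]
          exact fun hm => h2 ⟨m, hm⟩
        rw [this, measure_empty]
    · have h1' : ¬ ∀ l, V l / 2 < ‖g3 g q.1 l‖ ∧ ‖g3 g q.1 l‖ ≤ V l := h1
      rw [if_neg h1', if_neg (fun h => h1 h.1)]
  have e2 := H (s'.image Prod.swap) (by
    intro p hp
    rw [Finset.mem_image] at hp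
    obtain ⟨q, hq, rfl⟩ := hp
    rw [hs', Finset.mem_filter] at hq
    exact hq.2)
  rw [Finset.sum_image (fun a _ b _ h => Prod.swap_injective h)] at e2
  refine le_trans (le_of_eq ?_) e2
  exact e1

/-- parameters; `P = Q ^ 3` is the loss of the triples `Tri` -/
structure Par (Q T R₁ : ℝ) (V : Fin 3 → ℝ) : Prop where
  hQ : 2 ≤ Q
  hlog : Real.log T ≤ Q
  hT : Q ^ 1000 ≤ T ^ (1 / 100000 : ℝ)
  hV : ∀ l, V l ≤ Q * T ^ (277 / 500 : ℝ)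
  hV1 : ∀ l, 1 ≤ V l
  hR : R₁ ≤ T ^ (49 / 100 : ℝ)
  hR1 : 1 ≤ Q * R₁

namespace Par

variable {Q T R₁ : ℝ} {V : Fin 3 → ℝ}

theorem T1 (a : Par Q T R₁ V) (hT0 : 0 ≤ T) : 1 ≤ T := by
  have h1 : (1 : ℝ) ≤ Q ^ 1000 := one_le_pow₀ (by linarith [a.hQ])
  have h2 := le_trans h1 a.hT
  by_contra h
  rw [not_le] at h
  have h3 := Real.rpow_lt_one hT0 h (by norm_num : (0 : ℝ) < 1 / 100000)
  linarith

/-- every power `Q ^ k` with `k ≤ 1000` is at most `T ^ (1/100000)` -/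
theorem pow_le (a : Par Q T R₁ V) {k : ℕ} (hk : k ≤ 1000) : Q ^ k ≤ T ^ (1 / 100000 : ℝ) :=
  le_trans (pow_le_pow_right₀ (by linarith [a.hQ]) hk) a.hT

theorem V_sq (a : Par Q T R₁ V) (hT : 1 ≤ T) (l : Fin 3) :
    Q + V l ^ 2 / 4 ≤ Q ^ 2 * T ^ (277 / 250 : ℝ) := by
  have hQ := a.hQ
  have h1 : V l ^ 2 ≤ Q ^ 2 * T ^ (277 / 250 : ℝ) := by
    have h2 := pow_le_pow_left₀ (by linarith [a.hV1 l] : 0 ≤ V l) (a.hV l) 2
    rw [mul_pow, ← Real.rpow_natCast (T ^ (277 / 500 : ℝ)) 2, ← Real.rpow_mul (by linarith)] at h2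
    norm_num at h2 ⊢
    exact h2
  have h3 : (1 : ℝ) ≤ T ^ (277 / 250 : ℝ) := Real.one_le_rpow hT (by norm_num)
  have h4 : Q ≤ Q ^ 2 * T ^ (277 / 250 : ℝ) / 2 := by nlinarith
  linarith

theorem E1 (a : Par Q T R₁ V) (hT : 1 ≤ T) (l : Fin 3) : 100 * (Q + V l ^ 2 / 4) ≤ T ^ 2 := by
  have h1 := a.V_sq hT l
  have hT0 : 0 < T := by linarith
  have h2 : 100 * Q ^ 2 ≤ Q ^ 9 := by
    have : (2 : ℝ) ^ 7 ≤ Q ^ 7 := pow_le_pow_left₀ (by norm_num) a.hQ 7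
    have hQ2 : 0 ≤ Q ^ 2 := by positivity
    nlinarith
  have h3 : 100 * Q ^ 2 ≤ T ^ (1 / 100000 : ℝ) := le_trans h2 (a.pow_le (by norm_num))
  calc 100 * (Q + V l ^ 2 / 4) ≤ 100 * (Q ^ 2 * T ^ (277 / 250 : ℝ)) := by linarith
    _ = (100 * Q ^ 2) * T ^ (277 / 250 : ℝ) := by ring
    _ ≤ T ^ (1 / 100000 : ℝ) * T ^ (277 / 250 : ℝ) :=
        mul_le_mul_of_nonneg_right h3 (by positivity)
    _ = T ^ (1 / 100000 + 277 / 250 : ℝ) := by rw [Real.rpow_add hT0]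
    _ ≤ T ^ (2 : ℝ) := Real.rpow_le_rpow_of_exponent_le hT (by norm_num)
    _ = T ^ 2 := by norm_num

theorem E2 (a : Par Q T R₁ V) (hT : 1 ≤ T) (hR0 : 0 ≤ R₁) (l : Fin 3) :
    Q * R₁ * (Q + V l ^ 2 / 4) ≤ T ^ 2 := by
  have h1 := a.V_sq hT l
  have hT0 : 0 < T := by linarith
  have hQ0 : 0 < Q := by linarith [a.hQ]
  have h3 : Q ^ 3 ≤ T ^ (1 / 100000 : ℝ) := a.pow_le (by norm_num)
  calc Q * R₁ * (Q + V l ^ 2 / 4) ≤ Q * T ^ (49 / 100 : ℝ) * (Q ^ 2 * T ^ (277 / 250 : ℝ)) := by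
        refine mul_le_mul (mul_le_mul_of_nonneg_left a.hR hQ0.le) h1 ?_ (by positivity)
        positivity
    _ = Q ^ 3 * (T ^ (49 / 100 : ℝ) * T ^ (277 / 250 : ℝ)) := by ring
    _ ≤ T ^ (1 / 100000 : ℝ) * (T ^ (49 / 100 : ℝ) * T ^ (277 / 250 : ℝ)) :=
        mul_le_mul_of_nonneg_right h3 (by positivity)
    _ = T ^ (1 / 100000 + (49 / 100 + 277 / 250) : ℝ) := by
        rw [Real.rpow_add hT0, Real.rpow_add hT0]
    _ ≤ T ^ (2 : ℝ) := Real.rpow_le_rpow_of_exponent_le hT (by norm_num)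
    _ = T ^ 2 := by norm_num

end Par

section pair

variable {Q T R₁ : ℝ} {V : Fin 3 → ℝ} {g : ℤ × ℤ →+ ℂ} {h v : T3} {m : ℂ × ℂ × ℂ}

/-- the midpoints are of length about `T` -/
theorem m_sq (a : Par Q T R₁ V) (hT : 1 ≤ T) (hf : FamC g V h) (n : NRC Q T R₁ g h v m)
    (l : Fin 3) : |‖c3 m l‖ ^ 2 - T ^ 2| ≤ Q + V l ^ 2 / 4 := by
  have h1 := abs_le.1 (n.an l)
  have h2 : ‖g3 g h l‖ ^ 2 ≤ V l ^ 2 := pow_le_pow_left₀ (norm_nonneg _) (hf l).2 2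
  have h3 : 0 ≤ ‖g3 g h l‖ ^ 2 := by positivity
  rw [abs_le]
  constructor <;> linarith

theorem m_lo (a : Par Q T R₁ V) (hT : 1 ≤ T) (hf : FamC g V h) (n : NRC Q T R₁ g h v m)
    (l : Fin 3) : 99 / 100 * T ≤ ‖c3 m l‖ := by
  have h1 := (abs_le.1 (m_sq a hT hf n l)).1
  have h2 := a.E1 hT l
  by_contra hc
  rw [not_le] at hc
  have h3 := norm_nonneg (c3 m l)
  nlinarith

theorem m_hi (a : Par Q T R₁ V) (hT : 1 ≤ T) (hf : FamC g V h) (n : NRC Q T R₁ g h v m)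
    (l : Fin 3) : ‖c3 m l‖ ≤ 101 / 100 * T := by
  have h1 := (abs_le.1 (m_sq a hT hf n l)).2
  have h2 := a.E1 hT l
  by_contra hc
  rw [not_le] at hc
  nlinarith

theorem m_close (a : Par Q T R₁ V) (hT : 1 ≤ T) (hf : FamC g V h) (n : NRC Q T R₁ g h v m)
    {ν : ℝ} (hν : |ν| * T ≤ Q * R₁) (l : Fin 3) : |ν| * |‖c3 m l‖ - T| ≤ 1 := by
  have hT0 : 0 < T := by linarith
  have h1 := m_sq a hT hf n l
  have hn := norm_nonneg (c3 m l)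
  have h2 : |‖c3 m l‖ ^ 2 - T ^ 2| = |‖c3 m l‖ - T| * (‖c3 m l‖ + T) := by
    have e : ‖c3 m l‖ ^ 2 - T ^ 2 = (‖c3 m l‖ - T) * (‖c3 m l‖ + T) := by ring
    rw [e, abs_mul, abs_of_nonneg (by linarith : 0 ≤ ‖c3 m l‖ + T)]
  rw [h2] at h1
  have h3 : |‖c3 m l‖ - T| * T ≤ Q + V l ^ 2 / 4 := by
    nlinarith [abs_nonneg (‖c3 m l‖ - T), mul_nonneg (abs_nonneg (‖c3 m l‖ - T)) hn]
  have hQ0 : 0 < Q := by linarith [a.hQ]
  have hR0 : 0 ≤ R₁ := by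
    by_contra hc
    rw [not_le] at hc
    have := mul_neg_of_pos_of_neg hQ0 hc
    linarith [a.hR1]
  have h4 := a.E2 hT hR0 l
  have h5 : (|ν| * T) * (|‖c3 m l‖ - T| * T) ≤ Q * R₁ * (Q + V l ^ 2 / 4) :=
    mul_le_mul hν h3 (by positivity) (by positivity)
  have h6 : |ν| * |‖c3 m l‖ - T| * T ^ 2 ≤ 1 * T ^ 2 := by
    calc |ν| * |‖c3 m l‖ - T| * T ^ 2 = (|ν| * T) * (|‖c3 m l‖ - T| * T) := by ring
      _ ≤ _ := h5
      _ ≤ _ := by linarith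
  exact le_of_mul_le_mul_right h6 (by positivity)

/-- the data of the ray -/
theorem v_close (a : Par Q T R₁ V) (hT : 1 ≤ T) (hf : FamC g V h) (n : NRC Q T R₁ g h v m)
    {ν : ℝ} (hν : |ν| * T ≤ Q * R₁) (hy : ∀ l, ‖g3 g v l - (ν : ℂ) * c3 m l‖ ≤ Q) (l : Fin 3) :
    |‖g3 g v l‖ - |ν| * T| ≤ Q + 1 := by
  have h1 := m_close a hT hf n hν l
  have h2 := abs_norm_sub_norm_le (g3 g v l) ((ν : ℂ) * c3 m l)
  rw [norm_mul, Complex.norm_real, Real.norm_eq_abs] at h2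
  have h3 := le_trans h2 (hy l)
  have e : ‖g3 g v l‖ - |ν| * T = (‖g3 g v l‖ - |ν| * ‖c3 m l‖) + |ν| * (‖c3 m l‖ - T) := by ring
  rw [e]
  refine le_trans (abs_add_le _ _) ?_
  rw [abs_mul, abs_abs]
  linarith

/-- the length of `v` -/
theorem v_len (a : Par Q T R₁ V) (hT : 1 ≤ T) (hf : FamC g V h) (n : NRC Q T R₁ g h v m)
    (l : Fin 3) : ‖g3 g v l‖ ≤ Q ^ 3 * R₁ := by
  obtain ⟨ν, hν, hy⟩ := n.ry
  have h1 := (abs_le.1 (v_close a hT hf n hν hy l)).2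
  have hQ := a.hQ
  have h2 := a.hR1
  have h3 : Q + 1 ≤ (Q + 1) * (Q * R₁) := by nlinarith
  have h4 : Q * R₁ + (Q + 1) * (Q * R₁) = (Q + 2) * (Q * R₁) := by ring
  have h5 : (Q + 2) * (Q * R₁) ≤ Q ^ 2 * (Q * R₁) := by
    refine mul_le_mul_of_nonneg_right ?_ (by linarith)
    nlinarith
  calc ‖g3 g v l‖ ≤ Q * R₁ + (Q + 1) := by linarith
    _ ≤ Q ^ 2 * (Q * R₁) := by linarith
    _ = Q ^ 3 * R₁ := by ring

/-- the three vectors have the same length up to `Q ^ 3` -/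
theorem v_eq (a : Par Q T R₁ V) (hT : 1 ≤ T) (hf : FamC g V h) (n : NRC Q T R₁ g h v m)
    (i j : Fin 3) : |‖g3 g v i‖ - ‖g3 g v j‖| ≤ Q ^ 3 := by
  obtain ⟨ν, hν, hy⟩ := n.ry
  have h1 := abs_le.1 (v_close a hT hf n hν hy i)
  have h2 := abs_le.1 (v_close a hT hf n hν hy j)
  have hQ := a.hQ
  have h3 : 2 * Q + 2 ≤ Q ^ 3 := by nlinarith [sq_nonneg Q, mul_nonneg (by linarith : 0 ≤ Q - 2) (sq_nonneg Q)]
  rw [abs_le]
  constructor <;> linarith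

/-- products with the vectors `v` -/
theorem m_v (a : Par Q T R₁ V) (hT : 1 ≤ T) (hf : FamC g V h) (n : NRC Q T R₁ g h v m)
    (hv : 20000 * Q ^ 9 ≤ ‖g v.1‖) (l : Fin 3) :
    |wd (c3 m l) (g3 g v l)| ≤ 2 * Q * T ∧ T * ‖g v.1‖ / 2 ≤ |sp (c3 m l) (g3 g v l)| := by
  obtain ⟨ν, hν, hy⟩ := n.ry
  have hT0 : 0 < T := by linarith
  have hQ := a.hQ
  obtain ⟨y, hyd⟩ : ∃ y, y = g3 g v l - (ν : ℂ) * c3 m l := ⟨_, rfl⟩
  have hyn : ‖y‖ ≤ Q := by rw [hyd]; exact hy l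
  have ev : g3 g v l = (ν : ℂ) * c3 m l + y := by rw [hyd]; ring
  have hm1 := m_lo a hT hf n l
  have hm2 := m_hi a hT hf n l
  have hmy : ‖c3 m l‖ * ‖y‖ ≤ 101 / 100 * T * Q := mul_le_mul hm2 hyn (norm_nonneg _) (by positivity)
  constructor
  · rw [ev, wd_add, wd_real', wd_self, mul_zero, zero_add]
    have := abs_wd_le (c3 m l) y
    nlinarith
  · rw [ev, sp_add, sp_real', sp_self]
    have h1 := abs_sp_le (c3 m l) y
    have h0 : g3 g v 0 = g v.1 := rfl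
    have h2 := (abs_le.1 (v_close a hT hf n hν hy 0)).2
    rw [h0] at h2
    have h3 : |ν| * T ≥ ‖g v.1‖ - (Q + 1) := by linarith
    have h4 : |ν * ‖c3 m l‖ ^ 2| = |ν| * ‖c3 m l‖ ^ 2 := by
      rw [abs_mul, abs_of_nonneg (sq_nonneg ‖c3 m l‖)]
    have h5 : |ν| * ‖c3 m l‖ ^ 2 ≥ |ν| * (99 / 100 * T) ^ 2 :=
      mul_le_mul_of_nonneg_left (pow_le_pow_left₀ (by positivity) hm1 2) (abs_nonneg _)
    have h6 : |ν| * (99 / 100 * T) ^ 2 = 9801 / 10000 * T * (|ν| * T) := by ring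
    have h7 : 9801 / 10000 * T * (|ν| * T) ≥ 9801 / 10000 * T * (‖g v.1‖ - (Q + 1)) :=
      mul_le_mul_of_nonneg_left h3 (by positivity)
    have h8 : |ν * ‖c3 m l‖ ^ 2 + sp (c3 m l) y| ≥ |ν * ‖c3 m l‖ ^ 2| - |sp (c3 m l) y| := by
      have := abs_sub_abs_le_abs_sub (ν * ‖c3 m l‖ ^ 2) (-sp (c3 m l) y)
      rw [abs_neg, sub_neg_eq_add] at this
      exact this
    have hQ9 : Q ≤ Q ^ 9 := by
      calc Q = Q ^ 1 := (pow_one Q).symm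
        _ ≤ Q ^ 9 := pow_le_pow_right₀ (by linarith) (by norm_num)
    have h9 : 0 ≤ T * (‖g v.1‖ - 20000 * Q) := mul_nonneg hT0.le (by linarith)
    nlinarith

/-- the triple `Tri` -/
theorem tri_of (a : Par Q T R₁ V) (hT : 1 ≤ T) (hf : FamC g V h) (n : NRC Q T R₁ g h v m)
    (hv : 20000 * Q ^ 9 ≤ ‖g v.1‖) : Tri (Q ^ 3) ‖g v.1‖ (g v.1) (g v.2.1) (g v.2.2) := by
  obtain ⟨ν, hν, hy⟩ := n.ry
  have hT0 : 0 < T := by linarith
  have hQ := a.hQ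
  have hQ0 : 0 < Q := by linarith
  have hQ3 : Q ^ 3 ≤ Q ^ 9 := pow_le_pow_right₀ (by linarith) (by norm_num)
  have hQ31 : 1 ≤ Q ^ 3 := one_le_pow₀ (by linarith)
  have hQ3Q : Q ≤ Q ^ 3 := by
    calc Q = Q ^ 1 := (pow_one Q).symm
      _ ≤ Q ^ 3 := pow_le_pow_right₀ (by linarith) (by norm_num)
  have hw : ∀ i j : Fin 3, i ≠ j →
      ‖g3 g v i‖ * ‖g3 g v j‖ ≤ 8 * Q ^ 3 * |wd (g3 g v i) (g3 g v j)| := by
    intro i j hij
    obtain ⟨y, hyd⟩ : ∃ y, y = g3 g v i - (ν : ℂ) * c3 m i := ⟨_, rfl⟩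
    obtain ⟨z, hzd⟩ : ∃ z, z = g3 g v j - (ν : ℂ) * c3 m j := ⟨_, rfl⟩
    have hyn : ‖y‖ ≤ Q := by rw [hyd]; exact hy i
    have hzn : ‖z‖ ≤ Q := by rw [hzd]; exact hy j
    have ei : g3 g v i = (ν : ℂ) * c3 m i + y := by rw [hyd]; ring
    have ej : g3 g v j = (ν : ℂ) * c3 m j + z := by rw [hzd]; ring
    obtain ⟨X, hX⟩ : ∃ X, X = |ν| * ‖c3 m i‖ := ⟨_, rfl⟩
    obtain ⟨Y, hY⟩ : ∃ Y, Y = |ν| * ‖c3 m j‖ := ⟨_, rfl⟩
    have nX : ‖(ν : ℂ) * c3 m i‖ = X := by rw [norm_mul, Complex.norm_real, Real.norm_eq_abs, hX]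
    have nY : ‖(ν : ℂ) * c3 m j‖ = Y := by rw [norm_mul, Complex.norm_real, Real.norm_eq_abs, hY]
    have hvi := (abs_le.1 (v_eq a hT hf n i 0)).1
    have hvj := (abs_le.1 (v_eq a hT hf n j 0)).1
    have h0 : g3 g v 0 = g v.1 := rfl
    rw [h0] at hvi hvj
    have ni : ‖g3 g v i‖ ≤ X + Q := by
      rw [ei]; refine le_trans (norm_add_le _ _) ?_; rw [nX]; linarith
    have nj : ‖g3 g v j‖ ≤ Y + Q := by
      rw [ej]; refine le_trans (norm_add_le _ _) ?_; rw [nY]; linarith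
    have hXl : 10000 * Q ^ 3 ≤ X := by linarith
    have hYl : 10000 * Q ^ 3 ≤ Y := by linarith
    have hX0 : 0 ≤ X := by linarith
    have hY0 : 0 ≤ Y := by linarith
    have hds := n.ds i j hij
    have hds2 : X * Y ≤ Q * (ν ^ 2 * |wd (c3 m i) (c3 m j)|) := by
      rw [hX, hY]
      calc |ν| * ‖c3 m i‖ * (|ν| * ‖c3 m j‖) = ν ^ 2 * (‖c3 m i‖ * ‖c3 m j‖) := by
            rw [← sq_abs ν]; ring
        _ ≤ ν ^ 2 * (Q * |wd (c3 m i) (c3 m j)|) := mul_le_mul_of_nonneg_left hds (sq_nonneg _)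
        _ = _ := by ring
    have ew : wd (g3 g v i) (g3 g v j) = ν ^ 2 * wd (c3 m i) (c3 m j) +
        (wd ((ν : ℂ) * c3 m i) z + wd y ((ν : ℂ) * c3 m j) + wd y z) := by
      rw [ei, ej, wd_add, wd_add', wd_add', wd_real, wd_real']
      ring
    have e1 := abs_wd_le ((ν : ℂ) * c3 m i) z
    have e2 := abs_wd_le y ((ν : ℂ) * c3 m j)
    have e3 := abs_wd_le y z
    rw [nX] at e1
    rw [nY] at e2
    have f1 : X * ‖z‖ ≤ X * Q := mul_le_mul_of_nonneg_left hzn hX0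
    have f2 : ‖y‖ * Y ≤ Q * Y := mul_le_mul_of_nonneg_right hyn hY0
    have f3 : ‖y‖ * ‖z‖ ≤ Q * Q := mul_le_mul hyn hzn (norm_nonneg _) hQ0.le
    have f4 : |wd ((ν : ℂ) * c3 m i) z + wd y ((ν : ℂ) * c3 m j) + wd y z| ≤
        X * Q + Q * Y + Q * Q := by
      have t1 := abs_add_le (wd ((ν : ℂ) * c3 m i) z + wd y ((ν : ℂ) * c3 m j)) (wd y z)
      have t2 := abs_add_le (wd ((ν : ℂ) * c3 m i) z) (wd y ((ν : ℂ) * c3 m j))
      linarith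
    have f5 : ν ^ 2 * |wd (c3 m i) (c3 m j)| ≤ |wd (g3 g v i) (g3 g v j)| +
        (X * Q + Q * Y + Q * Q) := by
      have t1 : |ν ^ 2 * wd (c3 m i) (c3 m j)| = ν ^ 2 * |wd (c3 m i) (c3 m j)| := by
        rw [abs_mul, abs_of_nonneg (sq_nonneg ν)]
      have t2 : ν ^ 2 * wd (c3 m i) (c3 m j) = wd (g3 g v i) (g3 g v j) -
        (wd ((ν : ℂ) * c3 m i) z + wd y ((ν : ℂ) * c3 m j) + wd y z) := by rw [ew]; ring
      rw [← t1, t2]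
      have t3 := abs_sub (wd (g3 g v i) (g3 g v j))
        (wd ((ν : ℂ) * c3 m i) z + wd y ((ν : ℂ) * c3 m j) + wd y z)
      linarith
    obtain ⟨w, hw⟩ : ∃ w, w = |wd (g3 g v i) (g3 g v j)| := ⟨_, rfl⟩
    rw [← hw] at f5 ⊢
    have f6 : X * Y ≤ Q * w + Q * (X * Q + Q * Y + Q * Q) := by
      have := mul_le_mul_of_nonneg_left f5 hQ0.le
      linarith
    have q2 : Q ^ 2 ≤ Q ^ 3 := pow_le_pow_right₀ (by linarith) (by norm_num)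
    have f7 : Q * (X * Q + Q * Y + Q * Q) ≤ X * Y / 2 := by
      have g1 : Q * (X * Q) ≤ X * Y / 8 := by
        have : Q ^ 2 ≤ Y / 8 := by linarith
        calc Q * (X * Q) = X * Q ^ 2 := by ring
          _ ≤ X * (Y / 8) := mul_le_mul_of_nonneg_left this hX0
          _ = _ := by ring
      have g2 : Q * (Q * Y) ≤ X * Y / 8 := by
        have : Q ^ 2 ≤ X / 8 := by linarith
        calc Q * (Q * Y) = Q ^ 2 * Y := by ring
          _ ≤ (X / 8) * Y := mul_le_mul_of_nonneg_right this hY0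
          _ = _ := by ring
      have g3' : Q * (Q * Q) ≤ X * Y / 8 := by
        have t1 : Q ^ 3 ≤ X / 8 := by linarith
        have t2 : (1 : ℝ) ≤ Y := by linarith
        calc Q * (Q * Q) = Q ^ 3 * 1 := by ring
          _ ≤ (X / 8) * Y := mul_le_mul t1 t2 zero_le_one (by positivity)
          _ = _ := by ring
      have hXY : 0 ≤ X * Y := mul_nonneg hX0 hY0
      linarith
    have f8 : X * Y ≤ 2 * (Q * w) := by linarith
    have f9 : (X + Q) * (Y + Q) ≤ 4 * (X * Y) := by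
      have t1 : Q ≤ X := by linarith
      have t2 : Q ≤ Y := by linarith
      nlinarith [mul_le_mul t1 t2 hQ0.le hX0]
    have hw0 : 0 ≤ w := by rw [hw]; exact abs_nonneg _
    calc ‖g3 g v i‖ * ‖g3 g v j‖ ≤ (X + Q) * (Y + Q) :=
          mul_le_mul ni nj (norm_nonneg _) (by positivity)
      _ ≤ 8 * (Q * w) := by linarith
      _ ≤ 8 * Q ^ 3 * w := by
          have := mul_le_mul_of_nonneg_right hQ3Q hw0
          linarith
  refine ⟨hQ31, by linarith, ?_, ?_, ?_, hw 0 1 (by decide), hw 1 2 (by decide), hw 2 0 (by decide)⟩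
  · rw [sub_self, abs_zero]; linarith
  · exact v_eq a hT hf n 1 0
  · exact v_eq a hT hf n 2 0

end pair

end Pool.Agent.Helper38_F5
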