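import Pool.Agent.Helper38_F5.Skel
import Pool.Agent.Helper9_F5H.CoreJ
import Pool.Agent.Helper9_F5H.Vsum

/-!
MP_f5cbfa_nt, block N: skeleton of the sum `SC`, second part: `Pair`, dyadic pieces, counting
triples, volume of a pair with two regular indices.
-/

set_option autoImplicit false

open MeasureTheory

namespace Pool.Agent.Helper38_F5

open Pool.Agent.BTL Pool.Agent.F5H Pool.Agent.F5H.BN Pool.Agent.Helper68_F5

section pair

variable {Q T R₁ : ℝ} {V : Fin 3 → ℝ} {g : ℤ × ℤ →+ ℂ} {h v : T3} {m : ℂ × ℂ × ℂ}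

/-- (S2) the pair is in the count of size `R` -/
theorem pair_of (a : Par Q T R₁ V) (hT : 1 ≤ T) (h12 : V 2 ≤ V 1) (h01 : V 1 ≤ V 0)
    (hf : FamC g V h) (n : NRC Q T R₁ g h v m) {R : ℝ} (hR : 20000 * Q ^ 9 ≤ R)
    (hlo : R ≤ ‖g v.1‖) (hhi : ‖g v.1‖ ≤ 2 * R) :
    Pair g (Q ^ 3) R (T ^ 2) (V 0) (V 1) (V 2) (Q * (1 + V 0 / R)) (Q * (1 + V 1 / R))
      (12 * (R * V 2)) v h := by
  have hQ := a.hQ
  have hQ0 : 0 < Q := by linarith
  have hT0 : 0 < T := by linarith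
  have hQ9 : Q ≤ Q ^ 9 := by
    calc Q = Q ^ 1 := (pow_one Q).symm
      _ ≤ Q ^ 9 := pow_le_pow_right₀ (by linarith) (by norm_num)
  have hR0 : 0 < R := by
    have : 0 < Q ^ 9 := by positivity
    linarith
  have ht := tri_of a hT hf n (le_trans hR hlo)
  have hw := n.wn (by linarith)
  have w0 := a.hV1 0
  have w1 := a.hV1 1
  have w2 := a.hV1 2
  have f0 : ‖g h.1‖ ≤ V 0 := (hf 0).2
  have f1 : ‖g h.2.1‖ ≤ V 1 := (hf 1).2
  have f2 : ‖g h.2.2‖ ≤ V 2 := (hf 2).2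
  have hc : 0 < ‖g v.1‖ := by linarith
  refine ⟨hlo, hhi, ht, ⟨f0, f1, f2, ?_, ?_, ?_⟩⟩
  · refine le_trans (hw 0 2) ?_
    refine mul_le_mul_of_nonneg_left ?_ hQ0.le
    have e1 : max ‖g3 g h 0‖ ‖g3 g h 2‖ ≤ V 0 := max_le f0 (le_trans f2 (by linarith))
    have e2 : max ‖g3 g h 0‖ ‖g3 g h 2‖ / ‖g v.1‖ ≤ V 0 / R :=
      div_le_div₀ (by linarith) e1 hR0 hlo
    linarith
  · refine le_trans (hw 1 2) ?_
    refine mul_le_mul_of_nonneg_left ?_ hQ0.le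
    have e1 : max ‖g3 g h 1‖ ‖g3 g h 2‖ ≤ V 1 := max_le f1 (le_trans f2 (by linarith))
    have e2 : max ‖g3 g h 1‖ ‖g3 g h 2‖ / ‖g v.1‖ ≤ V 1 / R :=
      div_le_div₀ (by linarith) e1 hR0 hlo
    linarith
  · have b1 := ht.A0_sub (g v.2.2) (g h.2.2)
    have b2 := ht.F_bound (S := T ^ 2) (V := V 0) (by positivity) (H₁ := g h.1) (H₂ := g h.2.1)
      (H₃ := g h.2.2) f0 (by linarith) (by linarith) (g v.2.2) (g h.2.2)
    have b3 := abs_sp_le (g v.2.2) (g h.2.2)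
    have hX : ‖g v.2.2‖ * ‖g h.2.2‖ ≤ 4 * R * V 2 := by
      have := ht.norm_le ht.n₃
      exact mul_le_mul (by linarith) f2 (norm_nonneg _) (by positivity)
    obtain ⟨X, hXd⟩ : ∃ X, X = ‖g v.2.2‖ * ‖g h.2.2‖ := ⟨_, rfl⟩
    rw [← hXd] at b1 b2 b3 hX
    have hX0 : 0 ≤ X := by rw [hXd]; positivity
    have c1 : 2304 * (Q ^ 3) ^ 3 / ‖g v.1‖ ≤ 1 := by
      rw [div_le_one hc]
      have : (Q ^ 3) ^ 3 = Q ^ 9 := by ring
      rw [this]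
      have : 0 < Q ^ 9 := by positivity
      linarith
    have c2 : 192 * (Q ^ 3) ^ 2 * (V 0 ^ 2 / T ^ 2) ≤ 1 := by
      have h1 := a.V_sq hT 0
      have h2 : 192 * (Q ^ 3) ^ 2 * (V 0 ^ 2) ≤ T ^ 2 := by
        have h3 : V 0 ^ 2 ≤ 4 * (Q ^ 2 * T ^ (277 / 250 : ℝ)) := by linarith
        have h4 : 768 * Q ^ 8 ≤ Q ^ 20 := by
          have : (2 : ℝ) ^ 12 ≤ Q ^ 12 := pow_le_pow_left₀ (by norm_num) hQ 12
          have h8 : 0 ≤ Q ^ 8 := by positivity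
          nlinarith
        have h5 : Q ^ 20 ≤ T ^ (1 / 100000 : ℝ) := a.pow_le (by norm_num)
        calc 192 * (Q ^ 3) ^ 2 * (V 0 ^ 2) ≤ 192 * (Q ^ 3) ^ 2 * (4 * (Q ^ 2 * T ^ (277 / 250 : ℝ))) :=
              mul_le_mul_of_nonneg_left h3 (by positivity)
          _ = (768 * Q ^ 8) * T ^ (277 / 250 : ℝ) := by ring
          _ ≤ T ^ (1 / 100000 : ℝ) * T ^ (277 / 250 : ℝ) :=
              mul_le_mul_of_nonneg_right (by linarith) (by positivity)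
          _ = T ^ (1 / 100000 + 277 / 250 : ℝ) := by rw [Real.rpow_add hT0]
          _ ≤ T ^ (2 : ℝ) := Real.rpow_le_rpow_of_exponent_le hT (by norm_num)
          _ = T ^ 2 := by norm_num
      rw [← mul_div_assoc, div_le_one (by positivity)]
      exact h2
    have b1' : 2304 * (Q ^ 3) ^ 3 / ‖g v.1‖ * X ≤ X := by
      have := mul_le_mul_of_nonneg_right c1 hX0
      linarith
    have b2' : 192 * (Q ^ 3) ^ 2 * (V 0 ^ 2 / T ^ 2) * X ≤ X := by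
      have := mul_le_mul_of_nonneg_right c2 hX0
      linarith
    obtain ⟨A, hA⟩ : ∃ A, A = Ah (T ^ 2) ‖g v.1‖ (g v.1) (g v.2.1) (g v.2.2) (g h.1) (g h.2.1)
      (g h.2.2) := ⟨_, rfl⟩
    obtain ⟨A', hA'⟩ : ∃ A, A = A0 ‖g v.1‖ (g v.1) (g v.2.1) (g v.2.2) := ⟨_, rfl⟩
    rw [← hA, ← hA'] at b2
    rw [← hA'] at b1
    rw [← hA]
    have e : bf A (g v.2.2) (g h.2.2) = bf (A - A') (g v.2.2) (g h.2.2) +
        (bf (A' - (1, 0, 1)) (g v.2.2) (g h.2.2) + sp (g v.2.2) (g h.2.2)) := by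
      rw [bf_sub_left, bf_sub_left, bf_one]; ring
    rw [e]
    have t1 := abs_add_le (bf (A - A') (g v.2.2) (g h.2.2))
      (bf (A' - (1, 0, 1)) (g v.2.2) (g h.2.2) + sp (g v.2.2) (g h.2.2))
    have t2 := abs_add_le (bf (A' - (1, 0, 1)) (g v.2.2) (g h.2.2)) (sp (g v.2.2) (g h.2.2))
    linarith

/-- an index four times larger than another one is regular -/
theorem wd_big (a : Par Q T R₁ V) (hT : 1 ≤ T) (hf : FamC g V h) (n : NRC Q T R₁ g h v m)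
    {i k : Fin 3} (hik : 4 * V k ≤ V i) : T * V i / 4 ≤ |wd (c3 m i) (g3 g h i)| := by
  have hT0 : 0 < T := by linarith
  have hQ := a.hQ
  have hi := hf i
  have hk := hf k
  have h1 := n.tb i k
  have hmi := m_lo a hT hf n i
  have hmk := m_hi a hT hf n k
  have vi := a.hV1 i
  have hmax : max ‖g3 g h i‖ ‖g3 g h k‖ ≤ V i := max_le hi.2 (by linarith [hk.2, a.hV1 k])
  have hsk : |sp (c3 m k) (g3 g h k)| ≤ 101 / 100 * T * V k := by
    refine le_trans (abs_sp_le _ _) ?_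
    exact mul_le_mul hmk hk.2 (norm_nonneg _) (by positivity)
  have hQT : 1000 * Q ≤ T := by
    have h2 : 1000 * Q ≤ Q ^ 11 := by
      have : (2 : ℝ) ^ 10 ≤ Q ^ 10 := pow_le_pow_left₀ (by norm_num) hQ 10
      nlinarith
    have h3 : Q ^ 11 ≤ T ^ (1 / 100000 : ℝ) := a.pow_le (by norm_num)
    have h4 : T ^ (1 / 100000 : ℝ) ≤ T ^ (1 : ℝ) :=
      Real.rpow_le_rpow_of_exponent_le hT (by norm_num)
    rw [Real.rpow_one] at h4
    linarith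
  have hsi : |sp (c3 m i) (g3 g h i)| ≤ 26 / 100 * (T * V i) := by
    have e1 : sp (c3 m i) (g3 g h i) = (sp (c3 m i) (g3 g h i) - sp (c3 m k) (g3 g h k)) +
        sp (c3 m k) (g3 g h k) := by ring
    rw [e1]
    refine le_trans (abs_add_le _ _) ?_
    have e2 : Q * max ‖g3 g h i‖ ‖g3 g h k‖ ≤ T / 1000 * V i :=
      mul_le_mul (by linarith) hmax (le_trans (norm_nonneg _) (le_max_left _ _)) (by positivity)
    have e3 : 101 / 100 * T * V k ≤ 101 / 100 * T * (V i / 4) :=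
      mul_le_mul_of_nonneg_left (by linarith) (by positivity)
    have e4 : 0 ≤ T * V i := by positivity
    linarith
  have hs := sp_sq_add_wd_sq (c3 m i) (g3 g h i)
  have h3 : (99 / 100 * T) * (V i / 2) ≤ ‖c3 m i‖ * ‖g3 g h i‖ :=
    mul_le_mul hmi hi.1.le (by positivity) (norm_nonneg _)
  have h4 : ((99 / 100 * T) * (V i / 2)) ^ 2 ≤ ‖c3 m i‖ ^ 2 * ‖g3 g h i‖ ^ 2 := by
    rw [← mul_pow]
    exact pow_le_pow_left₀ (by positivity) h3 2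
  by_contra hcon
  rw [not_le] at hcon
  rw [← sq_abs (sp _ _), ← sq_abs (wd _ _)] at hs
  have h5 : |sp (c3 m i) (g3 g h i)| ^ 2 ≤ (26 / 100 * (T * V i)) ^ 2 :=
    pow_le_pow_left₀ (abs_nonneg _) hsi 2
  have h6 : |wd (c3 m i) (g3 g h i)| ^ 2 ≤ (T * V i / 4) ^ 2 :=
    pow_le_pow_left₀ (abs_nonneg _) hcon.le 2
  have h7 : 0 < (T * V i) ^ 2 := by positivity
  nlinarith

end pair

/-- (S3) dyadic pieces -/
theorem dyad {Q T Rm : ℝ} {g : ℤ × ℤ →+ ℂ} (hQ : 2 ≤ Q) (hT : 1 ≤ T) (hlog : Real.log T ≤ Q)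
    (hRm : 1 ≤ Rm) (f : T3 × T3 → ENNReal) (𝓟 : Finset (T3 × T3))
    (hle : ∀ p ∈ 𝓟, ‖g p.1.1‖ ≤ T) {B₀ B : ENNReal}
    (h0 : ∑ p ∈ 𝓟.filter (fun p => ‖g p.1.1‖ < Rm), f p ≤ B₀)
    (h1 : ∀ R : ℝ, Rm ≤ R → R ≤ T →
      ∑ p ∈ 𝓟.filter (fun p => R ≤ ‖g p.1.1‖ ∧ ‖g p.1.1‖ ≤ 2 * R), f p ≤ B) :
    ∑ p ∈ 𝓟, f p ≤ B₀ + ENNReal.ofReal (3 * Q) * B := by
  classical
  obtain ⟨J, hJ⟩ : ∃ J : ℕ, J = ⌊2 * Q⌋₊ + 1 := ⟨_, rfl⟩
  have hJQ : (J : ℝ) ≤ 3 * Q := by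
    rw [hJ]
    push_cast
    have := Nat.floor_le (by linarith : (0 : ℝ) ≤ 2 * Q)
    linarith
  have hRm0 : 0 < Rm := by linarith
  have hcov : ∀ p ∈ 𝓟, Rm ≤ ‖g p.1.1‖ → ∃ j < J, Rm * 2 ^ j ≤ ‖g p.1.1‖ ∧
      ‖g p.1.1‖ ≤ 2 * (Rm * 2 ^ j) := by
    intro p hp hR
    have hx : 1 ≤ ‖g p.1.1‖ / Rm := by rw [le_div_iff₀ hRm0]; linarith
    obtain ⟨j, hj1, hj2⟩ := exists_nat_pow_near hx (by norm_num : (1 : ℝ) < 2)
    rw [le_div_iff₀ hRm0] at hj1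
    rw [div_lt_iff₀ hRm0] at hj2
    refine ⟨j, ?_, by linarith, ?_⟩
    · have h2 : (2 : ℝ) ^ j ≤ T := by
        have := hle p hp
        have h3 : (0 : ℝ) < 2 ^ j := by positivity
        nlinarith
      have h3 := Real.log_le_log (by positivity) h2
      rw [Real.log_pow] at h3
      have h4 := Real.log_two_gt_d9
      have h5 : (j : ℝ) < 2 * Q + 1 := by
        have hj0 : (0 : ℝ) ≤ j := Nat.cast_nonneg j
        nlinarith
      have h6 : (j : ℝ) ≤ 2 * Q := by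
        have hj0 : (0 : ℝ) ≤ j := Nat.cast_nonneg j
        nlinarith
      rw [hJ]
      have := Nat.le_floor h6
      omega
    · rw [pow_succ] at hj2
      linarith
  have hsplit : ∑ p ∈ 𝓟, f p ≤ ∑ p ∈ 𝓟.filter (fun p => ‖g p.1.1‖ < Rm), f p +
      ∑ j ∈ Finset.range J, ∑ p ∈ 𝓟.filter (fun p => Rm * 2 ^ j ≤ ‖g p.1.1‖ ∧
        ‖g p.1.1‖ ≤ 2 * (Rm * 2 ^ j)), f p := by
    have e1 : ∀ p ∈ 𝓟, f p ≤ (if ‖g p.1.1‖ < Rm then f p else 0) +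
        ∑ j ∈ Finset.range J, (if Rm * 2 ^ j ≤ ‖g p.1.1‖ ∧ ‖g p.1.1‖ ≤ 2 * (Rm * 2 ^ j) then f p
          else 0) := by
      intro p hp
      rcases lt_or_ge ‖g p.1.1‖ Rm with hc | hc
      · rw [if_pos hc]; exact le_self_add
      · obtain ⟨j, hj, hj'⟩ := hcov p hp hc
        refine le_trans ?_ le_add_self
        have := Finset.single_le_sum (f := fun j => (if Rm * 2 ^ j ≤ ‖g p.1.1‖ ∧
          ‖g p.1.1‖ ≤ 2 * (Rm * 2 ^ j) then f p else 0)) (fun i _ => bot_le)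
          (Finset.mem_range.2 hj)
        refine le_trans (le_of_eq ?_) this
        exact (if_pos hj').symm
    refine le_trans (Finset.sum_le_sum e1) ?_
    rw [Finset.sum_add_distrib, Finset.sum_comm, ← Finset.sum_filter]
    refine add_le_add le_rfl (le_of_eq ?_)
    refine Finset.sum_congr rfl fun j _ => ?_
    rw [← Finset.sum_filter]
  refine le_trans hsplit (add_le_add h0 ?_)
  have h2 : ∀ j ∈ Finset.range J, ∑ p ∈ 𝓟.filter (fun p => Rm * 2 ^ j ≤ ‖g p.1.1‖ ∧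
        ‖g p.1.1‖ ≤ 2 * (Rm * 2 ^ j)), f p ≤ B := by
    intro j _
    rcases le_or_gt (Rm * 2 ^ j) T with hc | hc
    · refine h1 (Rm * 2 ^ j) ?_ hc
      have : (1 : ℝ) ≤ 2 ^ j := one_le_pow₀ (by norm_num)
      nlinarith
    · have : 𝓟.filter (fun p => Rm * 2 ^ j ≤ ‖g p.1.1‖ ∧ ‖g p.1.1‖ ≤ 2 * (Rm * 2 ^ j)) = ∅ := by
        rw [Finset.filter_eq_empty_iff]
        intro p hp hpp
        linarith [hle p hp, hpp.1]
      rw [this, Finset.sum_empty]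
      exact bot_le
  refine le_trans (Finset.sum_le_sum h2) ?_
  rw [Finset.sum_const, Finset.card_range, nsmul_eq_mul]
  refine mul_le_mul_left ?_ B
  rw [← ENNReal.ofReal_natCast]
  exact ENNReal.ofReal_le_ofReal hJQ

/-- number of triples in a product of discs -/
theorem tri_count : ∃ K : ℝ, 1 ≤ K ∧ ∀ g : ℤ × ℤ →+ ℂ, Sep 1 g → ∀ r : Fin 3 → ℝ,
    (∀ l, 1 ≤ r l) → ∀ 𝓥 : Finset T3, (∀ v ∈ 𝓥, ∀ l, ‖g3 g v l‖ ≤ r l) →
      (𝓥.card : ℝ) ≤ K * (r 0 * r 1 * r 2) ^ 2 := by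
  classical
  obtain ⟨K, hK, h⟩ := box 1 one_pos
  have hK0 : 0 < K := by linarith
  refine ⟨(4 * K) ^ 3, one_le_pow₀ (by linarith), ?_⟩
  intro g hg r hr 𝓥 h𝓥
  have one : ∀ (r : ℝ), 1 ≤ r → ∀ (S : Finset (ℤ × ℤ)), (∀ z ∈ S, ‖g z‖ ≤ r) →
      (S.card : ℝ) ≤ 4 * K * r ^ 2 := by
    intro r hr S hS
    have key := h g hg 1 norm_one r r 0 0 (by linarith) (by linarith) S (fun z hz => by
      have h2 := hS z hz
      have e1 := abs_sp_le 1 (g z)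
      have e2 := abs_wd_le 1 (g z)
      rw [norm_one, one_mul] at e1 e2
      rw [sub_zero, sub_zero]
      exact ⟨by linarith, by linarith⟩)
    refine le_trans key ?_
    have : (1 + r) * (1 + r) ≤ 4 * r ^ 2 := by nlinarith
    calc K * (1 + r) * (1 + r) = K * ((1 + r) * (1 + r)) := by ring
      _ ≤ K * (4 * r ^ 2) := mul_le_mul_of_nonneg_left this hK0.le
      _ = _ := by ring
  have hsub : 𝓥 ⊆ (𝓥.image (fun v => v.1)) ×ˢ ((𝓥.image (fun v => v.2.1)) ×ˢ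
      (𝓥.image (fun v => v.2.2))) := by
    intro v hv
    rw [Finset.mem_product, Finset.mem_product]
    exact ⟨Finset.mem_image_of_mem _ hv, Finset.mem_image_of_mem (fun v : T3 => v.2.1) hv,
      Finset.mem_image_of_mem (fun v : T3 => v.2.2) hv⟩
  have hc := Finset.card_le_card hsub
  rw [Finset.card_product, Finset.card_product] at hc
  have hc' : (𝓥.card : ℝ) ≤ ((𝓥.image (fun v => v.1)).card : ℝ) *
      (((𝓥.image (fun v => v.2.1)).card : ℝ) * ((𝓥.image (fun v => v.2.2)).card : ℝ)) := by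
    exact_mod_cast hc
  have i1 := one (r 0) (hr 0) (𝓥.image (fun v => v.1)) (fun z hz => by
    rw [Finset.mem_image] at hz
    obtain ⟨v, hv, rfl⟩ := hz
    exact h𝓥 v hv 0)
  have i2 := one (r 1) (hr 1) (𝓥.image (fun v => v.2.1)) (fun z hz => by
    rw [Finset.mem_image] at hz
    obtain ⟨v, hv, rfl⟩ := hz
    exact h𝓥 v hv 1)
  have i3 := one (r 2) (hr 2) (𝓥.image (fun v => v.2.2)) (fun z hz => by
    rw [Finset.mem_image] at hz
    obtain ⟨v, hv, rfl⟩ := hz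
    exact h𝓥 v hv 2)
  refine le_trans hc' ?_
  calc ((𝓥.image (fun v => v.1)).card : ℝ) * (((𝓥.image (fun v => v.2.1)).card : ℝ) *
        ((𝓥.image (fun v => v.2.2)).card : ℝ))
      ≤ (4 * K * r 0 ^ 2) * ((4 * K * r 1 ^ 2) * (4 * K * r 2 ^ 2)) := by
        refine mul_le_mul i1 (mul_le_mul i2 i3 (by positivity) (by positivity)) (by positivity)
          (by positivity)
    _ = _ := by ring

/-- number of pairs -/
theorem card_pairs (𝓟 : Finset (T3 × T3)) {A B : ℝ} (hA : 0 ≤ A)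
    (h1 : ((𝓟.image (fun p => p.1)).card : ℝ) ≤ A) (h2 : ((𝓟.image (fun p => p.2)).card : ℝ) ≤ B) :
    (𝓟.card : ℝ) ≤ A * B := by
  classical
  have hsub : 𝓟 ⊆ (𝓟.image (fun p => p.1)) ×ˢ (𝓟.image (fun p => p.2)) := by
    intro p hp
    rw [Finset.mem_product]
    exact ⟨Finset.mem_image_of_mem _ hp, Finset.mem_image_of_mem (fun p : T3 × T3 => p.2) hp⟩
  have hc := Finset.card_le_card hsub
  rw [Finset.card_product] at hc
  have hc' : (𝓟.card : ℝ) ≤ ((𝓟.image (fun p => p.1)).card : ℝ) *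
      ((𝓟.image (fun p => p.2)).card : ℝ) := by exact_mod_cast hc
  exact le_trans hc' (mul_le_mul h1 h2 (by positivity) hA)

/-- (S4) two regular indices (the first two), the third point in a set `B` -/
theorem volA {H₀ H₁ H₂ : ℂ} {s₀ s₁ P w₀ w₁ n₀ n₁ : ℝ} {B : Set ℂ} (hB : MeasurableSet B)
    {m₃ : ENNReal} (hm₃ : volume B ≤ m₃) (hP : 0 ≤ P) (hw₀ : 0 ≤ w₀) (hw₁ : 0 ≤ w₁) (hn₀ : 0 < n₀)
    (hn₁ : 0 < n₁) : volume {m : ℂ × ℂ × ℂ | (|‖m.1‖ ^ 2 - s₀| ≤ P ∧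
      |sp m.1 H₀ - sp m.2.2 H₂| ≤ w₀ ∧ n₀ ≤ |wd m.1 H₀|) ∧ (|‖m.2.1‖ ^ 2 - s₁| ≤ P ∧
      |sp m.2.1 H₁ - sp m.2.2 H₂| ≤ w₁ ∧ n₁ ≤ |wd m.2.1 H₁|) ∧ m.2.2 ∈ B} ≤
    ENNReal.ofReal (8 * P * w₀ / n₀) * (ENNReal.ofReal (8 * P * w₁ / n₁) * m₃) := by
  have cs : ∀ H : ℂ, Continuous (fun z : ℂ => sp z H) := fun H => by
    simp only [sp]; fun_prop
  have cw : ∀ H : ℂ, Continuous (fun z : ℂ => wd z H) := fun H => by
    simp only [wd]; fun_prop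
  have k1 : Continuous (fun m : ℂ × ℂ × ℂ => |‖m.1‖ ^ 2 - s₀|) := by fun_prop
  have k2 : Continuous (fun m : ℂ × ℂ × ℂ => |sp m.1 H₀ - sp m.2.2 H₂|) :=
    (((cs H₀).comp continuous_fst).sub ((cs H₂).comp (continuous_snd.comp continuous_snd))).abs
  have k3 : Continuous (fun m : ℂ × ℂ × ℂ => |wd m.1 H₀|) := ((cw H₀).comp continuous_fst).abs
  have j1 : Continuous (fun m : ℂ × ℂ => |‖m.1‖ ^ 2 - s₁|) := by fun_prop
  have j2 : Continuous (fun m : ℂ × ℂ => |sp m.1 H₁ - sp m.2 H₂|) :=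
    (((cs H₁).comp continuous_fst).sub ((cs H₂).comp continuous_snd)).abs
  have j3 : Continuous (fun m : ℂ × ℂ => |wd m.1 H₁|) := ((cw H₁).comp continuous_fst).abs
  have mG : MeasurableSet {m : ℂ × ℂ | (|‖m.1‖ ^ 2 - s₁| ≤ P ∧
      |sp m.1 H₁ - sp m.2 H₂| ≤ w₁ ∧ n₁ ≤ |wd m.1 H₁|) ∧ m.2 ∈ B} := by
    refine MeasurableSet.inter ?_ (measurable_snd hB)
    exact (IsClosed.inter (isClosed_le j1 continuous_const) (IsClosed.inter
      (isClosed_le j2 continuous_const) (isClosed_le continuous_const j3))).measurableSet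
  have mF : MeasurableSet {m : ℂ × ℂ × ℂ | (|‖m.1‖ ^ 2 - s₀| ≤ P ∧
      |sp m.1 H₀ - sp m.2.2 H₂| ≤ w₀ ∧ n₀ ≤ |wd m.1 H₀|) ∧ m.2 ∈ {m : ℂ × ℂ |
      (|‖m.1‖ ^ 2 - s₁| ≤ P ∧ |sp m.1 H₁ - sp m.2 H₂| ≤ w₁ ∧ n₁ ≤ |wd m.1 H₁|) ∧ m.2 ∈ B}} := by
    refine MeasurableSet.inter ?_ (measurable_snd mG)
    exact (IsClosed.inter (isClosed_le k1 continuous_const) (IsClosed.inter
      (isClosed_le k2 continuous_const) (isClosed_le continuous_const k3))).measurableSet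
  refine volT (F := {m : ℂ × ℂ × ℂ | (|‖m.1‖ ^ 2 - s₀| ≤ P ∧
      |sp m.1 H₀ - sp m.2.2 H₂| ≤ w₀ ∧ n₀ ≤ |wd m.1 H₀|) ∧ m.2 ∈ {m : ℂ × ℂ |
      (|‖m.1‖ ^ 2 - s₁| ≤ P ∧ |sp m.1 H₁ - sp m.2 H₂| ≤ w₁ ∧ n₁ ≤ |wd m.1 H₁|) ∧ m.2 ∈ B}})
    (fun m hm => hm) mF mG hB ?_ (fun x q hx => hx.2) ?_ (fun x y hx => hx.2) hm₃
  · intro q
    refine le_trans (measure_mono ?_) (area_reg (H := H₀) (s := s₀) (t := sp q.2 H₂) hP hw₀ hn₀)
    intro x hx
    exact hx.1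
  · intro y
    refine le_trans (measure_mono ?_) (area_reg (H := H₁) (s := s₁) (t := sp y H₂) hP hw₁ hn₁)
    intro x hx
    exact hx.1

/-- the third point: annulus, or annulus and arc -/
theorem vol_third {s P b c : ℝ} {w : ℂ} (hP : 0 ≤ P) (hb : 0 ≤ b) (hc : 0 < c) :
    MeasurableSet {m : ℂ | |‖m‖ ^ 2 - s| ≤ P} ∧
    volume {m : ℂ | |‖m‖ ^ 2 - s| ≤ P} ≤ ENNReal.ofReal (64 * P) ∧
    MeasurableSet {m : ℂ | |‖m‖ ^ 2 - s| ≤ P ∧ |wd m w| ≤ b ∧ c ≤ |sp m w|} ∧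
    volume {m : ℂ | |‖m‖ ^ 2 - s| ≤ P ∧ |wd m w| ≤ b ∧ c ≤ |sp m w|} ≤
      ENNReal.ofReal (8 * P * b / c) := by
  have c1 : Continuous (fun m : ℂ => |‖m‖ ^ 2 - s|) := by fun_prop
  have c2 : Continuous (fun m : ℂ => |wd m w|) := by simp only [wd]; fun_prop
  have c3 : Continuous (fun m : ℂ => |sp m w|) := by simp only [sp]; fun_prop
  refine ⟨(isClosed_le c1 continuous_const).measurableSet, area_ann hP,
    (IsClosed.inter (isClosed_le c1 continuous_const) (IsClosed.inter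
      (isClosed_le c2 continuous_const) (isClosed_le continuous_const c3))).measurableSet,
    area_arc hP hb hc⟩

end Pool.Agent.Helper38_F5
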