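import Pool.Agent.Helper38_F5.Arc

/-!
MP_f5cbfa_nt, measure step: Fubini for three angles.
-/

set_option autoImplicit false

open MeasureTheory

namespace Pool.Agent.Helper38_F5

open Pool.Agent.Helper68_F5

theorem vol2 {α : Type*} [MeasureSpace α] [SFinite (volume : Measure α)] {G : Set (ℝ × α)}
    (hG : MeasurableSet G) {B : Set α} (hB : MeasurableSet B) {m m' : ENNReal}
    (h : ∀ y, volume {x | (x, y) ∈ G} ≤ m) (hGB : ∀ x y, (x, y) ∈ G → y ∈ B)
    (h' : volume B ≤ m') : volume G ≤ m * m' := by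
  have e : volume G = ∫⁻ y, volume ((fun x => (x, y)) ⁻¹' G) := by
    rw [Measure.volume_eq_prod, Measure.prod_apply_symm hG]
  rw [e]
  calc ∫⁻ y, volume ((fun x => (x, y)) ⁻¹' G) ≤ ∫⁻ y, B.indicator (fun _ => m) y := by
        refine lintegral_mono fun y => ?_
        by_cases hy : y ∈ B
        · rw [Set.indicator_of_mem hy]; exact h y
        · have : (fun x : ℝ => (x, y)) ⁻¹' G = ∅ := by
            ext x
            simp only [Set.mem_preimage, Set.mem_empty_iff_false, iff_false]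
            exact fun hx => hy (hGB x y hx)
          rw [this, measure_empty]
          exact bot_le
    _ = m * volume B := by rw [lintegral_indicator hB, lintegral_const, Measure.restrict_apply_univ]
    _ ≤ m * m' := mul_le_mul_right h' m

theorem vol3 {F : Set (ℝ × ℝ × ℝ)} (hF : MeasurableSet F) {G : Set (ℝ × ℝ)}
    (hG : MeasurableSet G) {B : Set ℝ} (hB : MeasurableSet B) {m₁ m₂ m₃ : ENNReal}
    (h₁ : ∀ q, volume {x | (x, q) ∈ F} ≤ m₁) (hFG : ∀ x q, (x, q) ∈ F → q ∈ G)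
    (h₂ : ∀ y, volume {x | (x, y) ∈ G} ≤ m₂) (hGB : ∀ x y, (x, y) ∈ G → y ∈ B)
    (h₃ : volume B ≤ m₃) : volume F ≤ m₁ * (m₂ * m₃) :=
  vol2 hF hG h₁ hFG (vol2 hG hB h₂ hGB h₃)

theorem continuous_ee : Continuous ee := by
  have : ee = fun θ : ℝ => (Complex.exp (θ * Complex.I)) := by
    funext θ
    apply Complex.ext
    · rw [Complex.exp_ofReal_mul_I_re]; rfl
    · rw [Complex.exp_ofReal_mul_I_im]; rfl
  rw [this]
  fun_prop

theorem continuous_sp {α : Type*} [TopologicalSpace α] {f : α → ℂ} (hf : Continuous f) (w : ℂ) :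
    Continuous (fun x => sp (f x) w) := by
  unfold sp
  have h1 := Complex.continuous_re.comp hf
  have h2 := Complex.continuous_im.comp hf
  exact (h1.mul continuous_const).add (h2.mul continuous_const)

theorem continuous_wd {α : Type*} [TopologicalSpace α] {f : α → ℂ} (hf : Continuous f) (w : ℂ) :
    Continuous (fun x => wd (f x) w) := by
  unfold wd
  have h1 := Complex.continuous_re.comp hf
  have h2 := Complex.continuous_im.comp hf
  exact (h1.mul continuous_const).sub (h2.mul continuous_const)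

/-- the set of angles of one pair with two regular indices -/
def RegSet (α : ℝ) (H₁ H₂ H₃ v₃ : ℂ) (a₁ a₂ δ₁ δ₂ ν₁ ν₂ r P : ℝ) : Set (ℝ × ℝ × ℝ) :=
  {θ | θ.1 ∈ Set.Icc α (α + 2 * Real.pi) ∧ θ.2.1 ∈ Set.Icc α (α + 2 * Real.pi) ∧
    θ.2.2 ∈ Set.Icc α (α + 2 * Real.pi) ∧
    |sp (ee θ.1) H₁ - a₁ * sp (ee θ.2.2) H₃| ≤ δ₁ ∧ ν₁ ≤ |wd (ee θ.1) H₁| ∧
    |sp (ee θ.2.1) H₂ - a₂ * sp (ee θ.2.2) H₃| ≤ δ₂ ∧ ν₂ ≤ |wd (ee θ.2.1) H₂| ∧
    |sp (ee θ.2.2) H₃| ≤ r ∧ |wd (ee θ.2.2) v₃| ≤ P}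

theorem circ_shift {w : ℂ} (hw : w ≠ 0) {d : ℝ} (hd : 0 ≤ d) (α : ℝ) :
    volume {θ : ℝ | θ ∈ Set.Icc α (α + 2 * Real.pi) ∧ |sp (ee θ) w| ≤ d} ≤
      ENNReal.ofReal (160 * (d / ‖w‖)) := by
  have hpi := Real.pi_pos
  have hn : 0 < ‖w‖ := norm_pos_iff.2 hw
  have hx0 : 0 ≤ d / ‖w‖ := by positivity
  rcases le_or_gt (‖w‖ / 2) d with hbig | hsmall
  · refine le_trans (measure_mono (fun θ hθ => hθ.1)) ?_
    rw [Real.volume_Icc]
    apply ENNReal.ofReal_le_ofReal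
    have := Real.pi_lt_four
    have : 1 / 2 ≤ d / ‖w‖ := by rw [le_div_iff₀ hn]; linarith
    linarith
  · refine le_trans (measure_mono ?_) (le_trans (arc (w := w) (α := α) 0 hd
      (show 0 < ‖w‖ / 2 by positivity)) ?_)
    · rintro θ ⟨h1, h2⟩
      refine ⟨h1, by rw [sub_zero]; exact h2, ?_⟩
      by_contra h
      rw [not_le] at h
      have h3 := sp_sq_add_wd_sq (ee θ) w
      rw [norm_ee, one_pow, one_mul, ← sq_abs (sp (ee θ) w), ← sq_abs (wd (ee θ) w)] at h3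
      have h4 := abs_nonneg (sp (ee θ) w)
      have h5 := abs_nonneg (wd (ee θ) w)
      nlinarith
    · apply ENNReal.ofReal_le_ofReal
      have : d / (‖w‖ / 2) = 2 * (d / ‖w‖) := by field_simp
      rw [this]
      linarith

theorem circ_wd_shift {w : ℂ} (hw : w ≠ 0) {d : ℝ} (hd : 0 ≤ d) (α : ℝ) :
    volume {θ : ℝ | θ ∈ Set.Icc α (α + 2 * Real.pi) ∧ |wd (ee θ) w| ≤ d} ≤
      ENNReal.ofReal (160 * (d / ‖w‖)) := by
  obtain ⟨u, hu⟩ : ∃ u : ℂ, u = ⟨w.im, -w.re⟩ := ⟨_, rfl⟩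
  have hn : ‖u‖ = ‖w‖ := by
    have h1 : ‖u‖ ^ 2 = ‖w‖ ^ 2 := by
      rw [Complex.sq_norm, Complex.sq_norm, Complex.normSq_apply, Complex.normSq_apply, hu]
      ring
    exact (pow_left_inj₀ (norm_nonneg _) (norm_nonneg _) (by norm_num)).1 h1
  have hu0 : u ≠ 0 := by
    rw [← norm_pos_iff, hn]; exact norm_pos_iff.2 hw
  have he : ∀ θ : ℝ, wd (ee θ) w = sp (ee θ) u := by
    intro θ; rw [hu, wd, sp]; ring
  simp only [he]
  rw [← hn]
  exact circ_shift hu0 hd α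

/-- measure of the angles of one pair, two regular indices; the last factor is any bound for
the third angle -/
theorem regSet_vol (α : ℝ) {H₁ H₂ H₃ v₃ : ℂ} {a₁ a₂ δ₁ δ₂ ν₁ ν₂ r P X : ℝ}
    (hδ₁ : 0 ≤ δ₁) (hδ₂ : 0 ≤ δ₂) (hν₁ : 0 < ν₁) (hν₂ : 0 < ν₂)
    (hX : volume {θ : ℝ | θ ∈ Set.Icc α (α + 2 * Real.pi) ∧ |sp (ee θ) H₃| ≤ r ∧
      |wd (ee θ) v₃| ≤ P} ≤ ENNReal.ofReal X) :
    volume (RegSet α H₁ H₂ H₃ v₃ a₁ a₂ δ₁ δ₂ ν₁ ν₂ r P) ≤
      ENNReal.ofReal (40 * (δ₁ / ν₁)) * (ENNReal.ofReal (40 * (δ₂ / ν₂)) * ENNReal.ofReal X) := by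
  have c1 : Continuous (fun θ : ℝ × ℝ × ℝ => ee θ.1) := continuous_ee.comp continuous_fst
  have c2 : Continuous (fun θ : ℝ × ℝ × ℝ => ee θ.2.1) :=
    continuous_ee.comp (continuous_fst.comp continuous_snd)
  have c3 : Continuous (fun θ : ℝ × ℝ × ℝ => ee θ.2.2) :=
    continuous_ee.comp (continuous_snd.comp continuous_snd)
  have d2 : Continuous (fun θ : ℝ × ℝ => ee θ.1) := continuous_ee.comp continuous_fst
  have d3 : Continuous (fun θ : ℝ × ℝ => ee θ.2) := continuous_ee.comp continuous_snd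
  refine vol3 (F := RegSet α H₁ H₂ H₃ v₃ a₁ a₂ δ₁ δ₂ ν₁ ν₂ r P)
    (G := {θ | θ.1 ∈ Set.Icc α (α + 2 * Real.pi) ∧ θ.2 ∈ Set.Icc α (α + 2 * Real.pi) ∧
      |sp (ee θ.1) H₂ - a₂ * sp (ee θ.2) H₃| ≤ δ₂ ∧ ν₂ ≤ |wd (ee θ.1) H₂| ∧
      |sp (ee θ.2) H₃| ≤ r ∧ |wd (ee θ.2) v₃| ≤ P})
    (B := {θ | θ ∈ Set.Icc α (α + 2 * Real.pi) ∧ |sp (ee θ) H₃| ≤ r ∧ |wd (ee θ) v₃| ≤ P})
    ?_ ?_ ?_ ?_ ?_ ?_ ?_ hX
  · refine IsClosed.measurableSet ?_
    refine IsClosed.inter (isClosed_Icc.preimage continuous_fst) (IsClosed.inter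
      (isClosed_Icc.preimage (continuous_fst.comp continuous_snd)) (IsClosed.inter
      (isClosed_Icc.preimage (continuous_snd.comp continuous_snd)) (IsClosed.inter
      (isClosed_le (((continuous_sp c1 H₁).sub (continuous_const.mul (continuous_sp c3 H₃))).abs)
        continuous_const) (IsClosed.inter (isClosed_le continuous_const
          ((continuous_wd c1 H₁).abs)) (IsClosed.inter
      (isClosed_le (((continuous_sp c2 H₂).sub (continuous_const.mul (continuous_sp c3 H₃))).abs)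
        continuous_const) (IsClosed.inter (isClosed_le continuous_const
          ((continuous_wd c2 H₂).abs)) (IsClosed.inter
            (isClosed_le ((continuous_sp c3 H₃).abs) continuous_const)
            (isClosed_le ((continuous_wd c3 v₃).abs) continuous_const))))))))
  · refine IsClosed.measurableSet ?_
    refine IsClosed.inter (isClosed_Icc.preimage continuous_fst) (IsClosed.inter
      (isClosed_Icc.preimage continuous_snd) (IsClosed.inter
      (isClosed_le (((continuous_sp d2 H₂).sub (continuous_const.mul (continuous_sp d3 H₃))).abs)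
        continuous_const) (IsClosed.inter (isClosed_le continuous_const
          ((continuous_wd d2 H₂).abs)) (IsClosed.inter
            (isClosed_le ((continuous_sp d3 H₃).abs) continuous_const)
            (isClosed_le ((continuous_wd d3 v₃).abs) continuous_const)))))
  · refine IsClosed.measurableSet ?_
    exact IsClosed.inter isClosed_Icc (IsClosed.inter
      (isClosed_le ((continuous_sp continuous_ee H₃).abs) continuous_const)
      (isClosed_le ((continuous_wd continuous_ee v₃).abs) continuous_const))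
  · intro q
    refine le_trans (measure_mono ?_) (arc (w := H₁) (α := α) (a₁ * sp (ee q.2) H₃) hδ₁ hν₁)
    rintro x ⟨h1, _, _, h4, h5, _⟩
    exact ⟨h1, h4, h5⟩
  · rintro x q ⟨_, h2, h3, _, _, h6, h7, h8, h9⟩
    exact ⟨h2, h3, h6, h7, h8, h9⟩
  · intro y
    refine le_trans (measure_mono ?_) (arc (w := H₂) (α := α) (a₂ * sp (ee y) H₃) hδ₂ hν₂)
    rintro x ⟨h1, _, h3, h4, _⟩
    exact ⟨h1, h3, h4⟩
  · rintro x y ⟨_, h2, _, _, h5, h6⟩
    exact ⟨h2, h5, h6⟩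

end Pool.Agent.Helper38_F5
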